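import Pool.Agent.Helper71.PO.Defs

/-!
# PO: letters of the product as letters of `L2 g`, the group, the classes, the torus
-/

set_option autoImplicit false
set_option linter.unusedSectionVars false

namespace Pool.Agent.Helper71.PO

open Pool.Agent.Helper48.GC8 Pool.Agent.Helper48.PW Pool.Agent.Helper71.OP

/-- The condition on diagonal matrices `e` with multiplier `c`. -/
def ProdRel : (k : Kind) → ℂ → (k.Ind → ℂ) → Prop
  | .weil p _, c, e => ∏ i : Fin (2 * p), e (Sum.inl i) = c ^ p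
  | _, _, _ => True

/-- The infinitesimal condition on diagonal matrices `t` with multiplier `c`. -/
def SumRel : (k : Kind) → ℂ → (k.Ind → ℂ) → Prop
  | .weil p _, c, t => ∑ i : Fin (2 * p), t (Sum.inl i) = p * c
  | _, _, _ => True

lemma main_of_isSp {K : Kind} (h : IsSp K) (x : K.Ind) : Main K x := by
  cases K with
  | sp g =>
    rcases x with i | i
    · exact Finset.notMem_empty i
    · trivial
  | cm => exact h.elim
  | weil p tor => exact h.elim

lemma main_inl {K : Kind} (i : Fin K.dim) : Main K (Sum.inl i) ↔ i ∉ K.tor := Iff.rfl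

lemma main_inr {K : Kind} (i : Fin K.dim) : Main K (Sum.inr i) ↔ IsSp K := Iff.rfl

lemma isSp_of_both {K : Kind} {x : K.Ind} (h1 : Main K x) (h2 : Main K x.swap) : IsSp K := by
  rcases x with i | i
  · exact h2
  · exact h1

lemma main_of_both {K : Kind} {x : K.Ind} (h1 : Main K x) (h2 : Main K x.swap) (y : K.Ind) :
    Main K y := main_of_isSp (isSp_of_both h1 h2) y

section Total

variable {B : Type} [Fintype B] [DecidableEq B] (k : B → Kind)

/-- Half the number of letters. -/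
def gt : ℕ := Fintype.card (Σ b, Fin (k b).dim)

/-- Numbering of the pairs of letters. -/
noncomputable def eg : (Σ b, Fin (k b).dim) ≃ Fin (gt k) := Fintype.equivFin _

/-- The letters of the product as letters of `L2 (gt k)`. -/
noncomputable def sg : Ind k ≃ L2 (gt k) :=
  (Equiv.sigmaSumDistrib (fun b => Fin (k b).dim) (fun b => Fin (k b).dim)).trans
    (Equiv.sumCongr (eg k) (eg k))

lemma sg_inl (b : B) (i : Fin (k b).dim) : sg k ⟨b, Sum.inl i⟩ = Sum.inl (eg k ⟨b, i⟩) := rfl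

lemma sg_inr (b : B) (i : Fin (k b).dim) : sg k ⟨b, Sum.inr i⟩ = Sum.inr (eg k ⟨b, i⟩) := rfl

lemma sg_swap (b : B) (x : (k b).Ind) : sg k ⟨b, x.swap⟩ = (sg k ⟨b, x⟩).swap := by
  rcases x with i | i <;> rfl

/-- Every letter comes from a letter of the product. -/
lemma sg_surj (r : L2 (gt k)) : ∃ b, ∃ x : (k b).Ind, sg k ⟨b, x⟩ = r :=
  ⟨((sg k).symm r).1, ((sg k).symm r).2, (sg k).apply_symm_apply r⟩

lemma eg_surj (j : Fin (gt k)) : ∃ b, ∃ i, eg k ⟨b, i⟩ = j :=
  ⟨((eg k).symm j).1, ((eg k).symm j).2, (eg k).apply_symm_apply j⟩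

lemma eg_inj {b : B} {i j : Fin (k b).dim} : eg k ⟨b, i⟩ = eg k ⟨b, j⟩ ↔ i = j := by
  rw [(eg k).injective.eq_iff]
  exact ⟨fun h => eq_of_heq (Sigma.mk.inj h).2, fun h => by rw [h]⟩

lemma eg_ne {a b : B} (h : a ≠ b) (i : Fin (k a).dim) (j : Fin (k b).dim) :
    eg k ⟨a, i⟩ ≠ eg k ⟨b, j⟩ := fun h1 => h (Sigma.mk.inj ((eg k).injective h1)).1

/-- The symplectic form of the product. -/
lemma sg_J (b : B) (x y : (k b).Ind) :
    Matrix.J (Fin (gt k)) ℂ (sg k ⟨b, x⟩) (sg k ⟨b, y⟩) = Matrix.J (Fin (k b).dim) ℂ x y := by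
  rcases x with i | i <;> rcases y with j | j
  · rw [sg_inl, sg_inl, J_ll, J_ll]
  · rw [sg_inl, sg_inr, J_lr, J_lr]
    simp only [eg_inj]
  · rw [sg_inl, sg_inr, J_rl, J_rl]
    simp only [eg_inj]
  · rw [sg_inr, sg_inr, J_rr, J_rr]

lemma sg_J_ne {a b : B} (h : a ≠ b) (x : (k a).Ind) (y : (k b).Ind) :
    Matrix.J (Fin (gt k)) ℂ (sg k ⟨a, x⟩) (sg k ⟨b, y⟩) = 0 := by
  rcases x with i | i <;> rcases y with j | j
  · rw [sg_inl, sg_inl, J_ll]
  · rw [sg_inl, sg_inr, J_lr, if_neg (eg_ne k h i j)]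
  · rw [sg_inl, sg_inr, J_rl, if_neg (eg_ne k h i j)]
  · rw [sg_inr, sg_inr, J_rr]

/-- Matrices of the product as matrices on `L2 (gt k)`. -/
noncomputable def rei : Matrix (Ind k) (Ind k) ℂ ≃ₐ[ℂ] Matrix (L2 (gt k)) (L2 (gt k)) ℂ :=
  Matrix.reindexAlgEquiv ℂ ℂ (sg k)

lemma rei_apply (M : Matrix (Ind k) (Ind k) ℂ) (x y : Ind k) :
    rei k M (sg k x) (sg k y) = M x y := by
  change M.submatrix (sg k).symm (sg k).symm (sg k x) (sg k y) = M x y
  rw [Matrix.submatrix_apply, Equiv.symm_apply_apply, Equiv.symm_apply_apply]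

lemma rei_symm_apply (X : Matrix (L2 (gt k)) (L2 (gt k)) ℂ) (x y : Ind k) :
    (rei k).symm X x y = X (sg k x) (sg k y) := by
  have h := rei_apply k ((rei k).symm X) x y
  rw [AlgEquiv.apply_symm_apply] at h
  exact h.symm

/-- The group of the product on the letters `L2 (gt k)`. -/
def GT (c : ℂ) (X : Matrix (L2 (gt k)) (L2 (gt k)) ℂ) : Prop := InGroup k c ((rei k).symm X)

open Classical in
/-- The class of a letter: the main letters of a block `b` (`inr (b, true)`), the partners of the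
main letters which are not main (`inr (b, false)`), the single torus letters (`inl x`). -/
noncomputable def tcl (x : Ind k) : Ind k ⊕ (B × Bool) :=
  if Main (k x.1) x.2 then Sum.inr (x.1, true)
  else if Main (k x.1) x.2.swap then Sum.inr (x.1, false) else Sum.inl x

/-- The class of a letter of `L2 (gt k)`. -/
noncomputable def cl (r : L2 (gt k)) : Ind k ⊕ (B × Bool) := tcl k ((sg k).symm r)

lemma cl_sg (x : Ind k) : cl k (sg k x) = tcl k x := by
  unfold cl
  rw [Equiv.symm_apply_apply]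

/-- The Lie algebra of the torus of the diagonal matrices in the group. -/
def TT (c : ℂ) (t : L2 (gt k) → ℂ) : Prop :=
  (∀ i, t (Sum.inl i) + t (Sum.inr i) = c) ∧ ∀ b, SumRel (k b) c (fun x => t (sg k ⟨b, x⟩))

end Total

end Pool.Agent.Helper71.PO
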