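import Pool.Agent.Helper71.OP.Sep2
import Pool.Agent.Helper48.PW.Kind

/-!
# One place is enough for products of abelian varieties with big monodromy (project PO)

Definitions of the statement.
-/

set_option autoImplicit false

namespace Pool.Agent.Helper71.PO

open Polynomial Pool.Agent.Helper48.GC8 Pool.Agent.Helper48.PW

/-- Symplectic type. -/
def IsSp : Kind → Prop
  | .sp _ => True
  | _ => False

/-- Weil type, diagonal at all indices. -/
def IsFull : Kind → Prop
  | .weil _ tor => tor = Finset.univ
  | _ => False

/-- The main letters: all letters for `sp`, the `e_i` with `i ∉ tor` for `weil`, none for `cm`. -/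
def Main (k : Kind) (x : k.Ind) : Prop :=
  Sum.elim (fun i => i ∉ k.tor) (fun _ => IsSp k) x

section Total

variable {B : Type} [Fintype B] [DecidableEq B] (k : B → Kind)

/-- The space spanned by the main letters of the block `b`. -/
def mainSpace (b : B) : Submodule ℂ (Ind k → ℂ) where
  carrier := {v | ∀ x : Ind k, (¬ ∃ y, Main (k b) y ∧ x = ⟨b, y⟩) → v x = 0}
  add_mem' := by
    intro v w hv hw x hx
    rw [Pi.add_apply, hv x hx, hw x hx, add_zero]
  zero_mem' := fun _ _ => rfl
  smul_mem' := by
    intro a v hv x hx
    rw [Pi.smul_apply, hv x hx, smul_zero]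

/-- The characteristic polynomial of `M` on the space spanned by the main letters of the block
`b`. -/
noncomputable def mainPoly (b : B) (M : Matrix (Ind k) (Ind k) ℂ) : ℂ[X] :=
  open Classical in
  Matrix.charpoly (M.submatrix (fun x : {x : (k b).Ind // Main (k b) x} => (⟨b, x.1⟩ : Ind k))
    (fun x : {x : (k b).Ind // Main (k b) x} => (⟨b, x.1⟩ : Ind k)))

end Total

end Pool.Agent.Helper71.PO
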