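import Pool.Agent.Helper71.PO.Prod
import Pool.Agent.Helper71.OP.Poly

/-!
# Polynomials in the multiplier and the entries (block PO-MULT)

Case 1: there is a letter, so a block `b` and `i : Fin (k b).dim`.  Then the multiplier is a
polynomial in the entries: for `InGroup k c M`, `M = blockDiagonal' X`, by `inG_form` for the
block `b`, entry `(inr i, inl i)` (`J_rl`): `c = ∑ x y : (k b).Ind, X b x (inr i) * J x y * X b y (inl i)`.  Let
`μ : MvPolynomial (Ind k × Ind k) ℂ` be this polynomial, and `F = bind₁ (fun o => o.elim μ X) f`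
(`MvPolynomial.bind₁`, or `aeval`), so `eval M F = eval (c, M) f` for `InGroup k c M`.  Apply `poly_of_stable`
(`Helper71/OP/Poly.lean`) with `G X = ∃ c, GT k c X`, `𝓜 = (fun z => rei k z.2) '' 𝓕` and the
polynomial `rename (Prod.map (sg k) (sg k)) F` (`rei_symm_apply`): an element of `Submonoid.closure 𝓜`
is `rei k z.2` with `z ∈ Submonoid.closure 𝓕` (`Submonoid.closure_induction`, or
`MonoidHom.map_mclosure`), and `InGroup k z.1 z.2` by `inGroup_one`, `inGroup_mul`.
Case 2: there is no letter (`IsEmpty (Ind k)`).  Let `p : ℂ[X]` be the image of `f` under `none ↦ X`; it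
vanishes at `z.1 ^ n` for all `n` (`z ^ n ∈ Submonoid.closure 𝓕`), so `p = 0`
(`Polynomial.eq_zero_of_infinite_isRoot`).
-/

set_option autoImplicit false

namespace Pool.Agent.Helper71.PO

open Pool.Agent.Helper48.GC8 Pool.Agent.Helper48.PW Pool.Agent.Helper71.OP

variable {B : Type} [Fintype B] [DecidableEq B] {k : B → Kind}

private lemma closure_inGroup60 (𝓕 : Set (ℕ × Matrix (Ind k) (Ind k) ℂ))
    (h𝓕 : ∀ z ∈ 𝓕, InGroup k (z.1 : ℂ) z.2) :
    ∀ z ∈ Submonoid.closure 𝓕, InGroup k (z.1 : ℂ) z.2 := by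
  intro z hz
  induction hz using Submonoid.closure_induction with
  | mem z hz => exact h𝓕 z hz
  | one =>
    show InGroup k ((1 : ℕ) : ℂ) 1
    rw [Nat.cast_one]
    exact inGroup_one
  | mul z w _ _ hz hw =>
    show InGroup k ((z.1 * w.1 : ℕ) : ℂ) (z.2 * w.2)
    rw [Nat.cast_mul]
    exact inGroup_mul hz hw

private lemma closure_lift60 (𝓕 : Set (ℕ × Matrix (Ind k) (Ind k) ℂ)) :
    ∀ X ∈ Submonoid.closure ((fun z : ℕ × Matrix (Ind k) (Ind k) ℂ => rei k z.2) '' 𝓕),
      ∃ z ∈ Submonoid.closure 𝓕, X = rei k z.2 := by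
  intro X hX
  induction hX using Submonoid.closure_induction with
  | mem X hX =>
    obtain ⟨z, hz, rfl⟩ := hX
    exact ⟨z, Submonoid.subset_closure hz, rfl⟩
  | one => exact ⟨1, Submonoid.one_mem _, (map_one (rei k)).symm⟩
  | mul X Y _ _ hX hY =>
    obtain ⟨z, hz, rfl⟩ := hX
    obtain ⟨w, hw, rfl⟩ := hY
    exact ⟨z * w, Submonoid.mul_mem _ hz hw, (map_mul (rei k) _ _).symm⟩

private lemma eval_bind60 {σ τ : Type} (x : τ → ℂ) (g : σ → MvPolynomial τ ℂ)
    (f : MvPolynomial σ ℂ) :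
    MvPolynomial.eval x (MvPolynomial.bind₁ g f) =
      MvPolynomial.eval (fun i => MvPolynomial.eval x (g i)) f := by
  have h := MvPolynomial.eval₂Hom_bind₁ (RingHom.id ℂ) x g f
  exact h

/-- the multiplier as a polynomial -/
private noncomputable def mu60 {g : ℕ} (j : Fin g) : MvPolynomial (L2 g × L2 g) ℂ :=
  ∑ x : L2 g, ∑ y : L2 g, MvPolynomial.X (y, Sum.inr j) *
    MvPolynomial.C (Matrix.J (Fin g) ℂ y x) * MvPolynomial.X (x, Sum.inl j)

private lemma mu_eval60 {g : ℕ} (j : Fin g) {c : ℂ} {X : Matrix (L2 g) (L2 g) ℂ}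
    (h : X.transpose * Matrix.J (Fin g) ℂ * X = c • Matrix.J (Fin g) ℂ) :
    MvPolynomial.eval (fun p => X p.1 p.2) (mu60 j) = c := by
  have h1 := congrFun (congrFun h (Sum.inr j)) (Sum.inl j)
  rw [Matrix.smul_apply, J_rl, if_pos rfl, smul_eq_mul, mul_one, Matrix.mul_apply] at h1
  rw [← h1]
  unfold mu60
  rw [map_sum]
  refine Finset.sum_congr rfl fun x _ => ?_
  rw [map_sum, Matrix.mul_apply, Finset.sum_mul]
  refine Finset.sum_congr rfl fun y _ => ?_
  rw [map_mul, map_mul, MvPolynomial.eval_X, MvPolynomial.eval_X, MvPolynomial.eval_C,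
    Matrix.transpose_apply]

theorem dense_of_stable (𝓕 : Set (ℕ × Matrix (Ind k) (Ind k) ℂ))
    (h𝓕 : ∀ z ∈ 𝓕, InGroup k (z.1 : ℂ) z.2) (h2 : ∃ z ∈ 𝓕, 2 ≤ z.1)
    (hst : ∀ (d : ℕ) (U : Submodule ℂ (Ten (Fin d) (IP (gt k)))),
      (∀ z ∈ 𝓕, ∀ u ∈ U, rho Finset.univ (pl (rei k z.2)) u ∈ U) →
      ∀ (c : ℂ) (X : Matrix (L2 (gt k)) (L2 (gt k)) ℂ), GT k c X →
        ∀ u ∈ U, rho Finset.univ (pl X) u ∈ U)
    (f : MvPolynomial (Option (Ind k × Ind k)) ℂ)
    (hf : ∀ z ∈ Submonoid.closure 𝓕,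
      MvPolynomial.eval (fun o => o.elim (z.1 : ℂ) (fun p => z.2 p.1 p.2)) f = 0) :
    ∀ (c : ℂ) (M : Matrix (Ind k) (Ind k) ℂ), InGroup k c M →
      MvPolynomial.eval (fun o => o.elim c (fun p => M p.1 p.2)) f = 0 := by
  by_cases hg : gt k = 0
  · -- no letters
    have hemp : ∀ x : Ind k, False := by
      intro x
      have hx := sg k x
      rcases hx with i | i
      · exact absurd i.2 (by omega)
      · exact absurd i.2 (by omega)
    intro c M hM
    obtain ⟨z, hz, hz2⟩ := h2
    let p : Polynomial ℂ := MvPolynomial.eval₂ Polynomial.C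
      (fun o : Option (Ind k × Ind k) => o.elim Polynomial.X (fun _ => 0)) f
    have hp : ∀ (c : ℂ) (M : Matrix (Ind k) (Ind k) ℂ), Polynomial.eval c p =
        MvPolynomial.eval (fun o => o.elim c (fun p => M p.1 p.2)) f := by
      intro c M
      show Polynomial.evalRingHom c (MvPolynomial.eval₂ Polynomial.C _ f) = _
      rw [MvPolynomial.eval₂_comp_left]
      have e1 : (Polynomial.evalRingHom c).comp Polynomial.C = RingHom.id ℂ := by
        ext a
        simp
      rw [e1]
      show MvPolynomial.eval₂ (RingHom.id ℂ) _ f = MvPolynomial.eval₂ (RingHom.id ℂ) _ f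
      congr 1
      funext o
      rcases o with _ | q
      · simp
      · exact (hemp q.1).elim
    have hp0 : p = 0 := by
      refine Polynomial.eq_zero_of_infinite_isRoot p ?_
      have hinj : Function.Injective (fun n : ℕ => ((z.1 : ℂ)) ^ n) := by
        intro a b hab
        have h3 : ((z.1 ^ a : ℕ) : ℂ) = ((z.1 ^ b : ℕ) : ℂ) := by
          push_cast
          exact hab
        exact Nat.pow_right_injective hz2 (Nat.cast_injective h3)
      refine (Set.infinite_range_of_injective hinj).mono ?_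
      rintro _ ⟨n, rfl⟩
      show Polynomial.eval _ p = 0
      rw [hp _ ((z ^ n).2)]
      have h3 := hf (z ^ n) (Submonoid.pow_mem _ (Submonoid.subset_closure hz) n)
      rw [← h3]
      have h4 : ((z ^ n).1 : ℂ) = (z.1 : ℂ) ^ n := by
        rw [Prod.pow_fst, Nat.cast_pow]
      rw [h4]
    rw [← hp c M, hp0, Polynomial.eval_zero]
  · obtain ⟨j⟩ : Nonempty (Fin (gt k)) := ⟨⟨0, Nat.pos_of_ne_zero hg⟩⟩
    let F : MvPolynomial (L2 (gt k) × L2 (gt k)) ℂ := MvPolynomial.bind₁
      (fun o : Option (Ind k × Ind k) => o.elim (mu60 j)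
        (fun p => MvPolynomial.X (sg k p.1, sg k p.2))) f
    have hF : ∀ (c : ℂ) (X : Matrix (L2 (gt k)) (L2 (gt k)) ℂ), GT k c X →
        MvPolynomial.eval (fun p => X p.1 p.2) F =
          MvPolynomial.eval (fun o => o.elim c (fun p => X (sg k p.1) (sg k p.2))) f := by
      intro c X hX
      show MvPolynomial.eval _ (MvPolynomial.bind₁ _ f) = _
      rw [eval_bind60]
      congr 2
      funext o
      rcases o with _ | q
      · exact mu_eval60 j hX.form
      · show MvPolynomial.eval _ (MvPolynomial.X _) = _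
        rw [MvPolynomial.eval_X]
        rfl
    have hmain := poly_of_stable (fun X => ∃ c, GT k c X)
      ((fun z : ℕ × Matrix (Ind k) (Ind k) ℂ => rei k z.2) '' 𝓕) ?_ F ?_
    · intro c M hM
      have hGT : GT k c (rei k M) := by
        unfold GT
        rw [AlgEquiv.symm_apply_apply]
        exact hM
      have h3 := hmain (rei k M) ⟨c, hGT⟩
      rw [hF c _ hGT] at h3
      simp only [rei_apply] at h3
      exact h3
    · rintro d U hU X ⟨c, hX⟩ u hu
      refine hst d U (fun z hz u hu => ?_) c X hX u hu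
      exact hU (rei k z.2) ⟨z, hz, rfl⟩ u hu
    · intro X hX
      obtain ⟨z, hz, rfl⟩ := closure_lift60 𝓕 X hX
      have hin := closure_inGroup60 𝓕 h𝓕 z hz
      have hGT : GT k (z.1 : ℂ) (rei k z.2) := by
        unfold GT
        rw [AlgEquiv.symm_apply_apply]
        exact hin
      rw [hF _ _ hGT]
      simp only [rei_apply]
      exact hf z hz

end Pool.Agent.Helper71.PO
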