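import Pool.Agent.Helper71.PO.Kind

/-!
# The eigenvalues on the main letters (block PO-ROOTS)

`h` is block diagonal (`InGroup k 1 h`) and by `inG_zero` `h ⟨b, z⟩ ⟨b, y⟩ = 0` if `y` is main and
`z` is not (`z ≠ y`; not both main; and for `sp` all letters are main, for `weil` `y.swap` is not main).
So the parts `M₁`, `h₁`, `h₁'` on the main letters of the block `b` satisfy `M₁ * h₁ = h₁ * diagonal ev₁`
and `h₁' * h₁ = 1`, so `M₁ = h₁ * diagonal ev₁ * h₁'` and
`charpoly M₁ = charpoly (diagonal ev₁) = ∏ (X - C (ev₁ x))` (`Matrix.charpoly_mul_comm`,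
`Matrix.charpoly_diagonal`), with roots the multiset of the `ev₁ x`
(`Polynomial.roots_multiset_prod_X_sub_C`; see `isBig_of_onePlace` in
`Helper71/Reserve/OnePlaceMonodromy.lean`).  `Nodup` of the mapped multiset gives injectivity
(`Multiset.inj_on_of_nodup_map`).
-/

set_option autoImplicit false
set_option linter.unusedSectionVars false

namespace Pool.Agent.Helper71.PO

open Pool.Agent.Helper48.GC8 Pool.Agent.Helper48.PW Pool.Agent.Helper71.OP

private lemma sub_mul {I N : Type} [Fintype I] [Fintype N] (e : N → I) (he : Function.Injective e)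
    (A C : Matrix I I ℂ) (hC : ∀ w ∉ Set.range e, ∀ y, C w (e y) = 0) :
    A.submatrix e e * C.submatrix e e = (A * C).submatrix e e := by
  ext x y
  rw [Matrix.mul_apply, Matrix.submatrix_apply, Matrix.mul_apply]
  refine Fintype.sum_of_injective e he _ _ (fun w hw => ?_) (fun z => rfl)
  rw [hC w hw y, mul_zero]

/-- The roots of the characteristic polynomial of a part of a matrix. -/
private lemma roots_part {I N : Type} [Fintype I] [DecidableEq I] [Fintype N] [DecidableEq N]
    (e : N → I) (he : Function.Injective e) {M h h' : Matrix I I ℂ} {ev : I → ℂ}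
    (hh : ∀ w ∉ Set.range e, ∀ y, h w (e y) = 0) (hinv : h' * h = 1)
    (heig : M * h = h * Matrix.diagonal ev) :
    (Matrix.charpoly (M.submatrix e e)).roots =
      (Finset.univ : Finset N).val.map (fun x => ev (e x)) := by
  have h1 : M.submatrix e e * h.submatrix e e =
      h.submatrix e e * Matrix.diagonal (fun x => ev (e x)) := by
    rw [sub_mul e he M h hh, heig]
    ext x y
    rw [Matrix.submatrix_apply, Matrix.mul_diagonal, Matrix.mul_diagonal, Matrix.submatrix_apply]
  have h2 : h'.submatrix e e * h.submatrix e e = 1 := by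
    rw [sub_mul e he h' h hh, hinv, Matrix.submatrix_one e he]
  have h3 : h.submatrix e e * h'.submatrix e e = 1 := mul_eq_one_comm.1 h2
  have h4 : M.submatrix e e =
      h.submatrix e e * Matrix.diagonal (fun x => ev (e x)) * h'.submatrix e e := by
    rw [← h1, Matrix.mul_assoc, h3, Matrix.mul_one]
  have h5 : Matrix.charpoly (M.submatrix e e) = ∏ x, (Polynomial.X - Polynomial.C (ev (e x))) := by
    rw [h4, Matrix.charpoly_mul_comm, ← Matrix.mul_assoc, h2, Matrix.one_mul,
      Matrix.charpoly_diagonal]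
  have h6 : Matrix.charpoly (M.submatrix e e) =
      (((Finset.univ : Finset N).val.map (fun x => ev (e x))).map
        (fun t => Polynomial.X - Polynomial.C t)).prod := by
    rw [h5, Multiset.map_map]
    rfl
  rw [h6, Polynomial.roots_multiset_prod_X_sub_C]

variable {B : Type} [Fintype B] [DecidableEq B] {k : B → Kind}

theorem roots_mainPoly {M h h' : Matrix (Ind k) (Ind k) ℂ} {ev : Ind k → ℂ}
    (hh : InGroup k 1 h) (hinv : h' * h = 1) (heig : M * h = h * Matrix.diagonal ev) (b : B) :
    (∀ x, Main (k b) x → ev ⟨b, x⟩ ∈ (mainPoly k b M).roots) ∧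
    ((mainPoly k b M).roots.Nodup →
      ∀ x y, Main (k b) x → Main (k b) y → ev ⟨b, x⟩ = ev ⟨b, y⟩ → x = y) := by
  classical
  have hinj : Function.Injective
      (fun x : {x : (k b).Ind // Main (k b) x} => (⟨b, x.1⟩ : Ind k)) := by
    intro x y hxy
    exact Subtype.ext (eq_of_heq (Sigma.mk.inj hxy).2)
  have hz : ∀ w ∉ Set.range (fun x : {x : (k b).Ind // Main (k b) x} => (⟨b, x.1⟩ : Ind k)),
      ∀ y : {x : (k b).Ind // Main (k b) x}, h w ⟨b, y.1⟩ = 0 := by
    rintro ⟨a, z⟩ hw y
    obtain ⟨_, Y, hY, rfl⟩ := hh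
    by_cases hab : a = b
    · subst hab
      rw [Matrix.blockDiagonal'_apply_eq]
      have hmz : ¬ Main (k a) z := fun hm => hw ⟨⟨z, hm⟩, rfl⟩
      refine inG_zero (hY a) ?_ (fun h1 => hmz h1.1) ?_
      · rintro rfl
        exact hmz y.2
      · rintro ⟨-, h1⟩
        exact hmz (main_of_both y.2 h1 z)
    · rw [Matrix.blockDiagonal'_apply_ne _ _ _ hab]
  have key := roots_part _ hinj hz hinv heig
  have key' : (mainPoly k b M).roots =
      (Finset.univ : Finset {x : (k b).Ind // Main (k b) x}).val.map (fun x => ev ⟨b, x.1⟩) := by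
    rw [← key]
    unfold mainPoly
    congr!
  rw [key']
  refine ⟨fun x hx => ?_, fun hnd x y hx hy hxy => ?_⟩
  · exact Multiset.mem_map.2 ⟨⟨x, hx⟩, Finset.mem_univ_val _, rfl⟩
  · have h1 := Multiset.inj_on_of_nodup_map hnd ⟨x, hx⟩ (Finset.mem_univ_val _) ⟨y, hy⟩
      (Finset.mem_univ_val _) hxy
    exact congrArg Subtype.val h1

end Pool.Agent.Helper71.PO
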