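import Pool.Agent.Helper71.PO.Base

/-!
# No exceptional relations with four terms (block PO-SID)

`Sidon (cl k) lam` (`Helper71/OP/Sep2.lean`): let `r ≠ s` be in one class, `r' ≠ s'` in one class, and
`(lam r' * lam s) ^ n = (lam s' * lam r) ^ n`, `0 < n`.  A class with two letters is
`inr (b, true)` (the main letters of a block) or `inr (b, false)` (the letters `x` such that `x.swap` is
main and `x` is not).  We may assume that `r`, `s` are main letters: otherwise replace `(r, s)` by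
`(s.swap, r.swap)`; then `lam s.swap = q / lam s`, the relation becomes
`(lam r' * lam r.swap) ^ n = (lam s' * lam s.swap) ^ n` (`lam r * lam r.swap = q`), and the conclusion
is the same.  In the same way `r'`, `s'` are main letters.  Now let `r = sg ⟨b, u⟩`, ... and apply
`h4` with `α = lam r'`, `γ = lam s'` (block `a`), `β = lam s`, `δ = lam r` (block `b`):
* `α = γ`: `r' = s'` by `hnd`, a contradiction;
* `a = b`, `α = δ`, `β = γ`: `r' = r` and `s' = s` by `hnd`;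
* `a = b` symplectic, `α β = q = γ δ`: `lam r' = lam s.swap`, all letters of the block are main, so
  `r' = s.swap`, and `s' = r.swap`.
-/

set_option autoImplicit false

namespace Pool.Agent.Helper71.PO

open Pool.Agent.Helper48.GC8 Pool.Agent.Helper48.PW Pool.Agent.Helper71.OP

variable {B : Type} [Fintype B] [DecidableEq B] {k : B → Kind}

/-- the pair `(r, s)` is the pair of main letters `(u, v)` or its reflection -/
private def Pr24 (r s : L2 (gt k)) (b : B) (u v : (k b).Ind) : Prop :=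
  (r = sg k ⟨b, u⟩ ∧ s = sg k ⟨b, v⟩) ∨ (r = sg k ⟨b, v.swap⟩ ∧ s = sg k ⟨b, u.swap⟩)

private lemma exists24 {r s : L2 (gt k)} (h : cl k r = cl k s) (hne : r ≠ s) :
    ∃ (b : B) (u v : (k b).Ind), Main (k b) u ∧ Main (k b) v ∧ u ≠ v ∧ Pr24 r s b u v := by
  classical
  obtain ⟨b, x, rfl⟩ := sg_surj k r
  obtain ⟨c, y, rfl⟩ := sg_surj k s
  rw [cl_sg, cl_sg] at h
  unfold tcl at h
  simp only at h
  by_cases hx : Main (k b) x
  · rw [if_pos hx] at h
    by_cases hy : Main (k c) y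
    · rw [if_pos hy] at h
      have hbc : b = c := congrArg Prod.fst (Sum.inr.inj h)
      subst hbc
      refine ⟨b, x, y, hx, hy, ?_, Or.inl ⟨rfl, rfl⟩⟩
      rintro rfl
      exact hne rfl
    · rw [if_neg hy] at h
      by_cases hy' : Main (k c) y.swap
      · rw [if_pos hy'] at h
        have := congrArg Prod.snd (Sum.inr.inj h)
        simp at this
      · rw [if_neg hy'] at h
        exact (Sum.inr_ne_inl h).elim
  · rw [if_neg hx] at h
    by_cases hx' : Main (k b) x.swap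
    · rw [if_pos hx'] at h
      by_cases hy : Main (k c) y
      · rw [if_pos hy] at h
        have := congrArg Prod.snd (Sum.inr.inj h)
        simp at this
      · rw [if_neg hy] at h
        by_cases hy' : Main (k c) y.swap
        · rw [if_pos hy'] at h
          have hbc : b = c := congrArg Prod.fst (Sum.inr.inj h)
          subst hbc
          refine ⟨b, y.swap, x.swap, hy', hx', ?_, Or.inr ⟨?_, ?_⟩⟩
          · intro h1
            apply hne
            rw [← Sum.swap_swap x, ← Sum.swap_swap y, h1]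
          · rw [Sum.swap_swap]
          · rw [Sum.swap_swap]
        · rw [if_neg hy'] at h
          exact (Sum.inr_ne_inl h).elim
    · rw [if_neg hx'] at h
      by_cases hy : Main (k c) y
      · rw [if_pos hy] at h
        exact (Sum.inl_ne_inr h).elim
      · rw [if_neg hy] at h
        by_cases hy' : Main (k c) y.swap
        · rw [if_pos hy'] at h
          exact (Sum.inl_ne_inr h).elim
        · rw [if_neg hy'] at h
          exfalso
          apply hne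
          rw [Sum.inl.inj h]

private lemma mul24 {ev : Ind k → ℂ} {q : ℂ}
    (hmul : ∀ b i, ev ⟨b, Sum.inl i⟩ * ev ⟨b, Sum.inr i⟩ = q) (b : B) (x : (k b).Ind) :
    ev ⟨b, x.swap⟩ * ev ⟨b, x⟩ = q := by
  rcases x with i | i
  · rw [Sum.swap_inl, mul_comm]
    exact hmul b i
  · rw [Sum.swap_inr]
    exact hmul b i

private lemma ratio24 {ev : Ind k → ℂ} {q : ℂ}
    (hmul : ∀ b i, ev ⟨b, Sum.inl i⟩ * ev ⟨b, Sum.inr i⟩ = q) {r s : L2 (gt k)} {b : B}
    {u v : (k b).Ind} (h : Pr24 r s b u v) :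
    ev ((sg k).symm r) * ev ⟨b, v⟩ = ev ((sg k).symm s) * ev ⟨b, u⟩ := by
  rcases h with ⟨h1, h2⟩ | ⟨h1, h2⟩
  · rw [h1, h2, Equiv.symm_apply_apply, Equiv.symm_apply_apply, mul_comm]
  · rw [h1, h2, Equiv.symm_apply_apply, Equiv.symm_apply_apply, mul24 hmul, mul24 hmul]

private lemma same24 {r s r' s' : L2 (gt k)} {b : B} {u v : (k b).Ind} (h : Pr24 r s b u v)
    (h' : Pr24 r' s' b u v) : (r' = r ∧ s' = s) ∨ (r' = s.swap ∧ s' = r.swap) := by
  rcases h with ⟨h1, h2⟩ | ⟨h1, h2⟩ <;> rcases h' with ⟨h3, h4⟩ | ⟨h3, h4⟩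
  · exact Or.inl ⟨h3.trans h1.symm, h4.trans h2.symm⟩
  · exact Or.inr ⟨by rw [h3, h2, sg_swap], by rw [h4, h1, sg_swap]⟩
  · refine Or.inr ⟨?_, ?_⟩
    · rw [h3, h2, sg_swap, Sum.swap_swap]
    · rw [h4, h1, sg_swap, Sum.swap_swap]
  · exact Or.inl ⟨h3.trans h1.symm, h4.trans h2.symm⟩

private lemma flip24 {r s : L2 (gt k)} {b : B} {u v : (k b).Ind} (h : Pr24 r s b v.swap u.swap) :
    Pr24 r s b u v := by
  rcases h with ⟨h1, h2⟩ | ⟨h1, h2⟩
  · exact Or.inr ⟨h1, h2⟩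
  · rw [Sum.swap_swap] at h1 h2
    exact Or.inl ⟨h1, h2⟩

theorem sidon_of_generic {ev : Ind k → ℂ} {q : ℂ} (hq : q ≠ 0)
    (hmul : ∀ b i, ev ⟨b, Sum.inl i⟩ * ev ⟨b, Sum.inr i⟩ = q)
    (hnd : ∀ b x y, Main (k b) x → Main (k b) y → ev ⟨b, x⟩ = ev ⟨b, y⟩ → x = y)
    (h4 : ∀ a b x y u v, Main (k a) x → Main (k a) y → Main (k b) u → Main (k b) v →
      ∀ n : ℕ, 0 < n → (ev ⟨a, x⟩ * ev ⟨b, u⟩) ^ n = (ev ⟨a, y⟩ * ev ⟨b, v⟩) ^ n →
        (ev ⟨a, x⟩ = ev ⟨a, y⟩ ∧ ev ⟨b, u⟩ = ev ⟨b, v⟩) ∨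
        (a = b ∧ ev ⟨a, x⟩ = ev ⟨b, v⟩ ∧ ev ⟨b, u⟩ = ev ⟨a, y⟩) ∨
        (a = b ∧ IsSp (k a) ∧ ev ⟨a, x⟩ * ev ⟨b, u⟩ = q ∧ ev ⟨a, y⟩ * ev ⟨b, v⟩ = q)) :
    Sidon (cl k) (fun r => ev ((sg k).symm r)) := by
  have hne : ∀ z : Ind k, ev z ≠ 0 := by
    rintro ⟨b, x⟩ h0
    have h1 := mul24 hmul b x
    rw [h0, mul_zero] at h1
    exact hq h1.symm
  intro r s r' s' hcl hcl' hrs hrs' n hn hrel
  obtain ⟨b, u, v, hu, hv, huv, hP⟩ := exists24 hcl hrs
  obtain ⟨a, x, y, hx, hy, hxy, hP'⟩ := exists24 hcl' hrs'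
  have e1 := ratio24 hmul hP
  have e2 := ratio24 hmul hP'
  have key : (ev ⟨a, x⟩ * ev ⟨b, v⟩) ^ n = (ev ⟨a, y⟩ * ev ⟨b, u⟩) ^ n := by
    have h1 : (ev ((sg k).symm s') * ev ((sg k).symm r)) ^ n ≠ 0 :=
      pow_ne_zero n (mul_ne_zero (hne _) (hne _))
    apply mul_right_cancel₀ h1
    have h2 : (ev ⟨a, x⟩ * ev ⟨b, v⟩) ^ n * (ev ((sg k).symm s') * ev ((sg k).symm r)) ^ n =
        ((ev ((sg k).symm s') * ev ⟨a, x⟩) * (ev ((sg k).symm r) * ev ⟨b, v⟩)) ^ n := by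
      rw [← mul_pow]
      congr 1
      ring
    have h3 : (ev ⟨a, y⟩ * ev ⟨b, u⟩) ^ n * (ev ((sg k).symm s') * ev ((sg k).symm r)) ^ n =
        (ev ⟨a, y⟩ * ev ⟨b, u⟩) ^ n * (ev ((sg k).symm r') * ev ((sg k).symm s)) ^ n := by
      rw [← hrel]
    rw [h2, h3, ← e2, e1, ← mul_pow]
    congr 1
    ring
  rcases h4 a b x y v u hx hy hv hu n hn key with h | h | h
  · exact (hxy (hnd a x y hx hy h.1)).elim
  · obtain ⟨hab, h5, h6⟩ := h
    subst hab
    have hxu := hnd a x u hx hu h5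
    have hvy := hnd a v y hv hy h6
    subst hxu
    subst hvy
    exact same24 hP hP'
  · obtain ⟨hab, hsp, h5, h6⟩ := h
    subst hab
    have h7 : ev ⟨a, x⟩ = ev ⟨a, v.swap⟩ := by
      apply mul_right_cancel₀ (hne ⟨a, v⟩)
      rw [h5, mul24 hmul]
    have h8 : ev ⟨a, y⟩ = ev ⟨a, u.swap⟩ := by
      apply mul_right_cancel₀ (hne ⟨a, u⟩)
      rw [h6, mul24 hmul]
    have hxv := hnd a x v.swap hx (main_of_isSp hsp _) h7
    have hyu := hnd a y u.swap hy (main_of_isSp hsp _) h8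
    subst hxv
    subst hyu
    exact same24 hP (flip24 hP')

end Pool.Agent.Helper71.PO
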