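import Pool.Agent.Helper71.PO.Base

/-!
# Logarithms with prescribed values at the torus letters (block PO-LOG)

`exists_log_rel`: as `exists_log` in `Helper71/OP/Log.lean`, but with relations: let
`f : (J → ℤ) →+ Additive ℂˣ`, `k ↦ ∏ a j ^ k j` and `g : (J → ℤ) →+ ℂ`, `k ↦ ∑ k j * v j`; by
hypothesis `g` vanishes on the kernel of `f`, so it factors through `(J → ℤ) ⧸ f.ker`
(`QuotientAddGroup.lift`), on which `f` is injective (`QuotientAddGroup.kerLift_injective`); extend
by `Module.Baer.extension_property_addMonoidHom`.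

`exists_log_torus`: `J` is the set of the pairs `(b, i)`, `i ∈ (k b).tor`, and one more element
for `q` (an `Option` of a sigma/subtype); the values are `t (sg ⟨b, inl i⟩)` and `c`.  A relation
gives by `htor` that for each block `n b = 0` or `k b = weil p univ` with `n b` constant, and then
`∏ i, lam ⟨b, inl i⟩ ^ n b i = q ^ (p * n b)` by `hprod` and `∑ i, n b i * t (sg ⟨b, inl i⟩) = n b * (p * c)`
by `ht`.  So the relation reads `q ^ (∑ b, p_b n_b + m) = 1`, so the exponent is `0` as `1 < ‖q‖`, and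
`∑ ... = c * (∑ b, p_b n_b + m) = 0`.
The log `ψ` satisfies `TT k c (ψ ∘ lam)`: `ψ (lam (inl j)) + ψ (lam (inr j)) = ψ q = c`, and
`∑ i, ψ (lam ⟨b, inl i⟩) = ψ (q ^ p) = p * c` (`IsLog.prod`; `ψ (q ^ p) = p * ψ q` by induction).
-/

set_option autoImplicit false

namespace Pool.Agent.Helper71.PO

open Pool.Agent.Helper48.GC8 Pool.Agent.Helper48.PW Pool.Agent.Helper71.OP

theorem exists_log_rel {J : Type} [Fintype J] (a : J → ℂ) (ha : ∀ j, a j ≠ 0) (v : J → ℂ)
    (hrel : ∀ k : J → ℤ, ∏ j, a j ^ k j = 1 → ∑ j, (k j : ℂ) * v j = 0) :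
    ∃ ψ, IsLog ψ ∧ ∀ j, ψ (a j) = v j := by
  classical
  let u : J → ℂˣ := fun j => Units.mk0 (a j) (ha j)
  let f : (J → ℤ) →+ Additive ℂˣ :=
    { toFun := fun k => Additive.ofMul (∏ j, u j ^ k j)
      map_zero' := by simp
      map_add' := fun k l => by
        rw [← ofMul_mul]
        congr 1
        rw [← Finset.prod_mul_distrib]
        refine Finset.prod_congr rfl fun j _ => ?_
        rw [Pi.add_apply, zpow_add] }
  let g : (J → ℤ) →+ ℂ :=
    { toFun := fun k => ∑ j, (k j : ℂ) * v j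
      map_zero' := by simp
      map_add' := fun k l => by
        rw [← Finset.sum_add_distrib]
        refine Finset.sum_congr rfl fun j _ => ?_
        rw [Pi.add_apply, Int.cast_add, add_mul] }
  have hg : ∀ k ∈ f.ker, g k = 0 := by
    intro k hk
    apply hrel k
    rw [AddMonoidHom.mem_ker] at hk
    have h1 : (∏ j, u j ^ k j : ℂˣ) = 1 := hk
    have h2 := congrArg (Units.val) h1
    simpa [u] using h2
  have hbaer : Module.Baer ℤ ℂ := Module.Baer.of_divisible ℂ
  obtain ⟨h, hh⟩ := hbaer.extension_property_addMonoidHom (QuotientAddGroup.kerLift f)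
    (QuotientAddGroup.kerLift_injective f) (QuotientAddGroup.lift f.ker g hg)
  refine ⟨fun x => if hx : x ≠ 0 then h (Additive.ofMul (Units.mk0 x hx)) else 0, ?_, ?_⟩
  · intro x y hx hy
    simp only
    rw [dif_pos (mul_ne_zero hx hy), dif_pos hx, dif_pos hy, ← map_add, ← ofMul_mul]
    congr 2
    ext
    simp
  · intro j
    simp only
    rw [dif_pos (ha j)]
    have h1 := DFunLike.congr_fun hh ((Pi.single j (1 : ℤ) : J → ℤ) : (J → ℤ) ⧸ f.ker)
    have h2 : QuotientAddGroup.kerLift f ((Pi.single j (1 : ℤ) : J → ℤ) : (J → ℤ) ⧸ f.ker) =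
        Additive.ofMul (Units.mk0 (a j) (ha j)) := by
      rw [QuotientAddGroup.kerLift_mk]
      change Additive.ofMul (∏ i, u i ^ (Pi.single j (1 : ℤ) : J → ℤ) i) = _
      congr 1
      rw [Finset.prod_eq_single j]
      · simp [u]
      · intro b _ hb
        rw [Pi.single_eq_of_ne hb, zpow_zero]
      · intro hn
        exact absurd (Finset.mem_univ j) hn
    have h3 : QuotientAddGroup.lift f.ker g hg ((Pi.single j (1 : ℤ) : J → ℤ) : (J → ℤ) ⧸ f.ker) = v j := by
      rw [QuotientAddGroup.lift_mk]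
      change ∑ i, (((Pi.single j (1 : ℤ) : J → ℤ) i : ℤ) : ℂ) * v i = _
      rw [Finset.sum_eq_single j]
      · simp
      · intro b _ hb
        rw [Pi.single_eq_of_ne hb, Int.cast_zero, zero_mul]
      · intro hn
        exact absurd (Finset.mem_univ j) hn
    rw [AddMonoidHom.comp_apply, h2, h3] at h1
    exact h1

private lemma log_pow15 {ψ : ℂ → ℂ} (h : IsLog ψ) {x : ℂ} (hx : x ≠ 0) (p : ℕ) :
    ψ (x ^ p) = p * ψ x := by
  induction p with
  | zero => rw [pow_zero, h.one, Nat.cast_zero, zero_mul]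
  | succ p ih =>
    rw [pow_succ, h _ _ (pow_ne_zero _ hx) hx, ih]
    push_cast
    ring

private lemma rel15 (K : Kind) {q c : ℂ} (hq : q ≠ 0) {e t : K.Ind → ℂ} (he : ProdRel K q e)
    (ht : SumRel K c t) (n : Fin K.dim → ℤ)
    (h : (∀ i, n i = 0) ∨ (IsFull K ∧ ∀ i j, n i = n j)) :
    ∃ r : ℤ, ∏ i, e (Sum.inl i) ^ n i = q ^ r ∧ ∑ i, (n i : ℂ) * t (Sum.inl i) = c * r := by
  rcases h with h | ⟨h1, h2⟩
  · refine ⟨0, ?_, ?_⟩
    · simp [h]
    · simp [h]
  · cases K with
    | sp g => exact h1.elim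
    | cm => exact h1.elim
    | weil p tor =>
      obtain ⟨n0, hn0⟩ : ∃ n0 : ℤ, ∀ i, n i = n0 := by
        by_cases hne : Nonempty (Fin (2 * p))
        · obtain ⟨i0⟩ := hne
          exact ⟨n i0, fun i => h2 i i0⟩
        · exact ⟨0, fun i => (hne ⟨i⟩).elim⟩
      have h3 : ∏ i : Fin (2 * p), e (Sum.inl i) = q ^ p := he
      have h4 : ∑ i : Fin (2 * p), t (Sum.inl i) = p * c := ht
      refine ⟨p * n0, ?_, ?_⟩
      · have e1 : ∏ i : Fin (2 * p), e (Sum.inl i) ^ n i = (∏ i : Fin (2 * p), e (Sum.inl i)) ^ n0 := by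
          rw [← Finset.prod_zpow]
          exact Finset.prod_congr rfl fun i _ => by rw [hn0]
        refine e1.trans ?_
        rw [h3, zpow_mul, zpow_natCast]
      · have e1 : ∑ i : Fin (2 * p), (n i : ℂ) * t (Sum.inl i) = n0 * ∑ i : Fin (2 * p), t (Sum.inl i) := by
          rw [Finset.mul_sum]
          exact Finset.sum_congr rfl fun i _ => by rw [hn0]
        refine e1.trans ?_
        rw [h4]
        push_cast
        ring

private lemma sumRel15 (K : Kind) {q c : ℂ} (hq : q ≠ 0) {ψ : ℂ → ℂ} (h : IsLog ψ) (hc : ψ q = c)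
    {e : K.Ind → ℂ} (he0 : ∀ x, e x ≠ 0) (he : ProdRel K q e) : SumRel K c (fun x => ψ (e x)) := by
  cases K with
  | sp g => trivial
  | cm => trivial
  | weil p tor =>
    have h3 : ∏ i : Fin (2 * p), e (Sum.inl i) = q ^ p := he
    change ∑ i : Fin (2 * p), ψ (e (Sum.inl i)) = p * c
    rw [← h.prod Finset.univ (fun i : Fin (2 * p) => e (Sum.inl i)) (fun i _ => he0 _), h3,
      log_pow15 h hq, hc]

variable {B : Type} [Fintype B] [DecidableEq B] {k : B → Kind}

theorem exists_log_torus {lam : L2 (gt k) → ℂ} {q : ℂ} (hq : 1 < ‖q‖)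
    (hlam : ∀ i, lam (Sum.inl i) * lam (Sum.inr i) = q)
    (hprod : ∀ b, ProdRel (k b) q (fun x => lam (sg k ⟨b, x⟩)))
    (htor : ∀ (n : ∀ b, Fin (k b).dim → ℤ) (m : ℤ), (∀ b, ∀ i ∉ (k b).tor, n b i = 0) →
      (∏ b, ∏ i, lam (sg k ⟨b, Sum.inl i⟩) ^ n b i) * q ^ m = 1 →
        ∀ b, (∀ i, n b i = 0) ∨ (IsFull (k b) ∧ ∀ i j, n b i = n b j))
    {c : ℂ} {t : L2 (gt k) → ℂ} (ht : TT k c t) :
    ∃ ψ, IsLog ψ ∧ TT k c (fun r => ψ (lam r)) ∧
      ∀ b, ∀ i ∈ (k b).tor, ψ (lam (sg k ⟨b, Sum.inl i⟩)) = t (sg k ⟨b, Sum.inl i⟩) := by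
  classical
  have hq0 : q ≠ 0 := by
    rintro rfl
    rw [norm_zero] at hq
    linarith
  have hl0 : ∀ r, lam r ≠ 0 := by
    intro r hr
    rcases r with i | i
    · have h1 := hlam i
      rw [hr, zero_mul] at h1
      exact hq0 h1.symm
    · have h1 := hlam i
      rw [hr, mul_zero] at h1
      exact hq0 h1.symm
  obtain ⟨a, haDef⟩ : ∃ a : Option (Σ b, Fin (k b).dim) → ℂ, a = fun x =>
      match x with
      | none => q
      | some y => if y.2 ∈ (k y.1).tor then lam (sg k ⟨y.1, Sum.inl y.2⟩) else 1 := ⟨_, rfl⟩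
  obtain ⟨v, hvDef⟩ : ∃ v : Option (Σ b, Fin (k b).dim) → ℂ, v = fun x =>
      match x with
      | none => c
      | some y => if y.2 ∈ (k y.1).tor then t (sg k ⟨y.1, Sum.inl y.2⟩) else 0 := ⟨_, rfl⟩
  have ha0 : ∀ x, a x ≠ 0 := by
    intro x
    rw [haDef]
    rcases x with _ | y
    · exact hq0
    · simp only
      split_ifs
      · exact hl0 _
      · exact one_ne_zero
  obtain ⟨ψ, hψ, hψv⟩ := exists_log_rel a ha0 v (by
    intro m hm
    obtain ⟨n, hn⟩ : ∃ n : ∀ b, Fin (k b).dim → ℤ, n = fun b i =>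
        if i ∈ (k b).tor then m (some ⟨b, i⟩) else 0 := ⟨_, rfl⟩
    have e1 : ∏ j, a j ^ m j = (∏ b, ∏ i, lam (sg k ⟨b, Sum.inl i⟩) ^ n b i) * q ^ m none := by
      rw [Fintype.prod_option, mul_comm]
      congr 1
      · rw [← Finset.univ_sigma_univ, Finset.prod_sigma]
        refine Finset.prod_congr rfl fun b _ => Finset.prod_congr rfl fun i _ => ?_
        rw [haDef, hn]
        simp only
        split_ifs
        · rfl
        · rw [one_zpow, zpow_zero]
      · rw [haDef]
    have e2 : ∑ j, (m j : ℂ) * v j = (∑ b, ∑ i, (n b i : ℂ) * t (sg k ⟨b, Sum.inl i⟩)) + m none * c := by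
      rw [Fintype.sum_option, add_comm]
      congr 1
      · rw [← Finset.univ_sigma_univ, Finset.sum_sigma]
        refine Finset.sum_congr rfl fun b _ => Finset.sum_congr rfl fun i _ => ?_
        rw [hvDef, hn]
        simp only
        split_ifs
        · rfl
        · rw [mul_zero, Int.cast_zero, zero_mul]
      · rw [hvDef]
    rw [e1] at hm
    have h1 := htor n (m none) (fun b i hi => by rw [hn]; simp only; rw [if_neg hi]) hm
    choose r hr1 hr2 using fun b => rel15 (k b) hq0 (hprod b) (ht.2 b) (n b) (h1 b)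
    have e3 : (∏ b, ∏ i, lam (sg k ⟨b, Sum.inl i⟩) ^ n b i) = q ^ (∑ b, r b) := by
      rw [Finset.prod_congr rfl fun b _ => hr1 b]
      clear h1 hr1 hr2 e1 e2 hm
      generalize (Finset.univ : Finset B) = s
      induction s using Finset.induction_on with
      | empty => simp
      | insert x s hx ih => rw [Finset.prod_insert hx, Finset.sum_insert hx, ih, zpow_add₀ hq0]
    rw [e3, ← zpow_add₀ hq0] at hm
    have e4 : ∑ b, r b + m none = 0 := by
      have h2 := congrArg norm hm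
      rw [norm_zpow, norm_one] at h2
      have h3 := zpow_right_injective₀ (show (0 : ℝ) < ‖q‖ by linarith) hq.ne'
      apply h3
      simp only
      rw [h2, zpow_zero]
    rw [e2, Finset.sum_congr rfl fun b _ => hr2 b, ← Finset.mul_sum]
    have e5 : ((∑ b, r b + m none : ℤ) : ℂ) = 0 := by rw [e4, Int.cast_zero]
    push_cast at e5
    linear_combination c * e5)
  have hψq : ψ q = c := by
    have h1 := hψv none
    rw [haDef, hvDef] at h1
    exact h1
  refine ⟨ψ, hψ, ⟨?_, ?_⟩, ?_⟩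
  · intro i
    simp only
    rw [← hψ _ _ (hl0 _) (hl0 _), hlam, hψq]
  · intro b
    exact sumRel15 (k b) hq0 hψ hψq (fun x => hl0 _) (hprod b)
  · intro b i hi
    have h1 := hψv (some ⟨b, i⟩)
    rw [haDef, hvDef] at h1
    simp only at h1
    rw [if_pos hi, if_pos hi] at h1
    exact h1

end Pool.Agent.Helper71.PO
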