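import Pool.Agent.Helper71.PO.Stab
import Pool.Agent.Helper71.PO.TorLog
import Pool.Agent.Helper71.PO.Sid
import Pool.Agent.Helper71.PO.Roots
import Pool.Agent.Helper71.PO.Mult
import Pool.Agent.Helper48.PW.Fin

/-!
# PO: Zariski density from one generic Frobenius (assembly by helper71)
-/

set_option autoImplicit false

namespace Pool.Agent.Helper71.PO

open Pool.Agent.Helper48.GC8 Pool.Agent.Helper48.PW Pool.Agent.Helper71.OP

variable {B : Type} [Fintype B] [DecidableEq B] {k : B → Kind}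

theorem dense_of_onePlace (𝓕 : Set (ℕ × Matrix (Ind k) (Ind k) ℂ))
    (h𝓕 : ∀ z ∈ 𝓕, IsFrob z.1 z.2 ∧ InGroup k (z.1 : ℂ) z.2)
    (hirr : ∀ b, ∀ Q : Set (Submodule ℂ (Ind k → ℂ)), Q.Finite →
      (∀ P ∈ Q, P ≠ ⊥ ∧ P < mainSpace k b) →
      (∀ z ∈ 𝓕, ∀ P ∈ Q, P.map (Matrix.toLin' z.2) ∈ Q) → Q = ∅)
    {z : ℕ × Matrix (Ind k) (Ind k) ℂ} (hz : z ∈ 𝓕)
    (hnd : ∀ b, (mainPoly k b z.2).roots.Nodup)
    (h4 : ∀ a b, ∀ α ∈ (mainPoly k a z.2).roots, ∀ γ ∈ (mainPoly k a z.2).roots,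
      ∀ β ∈ (mainPoly k b z.2).roots, ∀ δ ∈ (mainPoly k b z.2).roots, ∀ n : ℕ, 0 < n →
        (α * β) ^ n = (γ * δ) ^ n → (α = γ ∧ β = δ) ∨ (a = b ∧ α = δ ∧ β = γ) ∨
          (a = b ∧ IsSp (k a) ∧ α * β = z.1 ∧ γ * δ = z.1))
    (htor : ∀ (n : ∀ b, Fin (k b).dim → ℤ) (m : ℤ), (∀ b, ∀ i ∉ (k b).tor, n b i = 0) →
      (∏ b, ∏ i, z.2 ⟨b, Sum.inl i⟩ ⟨b, Sum.inl i⟩ ^ n b i) * (z.1 : ℂ) ^ m = 1 →
        ∀ b, (∀ i, n b i = 0) ∨ (IsFull (k b) ∧ ∀ i j, n b i = n b j))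
    (f : MvPolynomial (Option (Ind k × Ind k)) ℂ)
    (hf : ∀ z ∈ Submonoid.closure 𝓕,
      MvPolynomial.eval (fun o => o.elim (z.1 : ℂ) (fun p => z.2 p.1 p.2)) f = 0) :
    ∀ (c : ℂ) (M : Matrix (Ind k) (Ind k) ℂ), InGroup k c M →
      MvPolynomial.eval (fun o => o.elim c (fun p => M p.1 p.2)) f = 0 := by
  obtain ⟨hF, hG⟩ := h𝓕 z hz
  have hq : 1 < ‖(z.1 : ℂ)‖ := by
    have h2 := hF.two_le
    rw [Complex.norm_natCast]
    exact_mod_cast (by omega : 1 < z.1)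
  have hq0 : (z.1 : ℂ) ≠ 0 := hG.1
  -- the eigenbasis
  obtain ⟨h, h', ev, hh, hinv, heig, hmul, htl⟩ : ∃ (h h' : Matrix (Ind k) (Ind k) ℂ)
      (ev : Ind k → ℂ), InGroup k 1 h ∧ h' * h = 1 ∧ z.2 * h = h * Matrix.diagonal ev ∧
      (∀ b i, ev ⟨b, Sum.inl i⟩ * ev ⟨b, Sum.inr i⟩ = z.1) ∧
      ∀ b, ∀ i ∈ (k b).tor, ev ⟨b, Sum.inl i⟩ = z.2 ⟨b, Sum.inl i⟩ ⟨b, Sum.inl i⟩ := by
    obtain ⟨_, X, hX, hM⟩ := hG
    rw [hM] at hF ⊢
    obtain ⟨h, h', δ, h1, h2, h3, h4, h5⟩ := eig_prod (q := z.1) (X := X) fun b =>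
      (k b).exists_eig (hX b) (isFrob_block hF b)
    refine ⟨h, h', fun l => (δ l : ℂ), h1, h2, h3, fun b i => ?_, fun b i hi => ?_⟩
    · have := congrArg (Subtype.val : integralClosure ℤ ℂ → ℂ) (h4 b i)
      simpa using this
    · rw [Matrix.blockDiagonal'_apply_eq]
      exact (h5 b i hi).1
  have hhinv : h * h' = 1 := mul_eq_one_comm.1 hinv
  -- the diagonal matrix of the eigenvalues is in the group
  have hprod : ∀ b, ProdRel (k b) z.1 (fun x => ev ⟨b, x⟩) := by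
    obtain ⟨h'', h1, h2, h3⟩ := inGroup_inv hh
    have h4 : h'' = h' := by
      calc h'' = h' * h * h'' := by rw [hinv, Matrix.one_mul]
        _ = h' := by rw [Matrix.mul_assoc, h1, Matrix.mul_one]
    rw [h4, inv_one] at h3
    have h5 : InGroup k (1 * (z.1 : ℂ) * 1) (h' * z.2 * h) := inGroup_mul (inGroup_mul h3 hG) hh
    rw [one_mul, mul_one, Matrix.mul_assoc, heig, ← Matrix.mul_assoc, hinv, Matrix.one_mul] at h5
    obtain ⟨_, Y, hY, hY2⟩ := h5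
    intro b
    have h6 : Y b = Matrix.diagonal (fun x => ev ⟨b, x⟩) := by
      ext x y
      have h7 := congrFun (congrFun hY2 ⟨b, x⟩) ⟨b, y⟩
      rw [Matrix.blockDiagonal'_apply_eq] at h7
      rw [← h7, Matrix.diagonal_apply, Matrix.diagonal_apply]
      by_cases hxy : x = y
      · subst hxy
        simp
      · rw [if_neg hxy, if_neg]
        intro h8
        exact hxy (eq_of_heq (Sigma.mk.inj h8).2)
    have h7 := hY b
    rw [h6] at h7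
    exact (inG_diag h7).2
  have hR := fun b => roots_mainPoly hh hinv heig b
  have hsid : Sidon (cl k) (fun r => ev ((sg k).symm r)) := by
    refine sidon_of_generic hq0 hmul (fun b => (hR b).2 (hnd b)) ?_
    intro a b x y u v hx hy hu hv n hn heq
    exact h4 a b _ ((hR a).1 x hx) _ ((hR a).1 y hy) _ ((hR b).1 u hu) _ ((hR b).1 v hv) n hn heq
  have hsymm : ∀ x : Ind k, (sg k).symm (sg k x) = x := fun x => (sg k).symm_apply_apply x
  have hlamsg : ∀ i, (fun r => ev ((sg k).symm r)) (Sum.inl i) *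
      (fun r => ev ((sg k).symm r)) (Sum.inr i) = (z.1 : ℂ) := by
    intro j
    obtain ⟨b, i, rfl⟩ := eg_surj k j
    have h1 := hsymm ⟨b, Sum.inl i⟩
    have h2 := hsymm ⟨b, Sum.inr i⟩
    rw [sg_inl] at h1
    rw [sg_inr] at h2
    simp only [h1, h2]
    exact hmul b i
  refine dense_of_stable 𝓕 (fun z hz => (h𝓕 z hz).2) ⟨z, hz, hF.two_le⟩ ?_ f hf
  intro d U hU c X hX
  refine stable_of_generic (Prod.snd '' 𝓕) ?_ ?_ hq0 ⟨z, hz, rfl⟩ hh heig hmul hsid ?_ d U ?_ c X hX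
  · rintro _ ⟨w, hw, rfl⟩
    exact ⟨_, (h𝓕 w hw).2⟩
  · intro b Q h1 h2 h3
    exact hirr b Q h1 h2 fun w hw P hP => h3 _ ⟨w, hw, rfl⟩ P hP
  · intro c t ht
    obtain ⟨ψ, hψ, h1, h2⟩ := exists_log_torus (k := k) (lam := fun r => ev ((sg k).symm r)) hq
      hlamsg (fun b => by simpa only [hsymm] using hprod b) (fun n m hn hrel => by
        refine htor n m hn ?_
        rw [← hrel]
        congr 1
        refine Finset.prod_congr rfl fun b _ => Finset.prod_congr rfl fun i _ => ?_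
        rw [hsymm]
        by_cases hi : i ∈ (k b).tor
        · rw [htl b i hi]
        · rw [hn b i hi, zpow_zero, zpow_zero]) ht
    refine ⟨ψ, hψ, h1, fun b i hi => ?_⟩
    have h3 := h2 b i hi
    rw [hsymm] at h3
    exact h3
  · rintro _ ⟨w, hw, rfl⟩ u hu
    exact hU w hw u hu

end Pool.Agent.Helper71.PO
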