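import Pool.Agent.Helper71.PO.Base
import Pool.Agent.Helper71.OP.Dia2

/-!
# Logarithms of the torus (block PO-EXP)

`exists_exp`: let `e` be a diagonal matrix in the group.  Put `t (inl j) = Complex.log (e (inl j))`,
`c' = Complex.log c`, `t (inr j) = c' - t (inl j)`.  For a block of Weil type
`∑ i, t (inl i) - p * c'` has exponential one, so it is `2 π i` times an integer
(`Complex.exp_eq_one_iff`); if the block is not empty subtract it from `t` at one `inl i₀` of the
block and add it at `inr i₀` (if the block is empty then `p = 0` and there is nothing to do).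
(Choose first for each block a function `Fin (k b).dim → ℂ`: lemma `exists_exp_kind` for one `Kind`.)

`rho_exp_diag`: as in the proof of `diag_of_lie` in `Helper71/OP/Dia2.lean`: `mul_of_sep` with the
set of the one function `x ↦ ∑ k, plv t 0 (x k)` and `φ x = ∏ k, plv e 1 (x k) = exp (∑ k, plv t 0 (x k))`.
-/

set_option autoImplicit false

namespace Pool.Agent.Helper71.PO

open Pool.Agent.Helper48.GC8 Pool.Agent.Helper48.PW Pool.Agent.Helper71.OP

private lemma exp_core_23 {d : ℕ} {c : ℂ} (hc : c ≠ 0) {e : Fin d ⊕ Fin d → ℂ}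
    (h1 : ∀ i, e (Sum.inl i) * e (Sum.inr i) = c) {τ : Fin d → ℂ}
    (hτ : ∀ i, Complex.exp (τ i) = e (Sum.inl i)) (x : Fin d ⊕ Fin d) :
    Complex.exp ((Sum.elim τ (fun i => Complex.log c - τ i) : Fin d ⊕ Fin d → ℂ) x) = e x := by
  rcases x with i | i
  · exact hτ i
  · have hel : e (Sum.inl i) ≠ 0 := fun h => hc (by rw [← h1 i, h, zero_mul])
    change Complex.exp (Complex.log c - τ i) = _
    rw [Complex.exp_sub, Complex.exp_log hc, hτ, div_eq_iff hel, ← h1 i, mul_comm]

lemma exists_exp_kind (k : Kind) {c : ℂ} (hc : c ≠ 0) {e : k.Ind → ℂ}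
    (h1 : ∀ i, e (Sum.inl i) * e (Sum.inr i) = c) (h2 : ProdRel k c e) :
    ∃ t : k.Ind → ℂ, (∀ i, t (Sum.inl i) + t (Sum.inr i) = Complex.log c) ∧
      SumRel k (Complex.log c) t ∧ ∀ x, Complex.exp (t x) = e x := by
  have hel : ∀ i, e (Sum.inl i) ≠ 0 := fun i h => hc (by rw [← h1 i, h, zero_mul])
  suffices h : ∃ τ : Fin k.dim → ℂ, (∀ i, Complex.exp (τ i) = e (Sum.inl i)) ∧
      SumRel k (Complex.log c) (Sum.elim τ (fun i => Complex.log c - τ i)) by
    obtain ⟨τ, hτ, hs⟩ := h
    refine ⟨Sum.elim τ (fun i => Complex.log c - τ i), fun i => ?_, hs, exp_core_23 hc h1 hτ⟩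
    change τ i + (Complex.log c - τ i) = _
    ring
  cases k with
  | sp g => exact ⟨fun i => Complex.log (e (Sum.inl i)), fun i => Complex.exp_log (hel i), trivial⟩
  | cm => exact ⟨fun i => Complex.log (e (Sum.inl i)), fun i => Complex.exp_log (hel i), trivial⟩
  | weil p tor =>
    change ∏ i : Fin (2 * p), e (Sum.inl i) = c ^ p at h2
    rcases Nat.eq_zero_or_pos p with hp | hp
    · subst hp
      refine ⟨fun i => Complex.log (e (Sum.inl i)), fun i => Complex.exp_log (hel i), ?_⟩
      change ∑ i : Fin (2 * 0), _ = ((0 : ℕ) : ℂ) * _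
      rw [Nat.cast_zero, zero_mul]
      exact Finset.sum_eq_zero fun i _ => i.elim0
    · set S : ℂ := ∑ i : Fin (2 * p), Complex.log (e (Sum.inl i)) - p * Complex.log c with hS
      have hexpS : Complex.exp S = 1 := by
        rw [hS, Complex.exp_sub, Complex.exp_sum, Complex.exp_nat_mul, Complex.exp_log hc,
          Finset.prod_congr rfl fun i _ => Complex.exp_log (hel i), h2]
        exact div_self (pow_ne_zero _ hc)
      set i₀ : Fin (2 * p) := ⟨0, by omega⟩ with hi₀
      refine ⟨fun i => Complex.log (e (Sum.inl i)) - (if i = i₀ then S else 0), fun i => ?_, ?_⟩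
      · rw [Complex.exp_sub, Complex.exp_log (hel i)]
        by_cases hi : i = i₀
        · rw [if_pos hi, hexpS, div_one]
        · rw [if_neg hi, Complex.exp_zero, div_one]
      · change ∑ i : Fin (2 * p), (Complex.log (e (Sum.inl i)) - (if i = i₀ then S else 0)) =
          (p : ℂ) * Complex.log c
        rw [Finset.sum_sub_distrib, Finset.sum_ite_eq' Finset.univ i₀ (fun _ => S),
          if_pos (Finset.mem_univ _), hS]
        ring

section Total

variable {B : Type} [Fintype B] [DecidableEq B] {k : B → Kind}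

theorem exists_exp {c : ℂ} (hc : c ≠ 0) {e : L2 (gt k) → ℂ}
    (h1 : ∀ i, e (Sum.inl i) * e (Sum.inr i) = c)
    (h2 : ∀ b, ProdRel (k b) c (fun x => e (sg k ⟨b, x⟩))) :
    ∃ (c' : ℂ) (t : L2 (gt k) → ℂ), TT k c' t ∧ ∀ r, Complex.exp (t r) = e r := by
  have h3 : ∀ b, ∃ t : (k b).Ind → ℂ,
      (∀ i, t (Sum.inl i) + t (Sum.inr i) = Complex.log c) ∧ SumRel (k b) (Complex.log c) t ∧
        ∀ x, Complex.exp (t x) = e (sg k ⟨b, x⟩) := fun b =>
    exists_exp_kind (k b) hc (e := fun x => e (sg k ⟨b, x⟩))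
      (fun i => h1 (eg k ⟨b, i⟩)) (h2 b)
  choose tb t1 t2 t3 using h3
  have hval : ∀ b (x : (k b).Ind),
      tb ((sg k).symm (sg k ⟨b, x⟩)).1 ((sg k).symm (sg k ⟨b, x⟩)).2 = tb b x := by
    intro b x
    rw [Equiv.symm_apply_apply]
  refine ⟨Complex.log c, fun r => tb ((sg k).symm r).1 ((sg k).symm r).2, ⟨fun j => ?_, fun b => ?_⟩,
    fun r => ?_⟩
  · obtain ⟨b, i, rfl⟩ := eg_surj k j
    rw [← sg_inl, ← sg_inr]
    simp only [hval]
    exact t1 b i
  · simp only [hval]
    exact t2 b
  · obtain ⟨b, x, rfl⟩ := sg_surj k r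
    simp only [hval]
    exact t3 b x

end Total

theorem rho_exp_diag {g d : ℕ} {U : Submodule ℂ (Ten (Fin d) (IP g))} {t e : L2 g → ℂ}
    (hte : ∀ r, Complex.exp (t r) = e r) (h : Matrix.diagonal (plv t 0) ∈ LieStab U) :
    ∀ u ∈ U, rho Finset.univ (Matrix.diagonal (plv e 1)) u ∈ U := by
  intro u hu
  have hpl : ∀ p : IP g, plv e 1 p = Complex.exp (plv t 0 p) := by
    rintro (p | p)
    · exact (hte p.1).symm
    · exact Complex.exp_zero.symm
  have key := mul_of_sep (J := Fin d → IP g) U {s | s = fun x => ∑ k, plv t 0 (x k)} ?_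
    (fun x => ∏ k, plv e 1 (x k)) ?_ hu
  · have e1 : rho Finset.univ (Matrix.diagonal (plv e 1)) u = fun x => (∏ k, plv e 1 (x k)) * u x := by
      funext x
      rw [rho_diag]
    rw [e1]
    exact key
  · rintro s rfl v hv
    have h1 := h v hv
    have e1 : der Finset.univ (Matrix.diagonal (plv t 0)) v =
        fun x => (∑ k, plv t 0 (x k)) * v x := by
      funext x
      rw [der_apply, Finset.sum_mul]
      refine Finset.sum_congr rfl fun k _ => ?_
      rw [Finset.sum_eq_single (x k)]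
      · rw [Matrix.diagonal_apply_eq, Function.update_eq_self]
      · intro r _ hr
        rw [Matrix.diagonal_apply_ne _ (Ne.symm hr), zero_mul]
      · simp
    rw [e1] at h1
    exact h1
  · intro x y h
    have h1 : ∑ k, plv t 0 (x k) = ∑ k, plv t 0 (y k) := h _ rfl
    simp only [hpl]
    rw [← Complex.exp_sum, ← Complex.exp_sum, h1]

end Pool.Agent.Helper71.PO
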