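import Pool.Agent.Helper71.PO.Kind

/-!
# Generation of the group of the product (block PO-GENP)

Let `M = blockDiagonal' X`, `X b` in the group of `k b` with multiplier `c`.  Choose `s` with
`s ^ 2 = c` (`IsAlgClosed.exists_pow_nat_eq`); `s⁻¹ • X b` has multiplier one: `(k b).isGrp` (or
`inG_of_diag`) gives that `s⁻¹ • 1` is in the group with multiplier `s⁻¹ ^ 2`, then `inG_mul`.  By
induction over a finite set `S` of blocks, `P (blockDiagonal' (fun b => if b ∈ S then s⁻¹ • X b else 1))`
(`Matrix.blockDiagonal'_mul`; the insertion of `b` multiplies by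
`blockDiagonal' (Function.update 1 b (s⁻¹ • X b))`; for `S = ∅` the matrix is `1 = 1 • 1`).  Finally
`M = (s • 1) * blockDiagonal' (s⁻¹ • X)`.
-/

set_option autoImplicit false

namespace Pool.Agent.Helper71.PO

open Pool.Agent.Helper48.GC8 Pool.Agent.Helper48.PW Pool.Agent.Helper71.OP

variable {B : Type} [Fintype B] [DecidableEq B] {k : B → Kind}

private lemma inG_scal11 (K : Kind) {t : ℂ} (ht : t ≠ 0) :
    K.InG (t ^ 2) (Matrix.diagonal fun _ => t) := by
  refine inG_of_diag (pow_ne_zero 2 ht) (fun i => (sq t).symm) ?_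
  cases K with
  | sp g => trivial
  | cm => trivial
  | weil p tor =>
    change ∏ _i : Fin (2 * p), t = (t ^ 2) ^ p
    rw [Finset.prod_const, Finset.card_univ, Fintype.card_fin, pow_mul]

theorem gen_prod (P : Matrix (Ind k) (Ind k) ℂ → Prop) (hmul : ∀ X Z, P X → P Z → P (X * Z))
    (hscal : ∀ s : ℂ, s ≠ 0 → P (s • 1))
    (hb : ∀ (b : B) (Y : Matrix (k b).Ind (k b).Ind ℂ), (k b).InG 1 Y →
      P (Matrix.blockDiagonal' (Function.update (1 : ∀ a, Matrix (k a).Ind (k a).Ind ℂ) b Y))) :
    ∀ (c : ℂ) (M : Matrix (Ind k) (Ind k) ℂ), InGroup k c M → P M := by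
  rintro c M ⟨hc, X, hX, rfl⟩
  obtain ⟨s, hs⟩ := IsAlgClosed.exists_pow_nat_eq c (n := 2) (by norm_num)
  have hs0 : s ≠ 0 := by
    rintro rfl
    exact hc (by rw [← hs]; norm_num)
  have hY : ∀ b, (k b).InG 1 (s⁻¹ • X b) := by
    intro b
    have h1 := inG_mul (inG_scal11 (k b) (inv_ne_zero hs0)) (hX b)
    have h2 : s⁻¹ ^ 2 * c = 1 := by rw [← hs, ← mul_pow, inv_mul_cancel₀ hs0, one_pow]
    have h3 : Matrix.diagonal (fun _ : (k b).Ind => s⁻¹) * X b = s⁻¹ • X b := by
      rw [← Matrix.smul_eq_diagonal_mul]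
    rw [h2, h3] at h1
    exact h1
  have key : ∀ S : Finset B, P (Matrix.blockDiagonal' fun b => if b ∈ S then s⁻¹ • X b else 1) := by
    intro S
    induction S using Finset.induction_on with
    | empty =>
      have h1 : (Matrix.blockDiagonal' fun b => if b ∈ (∅ : Finset B) then s⁻¹ • X b else 1) =
          (1 : ℂ) • (1 : Matrix (Ind k) (Ind k) ℂ) := by
        rw [one_smul]
        simp only [Finset.notMem_empty, if_false]
        exact Matrix.blockDiagonal'_one
      rw [h1]
      exact hscal 1 one_ne_zero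
    | insert a S ha ih =>
      have h1 : (Matrix.blockDiagonal' fun b => if b ∈ insert a S then s⁻¹ • X b else 1) =
          Matrix.blockDiagonal' (Function.update (1 : ∀ a, Matrix (k a).Ind (k a).Ind ℂ) a (s⁻¹ • X a)) *
            Matrix.blockDiagonal' fun b => if b ∈ S then s⁻¹ • X b else 1 := by
        rw [← Matrix.blockDiagonal'_mul]
        congr 1
        funext b
        by_cases hb' : b = a
        · subst hb'
          rw [if_pos (Finset.mem_insert_self _ _), if_neg ha, Function.update_self, mul_one]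
        · rw [Function.update_of_ne hb', Pi.one_apply, one_mul]
          simp only [Finset.mem_insert, hb', false_or]
      rw [h1]
      exact hmul _ _ (hb a _ (hY a)) ih
  have hfin : Matrix.blockDiagonal' X = (s • (1 : Matrix (Ind k) (Ind k) ℂ)) *
      Matrix.blockDiagonal' fun b => if b ∈ (Finset.univ : Finset B) then s⁻¹ • X b else 1 := by
    rw [smul_mul_assoc, one_mul, ← Matrix.blockDiagonal'_smul]
    congr 1
    funext b
    simp only [Finset.mem_univ, if_true, Pi.smul_apply]
    rw [smul_smul, mul_inv_cancel₀ hs0, one_smul]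
  rw [hfin]
  exact hmul _ _ (hscal s hs0) (key Finset.univ)

end Pool.Agent.Helper71.PO
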