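import Pool.Agent.Helper71.OP.Gen
import Pool.Agent.Helper71.OP.Tan

/-!
# Generation of the symplectic group (block PO-GENSP)

From `gen` (`Helper71/OP/Gen.lean`, with one block: `κ = Unit`, `tor = ∅`), which is the same for
all similitudes.  Apply it with the predicate
`P' X := ∃ c, c ≠ 0 ∧ Xᵀ J X = c J ∧ ∀ s, s ^ 2 = c → P (s⁻¹ • X)`.
`P'` is multiplicative: for `X`, `Z` with multipliers `c`, `c'` and `s ^ 2 = c c'` choose `s₁` with
`s₁ ^ 2 = c` (`IsAlgClosed.exists_pow_nat_eq`, or `Complex.cpow`), `s₂ = s / s₁`; then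
`s⁻¹ • (X Z) = (s₁⁻¹ • X) (s₂⁻¹ • Z)`.  Transvections: `s = 1` or `s = -1`, and
`s⁻¹ • (1 + a • tv v) = diagonal (fun _ => s⁻¹) * (1 + a • tv v)`; they are symplectic (`tv_form`,
`tv_sq` in `Helper71/OP/Tan.lean`).  Diagonal matrices: `s⁻¹ • diagonal d` has multiplier `1`.
For the conclusion take `c = 1`, `s = 1`.
-/

set_option autoImplicit false

namespace Pool.Agent.Helper71.PO

open Pool.Agent.Helper48.GC8 Pool.Agent.Helper60.GC9 Pool.Agent.Helper71.OP

private lemma form_mul97 {g : ℕ} {X Z : Matrix (L2 g) (L2 g) ℂ} {c c' : ℂ}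
    (hX : X.transpose * Matrix.J (Fin g) ℂ * X = c • Matrix.J (Fin g) ℂ)
    (hZ : Z.transpose * Matrix.J (Fin g) ℂ * Z = c' • Matrix.J (Fin g) ℂ) :
    (X * Z).transpose * Matrix.J (Fin g) ℂ * (X * Z) = (c * c') • Matrix.J (Fin g) ℂ := by
  rw [Matrix.transpose_mul]
  calc Z.transpose * X.transpose * Matrix.J (Fin g) ℂ * (X * Z)
      = Z.transpose * (X.transpose * Matrix.J (Fin g) ℂ * X) * Z := by
        simp only [Matrix.mul_assoc]
    _ = (c * c') • Matrix.J (Fin g) ℂ := by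
        rw [hX, Matrix.mul_smul, Matrix.smul_mul, hZ, smul_smul]

private lemma form_tv97 {g : ℕ} (v : L2 g → ℂ) (a : ℂ) :
    (1 + a • tv v).transpose * Matrix.J (Fin g) ℂ * (1 + a • tv v) =
      (1 : ℂ) • Matrix.J (Fin g) ℂ := by
  have h1 : (tv v).transpose * Matrix.J (Fin g) ℂ = -(Matrix.J (Fin g) ℂ * tv v) :=
    eq_neg_of_add_eq_zero_left (tv_form v)
  have h2 := tv_sq v a
  rw [Matrix.transpose_add, Matrix.transpose_one, Matrix.transpose_smul]
  have h3 : (1 + a • (tv v).transpose) * Matrix.J (Fin g) ℂ =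
      Matrix.J (Fin g) ℂ * (1 - a • tv v) := by
    rw [Matrix.add_mul, Matrix.one_mul, Matrix.smul_mul, h1, Matrix.mul_sub, Matrix.mul_one,
      Matrix.mul_smul, smul_neg, sub_eq_add_neg]
  rw [h3, Matrix.mul_assoc]
  have h4 : (1 - a • tv v) * (1 + a • tv v) = 1 := by
    rw [Matrix.sub_mul, Matrix.one_mul, Matrix.mul_add, Matrix.mul_one, h2, add_zero,
      add_sub_cancel_right]
  rw [h4, Matrix.mul_one, one_smul]

theorem gen_sp {g : ℕ} (P : Matrix (L2 g) (L2 g) ℂ → Prop) (hmul : ∀ X Z, P X → P Z → P (X * Z))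
    (htv : ∀ (v : L2 g → ℂ) (a : ℂ), P (1 + a • tv v))
    (hdiag : ∀ e : L2 g → ℂ, (∀ i, e (Sum.inl i) * e (Sum.inr i) = 1) → P (Matrix.diagonal e)) :
    ∀ X : Matrix (L2 g) (L2 g) ℂ, X.transpose * Matrix.J (Fin g) ℂ * X = Matrix.J (Fin g) ℂ →
      P X := by
  intro X hX
  have hsm : ∀ (s : ℂ) (Y : Matrix (L2 g) (L2 g) ℂ), s • Y = Matrix.diagonal (fun _ => s) * Y := by
    intro s Y
    rw [← Matrix.smul_eq_diagonal_mul]
  have key := gen (g := g) (κ := Unit) (col := fun _ => ()) (tor := ∅)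
    (fun X => ∃ c : ℂ, c ≠ 0 ∧ X.transpose * Matrix.J (Fin g) ℂ * X = c • Matrix.J (Fin g) ℂ ∧
      ∀ s : ℂ, s ^ 2 = c → P (s⁻¹ • X)) ?_ ?_ ?_ 1 X one_ne_zero
      ⟨⟨by rw [hX, one_smul], fun r s h => absurd rfl h⟩, fun r s _ h => by simp at h⟩
  · obtain ⟨c, hc, h1, h2⟩ := key
    rw [hX] at h1
    by_cases hg : Nonempty (Fin g)
    · obtain ⟨i⟩ := hg
      have h3 := congrFun (congrFun h1 (Sum.inr i)) (Sum.inl i)
      rw [Matrix.smul_apply, J_rl, if_pos rfl, smul_eq_mul, mul_one] at h3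
      subst h3
      have h4 := h2 1 (one_pow 2)
      rwa [inv_one, one_smul] at h4
    · have h3 : IsEmpty (L2 g) := by
        rw [not_nonempty_iff] at hg
        exact inferInstanceAs (IsEmpty (Fin g ⊕ Fin g))
      have h4 : X = Matrix.diagonal (fun _ => 1) := by
        ext p
        exact (IsEmpty.false p).elim
      rw [h4]
      exact hdiag _ fun i => mul_one 1
  · rintro X Z ⟨c, hc, hX1, hX2⟩ ⟨c', hc', hZ1, hZ2⟩
    refine ⟨c * c', mul_ne_zero hc hc', form_mul97 hX1 hZ1, fun s hs => ?_⟩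
    obtain ⟨s1, hs1⟩ := IsAlgClosed.exists_pow_nat_eq c (n := 2) two_pos
    have hs10 : s1 ≠ 0 := by
      rintro rfl
      apply hc
      rw [← hs1]
      norm_num
    have h1 : (s / s1) ^ 2 = c' := by
      rw [div_pow, hs, hs1, mul_div_cancel_left₀ _ hc]
    have h2 := hmul _ _ (hX2 s1 hs1) (hZ2 (s / s1) h1)
    rw [Matrix.smul_mul, Matrix.mul_smul, smul_smul] at h2
    have h3 : s1⁻¹ * (s / s1)⁻¹ = s⁻¹ := by
      rw [← mul_inv, mul_div_cancel₀ _ hs10]
    rwa [h3] at h2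
  · intro _ _ v _ a
    refine ⟨1, one_ne_zero, form_tv97 v a, fun s hs => ?_⟩
    rw [hsm]
    refine hmul _ _ (hdiag _ fun i => ?_) (htv v a)
    show s⁻¹ * s⁻¹ = 1
    rw [← mul_inv, ← sq, hs, inv_one]
  · intro d m hm hd
    refine ⟨m, hm, ?_, fun s hs => ?_⟩
    · ext p q
      rw [Matrix.diagonal_transpose, Matrix.mul_diagonal, Matrix.diagonal_mul, Matrix.smul_apply, smul_eq_mul]
      rcases p with i | i <;> rcases q with j | j
      · simp [Matrix.J]
      · by_cases h : i = j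
        · subst h
          simp [Matrix.J, hd]
        · simp [Matrix.J, Matrix.one_apply_ne h]
      · by_cases h : i = j
        · subst h
          have := hd i
          simp [Matrix.J]
          rw [mul_comm]
          exact this
        · simp [Matrix.J, Matrix.one_apply_ne h]
      · simp [Matrix.J]
    · rw [hsm, Matrix.diagonal_mul_diagonal]
      refine hdiag _ fun i => ?_
      have hs0 : s ≠ 0 := by
        rintro rfl
        apply hm
        rw [← hs]
        norm_num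
      show s⁻¹ * d (Sum.inl i) * (s⁻¹ * d (Sum.inr i)) = 1
      have h1 : s⁻¹ * d (Sum.inl i) * (s⁻¹ * d (Sum.inr i)) = (s ^ 2)⁻¹ * (d (Sum.inl i) * d (Sum.inr i)) := by
        rw [sq, mul_inv]
        ring
      rw [h1, hd, hs, inv_mul_cancel₀ hm]

end Pool.Agent.Helper71.PO
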