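import Pool.Agent.Helper71.OP.Base
import Pool.Agent.Helper48.WT.Basic

/-!
# Generation of the group of Weil type with multiplier one (block PO-GENW)

`frob 1 A = fromBlocks A 0 0 (A⁻¹)ᵀ` is multiplicative (`WT.frob_mul` with `c = c' = 1`), and
`frob 1 (1 + a E_ij) = 1 + a • rt (inl i) (inl j)` for `i ≠ j` (`frob_transvection`; `rt (inl i) (inl j) =
single (inl i) (inl j) 1 - single (inr j) (inr i) 1`, `J_rl`, `J_lr`; `(1 + a E_ij)⁻¹ = 1 - a E_ij`).

`gen_weil`: for `A` invertible let `Q A` be: for all `D₁ D₂ : Fin d → ℂ` without zeros with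
`det (diagonal D₁ * A * diagonal D₂) = 1` the matrix `frob 1 (diagonal D₁ * A * diagonal D₂)`
satisfies `P`.
* `Q` is multiplicative on invertible matrices: given `D₁`, `D₂` for `A B` choose `D₃` with
  `det (diagonal D₁ * A * diagonal D₃) = 1` (put a number in one place; if `d = 0` everything is `1`)
  and write `D₁ A B D₂ = (D₁ A D₃) (D₃⁻¹ B D₂)`.
* `Q` of a diagonal matrix with nonzero determinant: `frob_diagonal` and `hdiag`.
* `Q` of `1 + a E_ij`, `i ≠ j`, `i, j ∉ tor`: it is `(D₁ D₂) (1 + a' E_ij)`, `a' = a * D₂ j / D₂ i`.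
* For a matrix `C` on `{i // i ∉ tor}` let `E C` be the matrix which is `C` on these indices and the
  identity elsewhere; `E` is multiplicative, `E 1 = 1`, `E (diagonal)` is diagonal, `E (transvection)` is
  a transvection `1 + a E_ij`.  By `Matrix.diagonal_transvection_induction_of_det_ne_zero` `Q (E C)`
  for all `C` with `det C ≠ 0`.
* `A` with `hA` is `E C * diagonal D` with `C` the part on `{i // i ∉ tor}`, `D i = A i i` for
  `i ∈ tor`, `D i = 1` otherwise.  So `Q A`; take `D₁ = D₂ = 1`.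
(Other ways: induct over the indices directly.)
-/

set_option autoImplicit false

namespace Pool.Agent.Helper71.PO

open Pool.Agent.Helper48.GC8 Pool.Agent.Helper71.OP Pool.Agent.Helper48

private lemma h31_sq {d : ℕ} {i j : Fin d} (hij : i ≠ j) (a : ℂ) :
    (1 + Matrix.single i j a) * (1 - Matrix.single i j a) = 1 := by
  rw [mul_sub, mul_one, add_mul, one_mul, Matrix.single_mul_single_of_ne (h := hij.symm), add_zero]
  abel

lemma frob_transvection {d : ℕ} {i j : Fin d} (hij : i ≠ j) (a : ℂ) :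
    WT.frob 1 (1 + Matrix.single i j a) = 1 + a • rt (Sum.inl i : L2 d) (Sum.inl j) := by
  have h1 : (1 + Matrix.single i j a)⁻¹ = 1 - Matrix.single i j a :=
    Matrix.inv_eq_right_inv (h31_sq hij a)
  unfold WT.frob rt
  rw [h1]
  have hJ : Matrix.J (Fin d) ℂ (Sum.inl j : L2 d).swap (Sum.inl j) *
      Matrix.J (Fin d) ℂ (Sum.inl i) (Sum.inl i : L2 d).swap = -1 := by
    rw [Sum.swap_inl, Sum.swap_inl, J_rl, J_lr, if_pos rfl, if_pos rfl]
    norm_num
  rw [hJ, Sum.swap_inl, Sum.swap_inl]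
  ext x y
  rcases x with x | x <;> rcases y with y | y
  · simp [Matrix.single_apply, Matrix.one_apply]
  · simp
  · simp
  · simp [Matrix.single_apply, Matrix.one_apply, and_comm, sub_eq_add_neg]

private def h31_Q {d : ℕ} (P : Matrix (L2 d) (L2 d) ℂ → Prop) (A : Matrix (Fin d) (Fin d) ℂ) : Prop :=
  ∀ D₁ D₂ : Fin d → ℂ, (∀ i, D₁ i ≠ 0) → (∀ i, D₂ i ≠ 0) →
    (Matrix.diagonal D₁ * A * Matrix.diagonal D₂).det = 1 →
    P (WT.frob 1 (Matrix.diagonal D₁ * A * Matrix.diagonal D₂))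

private lemma h31_Q_mul {d : ℕ} {P : Matrix (L2 d) (L2 d) ℂ → Prop}
    (hmul : ∀ X Z, P X → P Z → P (X * Z)) {A B : Matrix (Fin d) (Fin d) ℂ} (hA : A.det ≠ 0)
    (hQA : h31_Q P A) (hQB : h31_Q P B) : h31_Q P (A * B) := by
  classical
  intro D₁ D₂ hD₁ hD₂ hdet
  have hp : ∀ D : Fin d → ℂ, (∀ i, D i ≠ 0) → ∏ i, D i ≠ 0 := fun D hD =>
    Finset.prod_ne_zero_iff.2 fun i _ => hD i
  obtain ⟨D₃, hD₃, h3⟩ : ∃ D₃ : Fin d → ℂ, (∀ i, D₃ i ≠ 0) ∧
      (Matrix.diagonal D₁ * A * Matrix.diagonal D₃).det = 1 := by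
    rcases Nat.eq_zero_or_pos d with hd | hd
    · subst hd
      exact ⟨fun _ => 1, fun i => i.elim0, Matrix.det_fin_zero⟩
    · set c : ℂ := (Matrix.diagonal D₁ * A).det with hc
      have hc0 : c ≠ 0 := by
        rw [hc, Matrix.det_mul, Matrix.det_diagonal]
        exact mul_ne_zero (hp D₁ hD₁) hA
      refine ⟨Function.update (fun _ => 1) ⟨0, hd⟩ c⁻¹, fun i => ?_, ?_⟩
      · by_cases hi : i = ⟨0, hd⟩
        · rw [hi, Function.update_self]
          exact inv_ne_zero hc0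
        · rw [Function.update_of_ne hi]
          exact one_ne_zero
      · rw [Matrix.det_mul, ← hc, Matrix.det_diagonal, Finset.prod_update_of_mem (Finset.mem_univ _),
          Finset.prod_const_one, mul_one, mul_inv_cancel₀ hc0]
  have hsplit : Matrix.diagonal D₁ * (A * B) * Matrix.diagonal D₂ =
      (Matrix.diagonal D₁ * A * Matrix.diagonal D₃) *
        (Matrix.diagonal (fun i => (D₃ i)⁻¹) * B * Matrix.diagonal D₂) := by
    have h4 : Matrix.diagonal D₃ * Matrix.diagonal (fun i => (D₃ i)⁻¹) = 1 := by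
      rw [Matrix.diagonal_mul_diagonal, ← Matrix.diagonal_one]
      congr 1
      funext i
      exact mul_inv_cancel₀ (hD₃ i)
    calc Matrix.diagonal D₁ * (A * B) * Matrix.diagonal D₂ =
        Matrix.diagonal D₁ * A * 1 * B * Matrix.diagonal D₂ := by
          rw [mul_one]; simp only [mul_assoc]
      _ = Matrix.diagonal D₁ * A * (Matrix.diagonal D₃ * Matrix.diagonal (fun i => (D₃ i)⁻¹)) * B *
          Matrix.diagonal D₂ := by rw [h4]
      _ = _ := by simp only [mul_assoc]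
  rw [hsplit] at hdet ⊢
  rw [Matrix.det_mul, h3, one_mul] at hdet
  have h5 := WT.frob_mul (c := 1) (c' := 1) (g := Matrix.diagonal D₁ * A * Matrix.diagonal D₃)
    (g' := Matrix.diagonal (fun i => (D₃ i)⁻¹) * B * Matrix.diagonal D₂)
  rw [one_mul] at h5
  rw [h5]
  exact hmul _ _ (hQA D₁ D₃ hD₁ hD₃ h3)
    (hQB _ D₂ (fun i => inv_ne_zero (hD₃ i)) hD₂ hdet)

private lemma h31_diag {d : ℕ} {P : Matrix (L2 d) (L2 d) ℂ → Prop}
    (hdiag : ∀ e : L2 d → ℂ, (∀ i, e (Sum.inl i) * e (Sum.inr i) = 1) →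
      ∏ i, e (Sum.inl i) = 1 → P (Matrix.diagonal e)) (l : Fin d → ℂ) (hl : ∏ i, l i = 1) :
    P (WT.frob 1 (Matrix.diagonal l)) := by
  have hl0 : ∀ i, l i ≠ 0 := by
    intro i hi
    rw [Finset.prod_eq_zero (Finset.mem_univ i) hi] at hl
    exact zero_ne_one hl
  rw [WT.frob_diagonal 1 l hl0]
  refine hdiag _ (fun i => ?_) ?_
  · rw [Sum.elim_inl, Sum.elim_inr, mul_one_div_cancel (hl0 i)]
  · simpa using hl

private lemma h31_Q_diag {d : ℕ} {P : Matrix (L2 d) (L2 d) ℂ → Prop}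
    (hdiag : ∀ e : L2 d → ℂ, (∀ i, e (Sum.inl i) * e (Sum.inr i) = 1) →
      ∏ i, e (Sum.inl i) = 1 → P (Matrix.diagonal e)) (D : Fin d → ℂ) :
    h31_Q P (Matrix.diagonal D) := by
  intro D₁ D₂ _ _ hdet
  rw [Matrix.diagonal_mul_diagonal, Matrix.diagonal_mul_diagonal] at hdet ⊢
  rw [Matrix.det_diagonal] at hdet
  exact h31_diag hdiag _ hdet

private lemma h31_Q_tr {d : ℕ} {tor : Finset (Fin d)} {P : Matrix (L2 d) (L2 d) ℂ → Prop}
    (hmul : ∀ X Z, P X → P Z → P (X * Z))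
    (htr : ∀ i j, i ≠ j → i ∉ tor → j ∉ tor → ∀ a : ℂ,
      P (1 + a • rt (Sum.inl i : L2 d) (Sum.inl j)))
    (hdiag : ∀ e : L2 d → ℂ, (∀ i, e (Sum.inl i) * e (Sum.inr i) = 1) →
      ∏ i, e (Sum.inl i) = 1 → P (Matrix.diagonal e)) {i j : Fin d} (hij : i ≠ j) (hi : i ∉ tor)
    (hj : j ∉ tor) (a : ℂ) : h31_Q P (1 + Matrix.single i j a) := by
  intro D₁ D₂ hD₁ hD₂ hdet
  have hsplit : Matrix.diagonal D₁ * (1 + Matrix.single i j a) * Matrix.diagonal D₂ =
      Matrix.diagonal (fun k => D₁ k * D₂ k) * (1 + Matrix.single i j (a * D₂ j / D₂ i)) := by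
    rw [mul_add, mul_one, add_mul, Matrix.diagonal_mul_diagonal, mul_add, mul_one]
    congr 1
    ext x y
    rw [Matrix.mul_diagonal, Matrix.diagonal_mul, Matrix.diagonal_mul, Matrix.single_apply,
      Matrix.single_apply]
    by_cases h : i = x ∧ j = y
    · obtain ⟨rfl, rfl⟩ := h
      rw [if_pos ⟨rfl, rfl⟩, if_pos ⟨rfl, rfl⟩]
      have := hD₂ i
      field_simp
    · rw [if_neg h, if_neg h]
      ring
  have hdt : (1 + Matrix.single i j (a * D₂ j / D₂ i)).det = 1 :=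
    Matrix.det_transvection_of_ne i j hij _
  rw [hsplit] at hdet ⊢
  rw [Matrix.det_mul, hdt, mul_one, Matrix.det_diagonal] at hdet
  have h5 := WT.frob_mul (c := 1) (c' := 1) (g := Matrix.diagonal (fun k => D₁ k * D₂ k))
    (g' := 1 + Matrix.single i j (a * D₂ j / D₂ i))
  rw [one_mul] at h5
  rw [h5]
  refine hmul _ _ (h31_diag hdiag _ hdet) ?_
  rw [frob_transvection hij]
  exact htr i j hij hi hj _

theorem gen_weil {d : ℕ} (tor : Finset (Fin d)) (P : Matrix (L2 d) (L2 d) ℂ → Prop)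
    (hmul : ∀ X Z, P X → P Z → P (X * Z))
    (htr : ∀ i j, i ≠ j → i ∉ tor → j ∉ tor → ∀ a : ℂ,
      P (1 + a • rt (Sum.inl i : L2 d) (Sum.inl j)))
    (hdiag : ∀ e : L2 d → ℂ, (∀ i, e (Sum.inl i) * e (Sum.inr i) = 1) →
      ∏ i, e (Sum.inl i) = 1 → P (Matrix.diagonal e)) :
    ∀ A : Matrix (Fin d) (Fin d) ℂ, (∀ i j, i ≠ j → i ∈ tor ∨ j ∈ tor → A i j = 0) →
      A.det = 1 → P (WT.frob 1 A) := by
  classical
  intro A hA hdet
  let p : Fin d → Prop := fun i => i ∉ tor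
  let s : {i // p i} ⊕ {i // ¬ p i} ≃ Fin d := Equiv.sumCompl p
  let Em : Matrix {i // p i} {i // p i} ℂ → Matrix (Fin d) (Fin d) ℂ := fun C =>
    Matrix.reindexAlgEquiv ℂ ℂ s (Matrix.fromBlocks C 0 0 1)
  have hEmul : ∀ C C', Em (C * C') = Em C * Em C' := by
    intro C C'
    change Matrix.reindexAlgEquiv ℂ ℂ s _ = Matrix.reindexAlgEquiv ℂ ℂ s _ * Matrix.reindexAlgEquiv ℂ ℂ s _
    rw [← map_mul, Matrix.fromBlocks_multiply]
    simp
  have hEdet : ∀ C, (Em C).det = C.det := by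
    intro C
    change (Matrix.reindexAlgEquiv ℂ ℂ s _).det = _
    rw [Matrix.det_reindexAlgEquiv, Matrix.det_fromBlocks_zero₂₁, Matrix.det_one, mul_one]
  have hEapp : ∀ C x y, Em C x y = Matrix.fromBlocks C 0 0 1 (s.symm x) (s.symm y) := fun _ _ _ => rfl
  have hs1 : ∀ x (h : p x), s.symm x = Sum.inl ⟨x, h⟩ := fun x h =>
    Equiv.sumCompl_symm_apply_of_pos h
  have hs2 : ∀ x (h : ¬ p x), s.symm x = Sum.inr ⟨x, h⟩ := fun x h =>
    Equiv.sumCompl_symm_apply_of_neg h
  have hQE : ∀ C : Matrix {i // p i} {i // p i} ℂ, C.det ≠ 0 → h31_Q P (Em C) := by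
    intro C hC
    refine Matrix.diagonal_transvection_induction_of_det_ne_zero (fun C => h31_Q P (Em C)) C hC
      (fun D _ => ?_) (fun t => ?_) (fun B B' hB _ hQB hQB' => ?_)
    · have h1 : Em (Matrix.diagonal D) = Matrix.diagonal (fun x => Sum.elim D (fun _ => 1) (s.symm x)) := by
        ext x y
        rw [hEapp, ← Matrix.diagonal_one, Matrix.fromBlocks_diagonal, Matrix.diagonal_apply,
          Matrix.diagonal_apply]
        simp only [EmbeddingLike.apply_eq_iff_eq]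
      rw [h1]
      exact h31_Q_diag hdiag _
    · have h1 : Em t.toMatrix = ((t.sumInl {i // ¬ p i}).reindexEquiv s).toMatrix := by
        rw [Matrix.TransvectionStruct.toMatrix_reindexEquiv, Matrix.TransvectionStruct.toMatrix_sumInl]
      have h2 : ((t.sumInl {i // ¬ p i}).reindexEquiv s).toMatrix =
          1 + Matrix.single (t.i : Fin d) (t.j : Fin d) t.c := rfl
      rw [h1, h2]
      exact h31_Q_tr hmul htr hdiag (fun h => t.hij (Subtype.ext h)) t.i.2 t.j.2 _
    · rw [hEmul]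
      exact h31_Q_mul hmul (by rw [hEdet]; exact hB) hQB hQB'
  -- decomposition of `A`
  let C : Matrix {i // p i} {i // p i} ℂ := A.submatrix (fun i => (i : Fin d)) (fun i => (i : Fin d))
  let D : Fin d → ℂ := fun i => if i ∈ tor then A i i else 1
  have hAD : A = Em C * Matrix.diagonal D := by
    ext x y
    rw [Matrix.mul_diagonal, hEapp]
    by_cases hx : x ∈ tor <;> by_cases hy : y ∈ tor
    · rw [hs2 x (not_not.2 hx), hs2 y (not_not.2 hy), Matrix.fromBlocks_apply₂₂, Matrix.one_apply]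
      by_cases hxy : x = y
      · subst hxy
        rw [if_pos rfl, one_mul]
        simp only [D, if_pos hx]
      · rw [if_neg (fun h => hxy (congrArg Subtype.val h)), zero_mul]
        exact hA x y hxy (Or.inl hx)
    · rw [hs2 x (not_not.2 hx), hs1 y hy, Matrix.fromBlocks_apply₂₁, Matrix.zero_apply, zero_mul]
      exact hA x y (fun h => hy (h ▸ hx)) (Or.inl hx)
    · rw [hs1 x hx, hs2 y (not_not.2 hy), Matrix.fromBlocks_apply₁₂, Matrix.zero_apply, zero_mul]
      exact hA x y (fun h => hx (h ▸ hy)) (Or.inr hy)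
    · rw [hs1 x hx, hs1 y hy, Matrix.fromBlocks_apply₁₁]
      simp only [D, if_neg hy, mul_one]
      rfl
  have hdet2 : C.det * ∏ i, D i = 1 := by
    rw [← hEdet, ← Matrix.det_diagonal, ← Matrix.det_mul, ← hAD]
    exact hdet
  have hC0 : C.det ≠ 0 := left_ne_zero_of_mul_eq_one hdet2
  have hQA : h31_Q P A := by
    rw [hAD]
    exact h31_Q_mul hmul (by rw [hEdet]; exact hC0) (hQE C hC0) (h31_Q_diag hdiag D)
  have h1 := hQA (fun _ => 1) (fun _ => 1) (fun _ => one_ne_zero) (fun _ => one_ne_zero)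
  rw [Matrix.diagonal_one, one_mul, mul_one] at h1
  exact h1 hdet

end Pool.Agent.Helper71.PO
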