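import Pool.Agent.Helper71.PO.Base

/-!
# Elementary matrices of a block as matrices on `L2 (gt k)` (block PO-TRANS)

`emb b Y` is the matrix on `L2 (gt k)` which is `Y` on the block `b` and the identity on the other
blocks.  All statements are entrywise: write the letters as `sg k ⟨a, x⟩` (`sg_surj`), use
`rei_apply`, `Matrix.blockDiagonal'_apply`, `Function.update`, and `sg_J`, `sg_J_ne`, `sg_swap` for the
entries of the form `J`.  `ev b v` is the extension of a function by zero, `eo b e` by one.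
-/

set_option autoImplicit false
set_option linter.unusedSectionVars false

namespace Pool.Agent.Helper71.PO

open Pool.Agent.Helper48.GC8 Pool.Agent.Helper48.PW Pool.Agent.Helper71.OP

variable {B : Type} [Fintype B] [DecidableEq B] {k : B → Kind}

/-- `Y` on the block `b` and the identity on the other blocks. -/
noncomputable def emb (b : B) (Y : Matrix (k b).Ind (k b).Ind ℂ) :
    Matrix (L2 (gt k)) (L2 (gt k)) ℂ :=
  rei k (Matrix.blockDiagonal' (Function.update (1 : ∀ a, Matrix (k a).Ind (k a).Ind ℂ) b Y))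

/-- The extension of a function on the letters of the block `b` by `z`. -/
noncomputable def ext (b : B) (z : ℂ) (v : (k b).Ind → ℂ) (r : L2 (gt k)) : ℂ :=
  if h : ((sg k).symm r).1 = b then v (h ▸ ((sg k).symm r).2) else z

lemma ext_self (b : B) (z : ℂ) (v : (k b).Ind → ℂ) (x : (k b).Ind) :
    ext b z v (sg k ⟨b, x⟩) = v x := by
  have key : ∀ p : Ind k, p = ⟨b, x⟩ →
      (if h : p.1 = b then v (h ▸ p.2) else z) = v x := by
    rintro _ rfl
    simp
  exact key _ ((sg k).symm_apply_apply _)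

lemma ext_ne {a b : B} (h : a ≠ b) (z : ℂ) (v : (k b).Ind → ℂ) (x : (k a).Ind) :
    ext b z v (sg k ⟨a, x⟩) = z := by
  have key : ∀ p : Ind k, p = ⟨a, x⟩ →
      (if h : p.1 = b then v (h ▸ p.2) else z) = z := by
    rintro _ rfl
    exact dif_neg h
  exact key _ ((sg k).symm_apply_apply _)

private lemma mext88 {X Y : Matrix (L2 (gt k)) (L2 (gt k)) ℂ}
    (h : ∀ (a : B) (x : (k a).Ind) (c : B) (y : (k c).Ind),
      X (sg k ⟨a, x⟩) (sg k ⟨c, y⟩) = Y (sg k ⟨a, x⟩) (sg k ⟨c, y⟩)) : X = Y := by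
  ext r s
  obtain ⟨a, x, rfl⟩ := sg_surj k r
  obtain ⟨c, y, rfl⟩ := sg_surj k s
  exact h a x c y

private lemma emb_self88 (b : B) (Y : Matrix (k b).Ind (k b).Ind ℂ) (x y : (k b).Ind) :
    emb b Y (sg k ⟨b, x⟩) (sg k ⟨b, y⟩) = Y x y := by
  rw [emb, rei_apply, Matrix.blockDiagonal'_apply_eq, Function.update_self]

private lemma emb_other88 {a b : B} (h : a ≠ b) (Y : Matrix (k b).Ind (k b).Ind ℂ)
    (x y : (k a).Ind) :
    emb b Y (sg k ⟨a, x⟩) (sg k ⟨a, y⟩) = (1 : Matrix (k a).Ind (k a).Ind ℂ) x y := by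
  rw [emb, rei_apply, Matrix.blockDiagonal'_apply_eq, Function.update_of_ne h, Pi.one_apply]

private lemma emb_ne88 {a c : B} (b : B) (h : a ≠ c) (Y : Matrix (k b).Ind (k b).Ind ℂ)
    (x : (k a).Ind) (y : (k c).Ind) :
    emb b Y (sg k ⟨a, x⟩) (sg k ⟨c, y⟩) = 0 := by
  rw [emb, rei_apply, Matrix.blockDiagonal'_apply_ne _ _ _ h]

private lemma one_self88 (b : B) (x y : (k b).Ind) :
    (1 : Matrix (L2 (gt k)) (L2 (gt k)) ℂ) (sg k ⟨b, x⟩) (sg k ⟨b, y⟩) =
      (1 : Matrix (k b).Ind (k b).Ind ℂ) x y := by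
  by_cases h : x = y
  · subst h
    rw [Matrix.one_apply_eq, Matrix.one_apply_eq]
  · rw [Matrix.one_apply_ne h, Matrix.one_apply_ne]
    intro h1
    exact h (eq_of_heq (Sigma.mk.inj ((sg k).injective h1)).2)

private lemma one_ne88 {a c : B} (h : a ≠ c) (x : (k a).Ind) (y : (k c).Ind) :
    (1 : Matrix (L2 (gt k)) (L2 (gt k)) ℂ) (sg k ⟨a, x⟩) (sg k ⟨c, y⟩) = 0 := by
  rw [Matrix.one_apply_ne]
  intro h1
  exact h (Sigma.mk.inj ((sg k).injective h1)).1


private lemma sum88 (f : L2 (gt k) → ℂ) :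
    ∑ r, f r = ∑ a, ∑ x : (k a).Ind, f (sg k ⟨a, x⟩) := by
  rw [← Fintype.sum_sigma' (f := fun a x => f (sg k ⟨a, x⟩))]
  exact (Fintype.sum_equiv (sg k) _ _ fun _ => rfl).symm

private lemma jv_self88 (b : B) (v : (k b).Ind → ℂ) (y : (k b).Ind) :
    (Matrix.J (Fin (gt k)) ℂ).mulVec (ext b 0 v) (sg k ⟨b, y⟩) =
      (Matrix.J (Fin (k b).dim) ℂ).mulVec v y := by
  rw [Matrix.mulVec, Matrix.mulVec, dotProduct, dotProduct, sum88, Finset.sum_eq_single b]
  · apply Finset.sum_congr rfl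
    intro x _
    rw [sg_J, ext_self]
  · intro a _ h
    apply Finset.sum_eq_zero
    intro x _
    rw [ext_ne h, mul_zero]
  · intro h
    exact absurd (Finset.mem_univ _) h

private lemma jv_ne88 {c b : B} (h : c ≠ b) (v : (k b).Ind → ℂ) (y : (k c).Ind) :
    (Matrix.J (Fin (gt k)) ℂ).mulVec (ext b 0 v) (sg k ⟨c, y⟩) = 0 := by
  rw [Matrix.mulVec, dotProduct, sum88]
  apply Finset.sum_eq_zero
  intro a _
  apply Finset.sum_eq_zero
  intro x _
  by_cases hab : a = b
  · subst hab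
    rw [sg_J_ne k h, zero_mul]
  · rw [ext_ne hab, mul_zero]

lemma emb_mul (b : B) (Y Z : Matrix (k b).Ind (k b).Ind ℂ) : emb b (Y * Z) = emb b Y * emb b Z := by
  unfold emb
  rw [← map_mul, ← Matrix.blockDiagonal'_mul]
  congr 2
  funext a
  by_cases h : a = b
  · subst h
    rw [Function.update_self, Function.update_self, Function.update_self]
  · rw [Function.update_of_ne h, Function.update_of_ne h, Function.update_of_ne h]
    simp

private lemma tv_apply88 {g : ℕ} (v : L2 g → ℂ) (r s : L2 g) :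
    tv v r s = v r * (Matrix.J (Fin g) ℂ).mulVec v s := rfl

lemma emb_tv (b : B) (v : (k b).Ind → ℂ) (a : ℂ) :
    emb b (1 + a • tv v) = 1 + a • tv (ext b 0 v) := by
  apply mext88
  intro c x d y
  rw [Matrix.add_apply, Matrix.smul_apply, tv_apply88]
  by_cases hcd : c = d
  · subst hcd
    by_cases hcb : c = b
    · subst hcb
      rw [emb_self88, one_self88, ext_self, jv_self88, Matrix.add_apply, Matrix.smul_apply,
        tv_apply88]
    · rw [emb_other88 hcb, one_self88, ext_ne hcb, zero_mul, smul_zero, add_zero]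
  · rw [emb_ne88 b hcd, one_ne88 hcd]
    by_cases hcb : c = b
    · subst hcb
      rw [jv_ne88 (Ne.symm hcd), mul_zero, smul_zero, add_zero]
    · rw [ext_ne hcb, zero_mul, smul_zero, add_zero]

private lemma single_self88 (b : B) (x y x' y' : (k b).Ind) :
    (Matrix.single (sg k ⟨b, x⟩) (sg k ⟨b, y⟩) 1 : Matrix (L2 (gt k)) (L2 (gt k)) ℂ)
      (sg k ⟨b, x'⟩) (sg k ⟨b, y'⟩) = (Matrix.single x y 1 : Matrix (k b).Ind (k b).Ind ℂ) x' y' := by
  have e : ∀ z w : (k b).Ind, (sg k ⟨b, z⟩ = sg k ⟨b, w⟩) → z = w := by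
    intro z w h
    exact eq_of_heq (Sigma.mk.inj ((sg k).injective h)).2
  rw [Matrix.single_apply, Matrix.single_apply]
  by_cases h : x = x' ∧ y = y'
  · rw [if_pos h, if_pos (by rw [h.1, h.2]; exact ⟨rfl, rfl⟩)]
  · rw [if_neg h, if_neg]
    rintro ⟨h1, h2⟩
    exact h ⟨e _ _ h1, e _ _ h2⟩

private lemma single_ne88 (b c d : B) (h : c ≠ b ∨ d ≠ b) (x y : (k b).Ind) (x' : (k c).Ind)
    (y' : (k d).Ind) :
    (Matrix.single (sg k ⟨b, x⟩) (sg k ⟨b, y⟩) 1 : Matrix (L2 (gt k)) (L2 (gt k)) ℂ)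
      (sg k ⟨c, x'⟩) (sg k ⟨d, y'⟩) = 0 := by
  rw [Matrix.single_apply, if_neg]
  rintro ⟨h1, h2⟩
  rcases h with h | h
  · exact h (Sigma.mk.inj ((sg k).injective h1)).1.symm
  · exact h (Sigma.mk.inj ((sg k).injective h2)).1.symm

lemma emb_rt (b : B) (x y : (k b).Ind) (a : ℂ) :
    emb b (1 + a • rt x y) = 1 + a • rt (sg k ⟨b, x⟩) (sg k ⟨b, y⟩) := by
  have e1 : ∀ (c : B) (x' : (k c).Ind) (d : B) (y' : (k d).Ind),
      (rt (sg k ⟨b, x⟩) (sg k ⟨b, y⟩)) (sg k ⟨c, x'⟩) (sg k ⟨d, y'⟩) =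
      (Matrix.single (sg k ⟨b, x⟩) (sg k ⟨b, y⟩) 1 : Matrix (L2 (gt k)) (L2 (gt k)) ℂ)
        (sg k ⟨c, x'⟩) (sg k ⟨d, y'⟩) + (Matrix.J (Fin (k b).dim) ℂ y.swap y *
          Matrix.J (Fin (k b).dim) ℂ x x.swap) *
        (Matrix.single (sg k ⟨b, y.swap⟩) (sg k ⟨b, x.swap⟩) 1 :
          Matrix (L2 (gt k)) (L2 (gt k)) ℂ) (sg k ⟨c, x'⟩) (sg k ⟨d, y'⟩) := by
    intro c x' d y'
    rw [rt, Matrix.add_apply, Matrix.smul_apply, ← sg_swap, ← sg_swap, sg_J, sg_J, smul_eq_mul]
  apply mext88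
  intro c x' d y'
  rw [Matrix.add_apply, Matrix.smul_apply, e1]
  by_cases hcd : c = d
  · subst hcd
    by_cases hcb : c = b
    · subst hcb
      rw [emb_self88, one_self88, single_self88, single_self88, Matrix.add_apply,
        Matrix.smul_apply, rt, Matrix.add_apply, Matrix.smul_apply]
      rfl
    · rw [emb_other88 hcb, one_self88, single_ne88 b c c (Or.inl hcb),
        single_ne88 b c c (Or.inl hcb), mul_zero, add_zero, smul_zero, add_zero]
  · have hor : c ≠ b ∨ d ≠ b := by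
      by_contra hcon
      push Not at hcon
      exact hcd (hcon.1.trans hcon.2.symm)
    rw [emb_ne88 b hcd, one_ne88 hcd, single_ne88 b c d hor, single_ne88 b c d hor, mul_zero,
      add_zero, smul_zero, add_zero]

lemma emb_diagonal (b : B) (e : (k b).Ind → ℂ) :
    emb b (Matrix.diagonal e) = Matrix.diagonal (ext b 1 e) := by
  apply mext88
  intro c x d y
  by_cases hcd : c = d
  · subst hcd
    by_cases hxy : x = y
    · subst hxy
      rw [Matrix.diagonal_apply_eq]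
      by_cases hcb : c = b
      · subst hcb
        rw [emb_self88, ext_self, Matrix.diagonal_apply_eq]
      · rw [emb_other88 hcb, ext_ne hcb, Matrix.one_apply_eq]
    · have hne : sg k ⟨c, x⟩ ≠ sg k ⟨c, y⟩ := by
        intro h
        exact hxy (eq_of_heq (Sigma.mk.inj ((sg k).injective h)).2)
      rw [Matrix.diagonal_apply_ne _ hne]
      by_cases hcb : c = b
      · subst hcb
        rw [emb_self88, Matrix.diagonal_apply_ne _ hxy]
      · rw [emb_other88 hcb, Matrix.one_apply_ne hxy]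
  · have hne : sg k ⟨c, x⟩ ≠ sg k ⟨d, y⟩ := by
      intro h
      exact hcd (Sigma.mk.inj ((sg k).injective h)).1
    rw [emb_ne88 b hcd, Matrix.diagonal_apply_ne _ hne]

end Pool.Agent.Helper71.PO
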