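import Pool.Agent.Helper71.PO.GenSp
import Pool.Agent.Helper71.PO.GenWeil
import Pool.Agent.Helper71.PO.GenProd
import Pool.Agent.Helper71.PO.Trans

/-!
# Generation of the group on the letters `L2 (gt k)` (block PO-GENT)

`GT k c X` is `InGroup k c ((rei k).symm X)`.  Apply `gen_prod` with the predicate
`fun M => P (rei k M)` (`(rei k)` is an algebra isomorphism).  `hscal`: `s • 1` is diagonal and is
in the group with multiplier `s ^ 2` (`(isGrp_total or (k b).isGrp).scal`, or `inG_of_diag`).  `hb`:
`P (emb b Y)` for `Y` in the group of `k b` with multiplier `1`: fix `b` and apply the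
generation theorem of the type of `k b` with the predicate `fun Y => P (emb b Y)` (`emb_mul`):
* `sp g`: `gen_sp`; `emb_tv`, and `ext b 0 v ∈ blk (cl k) (inr (b, true))`: the letters outside of
  the block `b` have a different class (`cl_sg`, `tcl`); `emb_diagonal`.
* `cm`: the matrix is diagonal; `emb_diagonal`.
* `weil p tor`: `Y = WT.frob 1 A`, `gen_weil`, `emb_rt`, `emb_diagonal`.
For diagonal `e` in the group of `k b` with multiplier `1` the matrix `diagonal (ext b 1 e)` is in
`GT k 1`: `(rei k).symm (emb b (diagonal e)) = blockDiagonal' (update 1 b (diagonal e))`, `inG_one`.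
(As `k b` is not a variable, generalise: prove `hb` for a block by `match hk : k b with`, or prove a
lemma for a `K : Kind` and any predicate on `Matrix K.Ind K.Ind ℂ` first, see `gen_kind`.)
-/

set_option autoImplicit false

namespace Pool.Agent.Helper71.PO

open Pool.Agent.Helper48.GC8 Pool.Agent.Helper48.PW Pool.Agent.Helper71.OP

/-- Generation for one type of factors. -/
theorem gen_kind (K : Kind) (P : Matrix K.Ind K.Ind ℂ → Prop) (hmul : ∀ X Z, P X → P Z → P (X * Z))
    (htv : IsSp K → ∀ (v : K.Ind → ℂ) (a : ℂ), P (1 + a • tv v))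
    (htr : ¬ IsSp K → ∀ x y, x ≠ y → Main K x → Main K y → ∀ a : ℂ, P (1 + a • rt x y))
    (hdiag : ∀ e : K.Ind → ℂ, K.InG 1 (Matrix.diagonal e) → P (Matrix.diagonal e)) :
    ∀ X, K.InG 1 X → P X := by
  cases K with
  | sp g =>
    intro X hX
    have h : X.transpose * Matrix.J (Fin g) ℂ * X = Matrix.J (Fin g) ℂ := by
      have h1 := hX.2
      rwa [one_smul] at h1
    exact gen_sp P hmul (htv trivial)
      (fun e he => hdiag e (inG_of_diag (k := Kind.sp g) one_ne_zero he trivial)) X h
  | cm =>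
    intro X hX
    obtain ⟨-, x, hx, rfl⟩ := hX
    exact hdiag _ ⟨one_ne_zero, x, hx, rfl⟩
  | weil p tor =>
    intro X hX
    obtain ⟨A, hA, rfl⟩ := hX
    refine gen_weil tor P hmul
      (fun i j hij hi hj a => htr id (Sum.inl i) (Sum.inl j) ?_ hi hj a)
      (fun e he hp => hdiag e (inG_of_diag (k := Kind.weil p tor) one_ne_zero he ?_)) A hA.diag ?_
    · intro h
      exact hij (Sum.inl.inj h)
    · change ∏ i, e (Sum.inl i) = (1 : ℂ) ^ p
      rw [hp, one_pow]
    · rw [hA.det, one_pow]

private lemma scal_kind38 (K : Kind) {s : ℂ} (hs : s ≠ 0) : K.InG (s ^ 2) (s • 1) := by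
  have h1 : (s • 1 : Matrix K.Ind K.Ind ℂ) = Matrix.diagonal (fun _ => s) := by
    rw [Matrix.smul_one_eq_diagonal]
  rw [h1]
  refine inG_of_diag (pow_ne_zero 2 hs) (fun i => (sq s).symm) ?_
  cases K with
  | sp g => trivial
  | cm => trivial
  | weil p tor =>
    change ∏ i : Fin (2 * p), s = (s ^ 2) ^ p
    rw [Finset.prod_const, Finset.card_univ, Fintype.card_fin, pow_mul]

variable {B : Type} [Fintype B] [DecidableEq B] {k : B → Kind}

omit [Fintype B] in
private lemma scal_total38 {s : ℂ} (hs : s ≠ 0) : InGroup k (s ^ 2) (s • 1) := by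
  refine ⟨pow_ne_zero 2 hs, fun b => s • 1, fun b => scal_kind38 (k b) hs, ?_⟩
  have h1 : (fun b => s • (1 : Matrix (k b).Ind (k b).Ind ℂ)) =
      s • (1 : ∀ b, Matrix (k b).Ind (k b).Ind ℂ) := rfl
  rw [h1, Matrix.blockDiagonal'_smul, Matrix.blockDiagonal'_one]

omit [Fintype B] in
private lemma one_total38 (b : B) {Y : Matrix (k b).Ind (k b).Ind ℂ} (hY : (k b).InG 1 Y) :
    InGroup k 1 (Matrix.blockDiagonal'
      (Function.update (1 : ∀ a, Matrix (k a).Ind (k a).Ind ℂ) b Y)) := by
  refine ⟨one_ne_zero, _, fun a => ?_, rfl⟩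
  by_cases h : a = b
  · subst h
    rw [Function.update_self]
    exact hY
  · rw [Function.update_of_ne h]
    exact inG_one (k a)

private lemma cl_main38 (b : B) {x : (k b).Ind} (hx : Main (k b) x) :
    cl k (sg k ⟨b, x⟩) = Sum.inr (b, true) := by
  rw [cl_sg]
  unfold tcl
  rw [if_pos hx]

private lemma ext_mem38 (b : B) (v : (k b).Ind → ℂ) :
    ext b 0 v ∈ blk (cl k) (Sum.inr (b, true)) ∨ ¬ IsSp (k b) := by
  by_cases hsp : IsSp (k b)
  · left
    intro r hr
    obtain ⟨a, x, rfl⟩ := sg_surj k r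
    by_cases h : a = b
    · subst h
      exact absurd (cl_main38 a (main_of_isSp hsp x)) hr
    · exact ext_ne h 0 v x
  · exact Or.inr hsp

theorem gen_total (P : Matrix (L2 (gt k)) (L2 (gt k)) ℂ → Prop)
    (hmul : ∀ X Z, P X → P Z → P (X * Z))
    (htv : ∀ b, IsSp (k b) → ∀ v ∈ blk (cl k) (Sum.inr (b, true)), ∀ a : ℂ, P (1 + a • tv v))
    (htr : ∀ b, ∀ r s, r ≠ s → cl k r = Sum.inr (b, true) → cl k s = Sum.inr (b, true) →
      ∀ a : ℂ, P (1 + a • rt r s))
    (hdiag : ∀ (c : ℂ) (e : L2 (gt k) → ℂ), GT k c (Matrix.diagonal e) → P (Matrix.diagonal e)) :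
    ∀ (c : ℂ) (X : Matrix (L2 (gt k)) (L2 (gt k)) ℂ), GT k c X → P X := by
  intro c X hX
  have key : P (rei k ((rei k).symm X)) := by
    refine gen_prod (k := k) (fun M => P (rei k M)) ?_ ?_ ?_ c ((rei k).symm X) hX
    · intro X Z h1 h2
      rw [map_mul]
      exact hmul _ _ h1 h2
    · intro s hs
      have h1 : rei k (s • 1) = Matrix.diagonal (fun _ => s) := by
        rw [map_smul, map_one, Matrix.smul_one_eq_diagonal]
      rw [h1]
      apply hdiag (s ^ 2)
      unfold GT
      rw [← h1, AlgEquiv.symm_apply_apply]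
      exact scal_total38 hs
    · intro b Y hY
      refine gen_kind (k b) (fun Y => P (emb b Y)) ?_ ?_ ?_ ?_ Y hY
      · intro X Z h1 h2
        rw [emb_mul]
        exact hmul _ _ h1 h2
      · intro hsp v a
        rw [emb_tv]
        exact htv b hsp _ ((ext_mem38 b v).resolve_right (not_not.2 hsp)) a
      · intro _ x y hxy hx hy a
        rw [emb_rt]
        refine htr b _ _ (fun h => hxy ?_) (cl_main38 b hx) (cl_main38 b hy) a
        have h2 := (sg k).injective h
        exact eq_of_heq (Sigma.mk.inj h2).2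
      · intro e he
        rw [emb_diagonal]
        apply hdiag 1
        rw [← emb_diagonal]
        unfold GT emb
        rw [AlgEquiv.symm_apply_apply]
        exact one_total38 b he
  rwa [AlgEquiv.apply_symm_apply] at key

end Pool.Agent.Helper71.PO
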