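import Pool.Agent.Helper71.PO.Base

/-!
# The groups of the types of factors (block PO-KIND)

By cases on the type.  `sp g`: `inSp` is closed under products and inverses (`M' = c⁻¹ • J⁻¹ Mᵀ J`
up to sign, `J * J = -1`: `Matrix.J_squared`; or `Matrix.SymplecticGroup`-like computations as in
`SimT.mul'`, `SimT.inv'` of `Helper71/OP/Stab.lean`); all letters are main.  `cm`: diagonal matrices
`Sum.elim x (c / x)`; no main letters.  `weil p tor`: `WT.InG.mul`, `WT.InG.inv`, `WT.InG.one`,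
`WT.frob_mul`, `WT.frob_one` in `Helper48/WT/Basic.lean`; `(frob c g)ᵀ J frob c g = c J` as
`gᵀ (c g⁻ᵀ) = c`; the matrix `frob c g` is block diagonal, `g i j = 0` if `i ≠ j` and `i ∈ tor` or
`j ∈ tor`, and the same for `g⁻¹` (`WT.InG.inv`, field `diag`).  `inG_diag`: a diagonal matrix
in `inWeil` is `frob c g` with `g` diagonal, and `det g = ∏ g i i`; `inG_of_diag`: `WT.frob_diagonal`.
-/

set_option autoImplicit false

namespace Pool.Agent.Helper71.PO

open Pool.Agent.Helper48.GC8 Pool.Agent.Helper48.PW Pool.Agent.Helper71.OP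
open Pool.Agent.Helper48

private lemma form_mul_h36 {g : ℕ} {c d : ℂ} {X Z : Matrix (L2 g) (L2 g) ℂ}
    (hX : X.transpose * Matrix.J (Fin g) ℂ * X = c • Matrix.J (Fin g) ℂ)
    (hZ : Z.transpose * Matrix.J (Fin g) ℂ * Z = d • Matrix.J (Fin g) ℂ) :
    (X * Z).transpose * Matrix.J (Fin g) ℂ * (X * Z) = (c * d) • Matrix.J (Fin g) ℂ := by
  calc (X * Z).transpose * Matrix.J (Fin g) ℂ * (X * Z)
      = Z.transpose * (X.transpose * Matrix.J (Fin g) ℂ * X) * Z := by
        rw [Matrix.transpose_mul]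
        simp only [Matrix.mul_assoc]
    _ = (c * d) • Matrix.J (Fin g) ℂ := by
        rw [hX, Matrix.mul_smul, Matrix.smul_mul, hZ, smul_smul]

private lemma form_inv_h36 {g : ℕ} {c : ℂ} (hc : c ≠ 0) {X : Matrix (L2 g) (L2 g) ℂ}
    (hX : X.transpose * Matrix.J (Fin g) ℂ * X = c • Matrix.J (Fin g) ℂ) :
    ∃ X', X * X' = 1 ∧ X' * X = 1 ∧
      X'.transpose * Matrix.J (Fin g) ℂ * X' = c⁻¹ • Matrix.J (Fin g) ℂ := by
  obtain ⟨X', hX'⟩ : ∃ X' : Matrix (L2 g) (L2 g) ℂ, X' * X = 1 := by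
    refine ⟨c⁻¹ • (-(Matrix.J (Fin g) ℂ * X.transpose * Matrix.J (Fin g) ℂ)), ?_⟩
    rw [Matrix.smul_mul, Matrix.neg_mul, Matrix.mul_assoc, Matrix.mul_assoc,
      ← Matrix.mul_assoc X.transpose, hX, Matrix.mul_smul, Matrix.J_squared]
    simp only [smul_neg, neg_neg, smul_smul, inv_mul_cancel₀ hc, one_smul]
  have hX2 : X * X' = 1 := mul_eq_one_comm.1 hX'
  refine ⟨X', hX2, hX', ?_⟩
  have h1 : c • (X'.transpose * Matrix.J (Fin g) ℂ * X') = Matrix.J (Fin g) ℂ := by
    calc c • (X'.transpose * Matrix.J (Fin g) ℂ * X')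
        = X'.transpose * (c • Matrix.J (Fin g) ℂ) * X' := by
          rw [Matrix.mul_smul, Matrix.smul_mul]
      _ = X'.transpose * (X.transpose * Matrix.J (Fin g) ℂ * X) * X' := by rw [hX]
      _ = (X * X').transpose * Matrix.J (Fin g) ℂ * (X * X') := by
          rw [Matrix.transpose_mul]
          simp only [Matrix.mul_assoc]
      _ = Matrix.J (Fin g) ℂ := by
          rw [hX2, Matrix.transpose_one, Matrix.one_mul, Matrix.mul_one]
  calc X'.transpose * Matrix.J (Fin g) ℂ * X'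
      = c⁻¹ • (c • (X'.transpose * Matrix.J (Fin g) ℂ * X')) := by
        rw [smul_smul, inv_mul_cancel₀ hc, one_smul]
    _ = c⁻¹ • Matrix.J (Fin g) ℂ := by rw [h1]

private lemma form_diag_h36 {g : ℕ} {c : ℂ} {e : L2 g → ℂ}
    (h1 : ∀ i, e (Sum.inl i) * e (Sum.inr i) = c) :
    (Matrix.diagonal e).transpose * Matrix.J (Fin g) ℂ * Matrix.diagonal e = c • Matrix.J (Fin g) ℂ := by
  ext x y
  rw [Matrix.diagonal_transpose, Matrix.mul_diagonal, Matrix.diagonal_mul, Matrix.smul_apply, smul_eq_mul]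
  rcases x with i | i <;> rcases y with j | j
  · rw [J_ll]; ring
  · rw [J_lr]
    by_cases h : i = j
    · subst h
      rw [if_pos rfl, ← h1 i]
      ring
    · rw [if_neg h]; ring
  · rw [J_rl]
    by_cases h : i = j
    · subst h
      rw [if_pos rfl, ← h1 i]
      ring
    · rw [if_neg h]; ring
  · rw [J_rr]; ring

private lemma form_frob_h36 {d p : ℕ} {tor : Finset (Fin d)} {c : ℂ} {g : Matrix (Fin d) (Fin d) ℂ}
    (h : WT.InG p tor c g) :
    (WT.frob c g).transpose * Matrix.J (Fin d) ℂ * WT.frob c g = c • Matrix.J (Fin d) ℂ := by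
  have hu := h.isUnit
  unfold WT.frob Matrix.J
  rw [Matrix.fromBlocks_transpose, Matrix.fromBlocks_multiply, Matrix.fromBlocks_multiply,
    Matrix.fromBlocks_smul]
  congr 1
  · simp
  · simp only [Matrix.transpose_zero, Matrix.mul_zero, Matrix.zero_mul, Matrix.mul_one,
      zero_add, add_zero, Matrix.mul_neg, Matrix.mul_smul, Matrix.neg_mul]
    rw [← Matrix.transpose_mul, Matrix.nonsing_inv_mul _ hu, Matrix.transpose_one, smul_neg]
  · simp only [Matrix.transpose_zero, Matrix.mul_zero, Matrix.zero_mul, Matrix.mul_one,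
      zero_add, add_zero, Matrix.transpose_smul, Matrix.transpose_transpose, Matrix.smul_mul]
    rw [Matrix.nonsing_inv_mul _ hu]
  · simp

lemma inG_one (k : Kind) : k.InG 1 1 := by
  cases k with
  | sp g =>
    refine ⟨one_ne_zero, ?_⟩
    rw [Matrix.transpose_one, Matrix.one_mul, Matrix.mul_one, one_smul]
  | cm =>
    refine ⟨one_ne_zero, 1, one_ne_zero, ?_⟩
    rw [← Matrix.diagonal_one]
    congr 1
    funext x
    rcases x with i | i <;> simp
  | weil p tor => exact ⟨1, WT.InG.one, WT.frob_one.symm⟩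

lemma inG_mul {k : Kind} {c c' : ℂ} {M M' : Matrix k.Ind k.Ind ℂ} (h : k.InG c M)
    (h' : k.InG c' M') : k.InG (c * c') (M * M') := by
  cases k with
  | sp g => exact ⟨mul_ne_zero h.1 h'.1, form_mul_h36 h.2 h'.2⟩
  | cm =>
    obtain ⟨hc, x, hx, hM⟩ := h
    obtain ⟨hc', x', hx', hM'⟩ := h'
    refine ⟨mul_ne_zero hc hc', x * x', mul_ne_zero hx hx', ?_⟩
    rw [hM, hM', Matrix.diagonal_mul_diagonal]
    congr 1
    funext y
    rcases y with i | i
    · rfl
    · simp only [Sum.elim_inr]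
      field_simp
  | weil p tor =>
    obtain ⟨g, hg, hM⟩ := h
    obtain ⟨g', hg', hM'⟩ := h'
    exact ⟨g * g', hg.mul hg', by rw [hM, hM', WT.frob_mul]⟩

lemma inG_inv {k : Kind} {c : ℂ} {M : Matrix k.Ind k.Ind ℂ} (h : k.InG c M) :
    ∃ M', M * M' = 1 ∧ M' * M = 1 ∧ k.InG c⁻¹ M' := by
  cases k with
  | sp g =>
    obtain ⟨X', h1, h2, h3⟩ := form_inv_h36 h.1 h.2
    exact ⟨X', h1, h2, inv_ne_zero h.1, h3⟩
  | cm =>
    obtain ⟨hc, x, hx, hM⟩ := h
    have e1 : ∀ (u v : ℂ), u ≠ 0 → v ≠ 0 → u * v = 1 → ∀ (a b : ℂ), a * b = 1 →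
        Matrix.diagonal (Sum.elim (fun _ : Fin 1 => u) (fun _ : Fin 1 => a)) *
          Matrix.diagonal (Sum.elim (fun _ : Fin 1 => v) (fun _ : Fin 1 => b)) =
          (1 : Matrix (Fin 1 ⊕ Fin 1) (Fin 1 ⊕ Fin 1) ℂ) := by
      intro u v _ _ huv a b hab
      rw [Matrix.diagonal_mul_diagonal, ← Matrix.diagonal_one]
      congr 1
      funext y
      rcases y with i | i
      · exact huv
      · exact hab
    refine ⟨Matrix.diagonal (Sum.elim (fun _ => x⁻¹) (fun _ => c⁻¹ / x⁻¹)), ?_, ?_,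
      inv_ne_zero hc, x⁻¹, inv_ne_zero hx, rfl⟩
    · rw [hM]
      exact e1 _ _ hx (inv_ne_zero hx) (mul_inv_cancel₀ hx) _ _ (by field_simp)
    · rw [hM]
      exact e1 _ _ (inv_ne_zero hx) hx (inv_mul_cancel₀ hx) _ _ (by field_simp)
  | weil p tor =>
    obtain ⟨g, hg, hM⟩ := h
    have hu := hg.isUnit
    refine ⟨WT.frob c⁻¹ g⁻¹, ?_, ?_, g⁻¹, hg.inv, rfl⟩
    · rw [hM, ← WT.frob_mul, mul_inv_cancel₀ hg.ne, Matrix.mul_nonsing_inv _ hu, WT.frob_one]
    · rw [hM, ← WT.frob_mul, inv_mul_cancel₀ hg.ne, Matrix.nonsing_inv_mul _ hu, WT.frob_one]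

lemma inG_form {k : Kind} {c : ℂ} {M : Matrix k.Ind k.Ind ℂ} (h : k.InG c M) :
    c ≠ 0 ∧ M.transpose * Matrix.J (Fin k.dim) ℂ * M = c • Matrix.J (Fin k.dim) ℂ := by
  cases k with
  | sp g => exact h
  | cm =>
    obtain ⟨hc, x, hx, hM⟩ := h
    refine ⟨hc, ?_⟩
    rw [hM]
    exact form_diag_h36 fun i => by
      simp only [Sum.elim_inl, Sum.elim_inr]
      exact mul_div_cancel₀ c hx
  | weil p tor =>
    obtain ⟨g, hg, hM⟩ := h
    refine ⟨hg.ne, ?_⟩
    rw [hM]
    exact form_frob_h36 hg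

lemma inG_zero {k : Kind} {c : ℂ} {M : Matrix k.Ind k.Ind ℂ} (h : k.InG c M) {x y : k.Ind}
    (hxy : x ≠ y) (h1 : ¬ (Main k x ∧ Main k y)) (h2 : ¬ (Main k x.swap ∧ Main k y.swap)) :
    M x y = 0 := by
  cases k with
  | sp g =>
    have hs : IsSp (Kind.sp g) := trivial
    exact absurd ⟨main_of_isSp hs x, main_of_isSp hs y⟩ h1
  | cm =>
    obtain ⟨hc, z, hz, hM⟩ := h
    rw [hM]
    exact Matrix.diagonal_apply_ne _ hxy
  | weil p tor =>
    obtain ⟨g, hg, hM⟩ := h
    rw [hM]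
    rcases x with i | i <;> rcases y with j | j
    · show g i j = 0
      refine hg.diag i j (fun h => hxy (by rw [h])) ?_
      by_contra hcon
      push Not at hcon
      exact h1 ⟨hcon.1, hcon.2⟩
    · rfl
    · rfl
    · show c * g⁻¹ j i = 0
      rw [hg.inv.diag j i (fun h => hxy (by rw [h])) ?_, mul_zero]
      by_contra hcon
      push Not at hcon
      exact h2 ⟨hcon.2, hcon.1⟩

lemma inG_diag {k : Kind} {c : ℂ} {e : k.Ind → ℂ} (h : k.InG c (Matrix.diagonal e)) :
    (∀ i, e (Sum.inl i) * e (Sum.inr i) = c) ∧ ProdRel k c e := by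
  constructor
  · intro i
    have h1 := (inG_form h).2
    have h2 := congrFun (congrFun h1 (Sum.inl i)) (Sum.inr i)
    rw [Matrix.diagonal_transpose, Matrix.mul_diagonal, Matrix.diagonal_mul, Matrix.smul_apply,
      smul_eq_mul, J_lr, if_pos rfl] at h2
    linear_combination -h2
  · cases k with
    | sp g => trivial
    | cm => trivial
    | weil p tor =>
      obtain ⟨g, hg, hM⟩ := h
      have h1 : g = Matrix.diagonal (fun i => e (Sum.inl i)) := by
        ext i j
        have h2 := congrFun (congrFun hM (Sum.inl i)) (Sum.inl j)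
        have h3 : WT.frob c g (Sum.inl i) (Sum.inl j) = g i j := rfl
        rw [h3] at h2
        rw [← h2]
        by_cases hij : i = j
        · subst hij
          rw [Matrix.diagonal_apply_eq, Matrix.diagonal_apply_eq]
        · rw [Matrix.diagonal_apply_ne _ hij, Matrix.diagonal_apply_ne _ (fun h => hij (Sum.inl.inj h))]
      have h2 := hg.det
      rw [h1, Matrix.det_diagonal] at h2
      exact h2

lemma inG_of_diag {k : Kind} {c : ℂ} (hc : c ≠ 0) {e : k.Ind → ℂ}
    (h1 : ∀ i, e (Sum.inl i) * e (Sum.inr i) = c) (h2 : ProdRel k c e) :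
    k.InG c (Matrix.diagonal e) := by
  have hne : ∀ i, e (Sum.inl i) ≠ 0 := fun i h => hc (by rw [← h1 i, h, zero_mul])
  have hr : ∀ i, e (Sum.inr i) = c / e (Sum.inl i) := fun i => by
    rw [← h1 i, mul_div_cancel_left₀ _ (hne i)]
  cases k with
  | sp g => exact ⟨hc, form_diag_h36 h1⟩
  | cm =>
    refine ⟨hc, e (Sum.inl 0), hne 0, ?_⟩
    congr 1
    funext x
    rcases x with i | i
    · rw [Subsingleton.elim i 0]; rfl
    · rw [Subsingleton.elim i 0]; exact hr 0
  | weil p tor =>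
    refine ⟨Matrix.diagonal (fun i => e (Sum.inl i)), ⟨hc, fun i j hij _ =>
      Matrix.diagonal_apply_ne _ hij, by rw [Matrix.det_diagonal]; exact h2⟩, ?_⟩
    rw [WT.frob_diagonal _ _ hne]
    congr 1
    funext x
    rcases x with i | i
    · rfl
    · exact hr i

end Pool.Agent.Helper71.PO
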