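import Pool.Agent.Helper71.PO.Kind

/-!
# PO: the group of the product (proved by helper71)
-/

set_option autoImplicit false
set_option linter.unusedSectionVars false

namespace Pool.Agent.Helper71.PO

open Pool.Agent.Helper48.GC8 Pool.Agent.Helper48.PW Pool.Agent.Helper71.OP

variable {B : Type} [Fintype B] [DecidableEq B] {k : B → Kind}

lemma inGroup_one : InGroup k 1 1 :=
  ⟨one_ne_zero, 1, fun b => inG_one (k b), Matrix.blockDiagonal'_one.symm⟩

lemma inGroup_mul {c c' : ℂ} {M M' : Matrix (Ind k) (Ind k) ℂ} (h : InGroup k c M)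
    (h' : InGroup k c' M') : InGroup k (c * c') (M * M') := by
  obtain ⟨hc, X, hX, rfl⟩ := h
  obtain ⟨hc', X', hX', rfl⟩ := h'
  exact ⟨mul_ne_zero hc hc', fun b => X b * X' b, fun b => inG_mul (hX b) (hX' b),
    (Matrix.blockDiagonal'_mul X X').symm⟩

lemma inGroup_inv {c : ℂ} {M : Matrix (Ind k) (Ind k) ℂ} (h : InGroup k c M) :
    ∃ M', M * M' = 1 ∧ M' * M = 1 ∧ InGroup k c⁻¹ M' := by
  obtain ⟨hc, X, hX, rfl⟩ := h
  choose X' h1 h2 h3 using fun b => inG_inv (hX b)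
  refine ⟨Matrix.blockDiagonal' X', ?_, ?_, inv_ne_zero hc, X', h3, rfl⟩
  · rw [← Matrix.blockDiagonal'_mul, ← Matrix.blockDiagonal'_one]
    congr 1
    funext b
    exact h1 b
  · rw [← Matrix.blockDiagonal'_mul, ← Matrix.blockDiagonal'_one]
    congr 1
    funext b
    exact h2 b

lemma GT.one : GT k 1 1 := by
  unfold GT
  rw [map_one]
  exact inGroup_one

lemma GT.mul {c c' : ℂ} {X X' : Matrix (L2 (gt k)) (L2 (gt k)) ℂ} (h : GT k c X)
    (h' : GT k c' X') : GT k (c * c') (X * X') := by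
  unfold GT
  rw [map_mul]
  exact inGroup_mul h h'

lemma GT.inv {c : ℂ} {X : Matrix (L2 (gt k)) (L2 (gt k)) ℂ} (h : GT k c X) :
    ∃ X', X * X' = 1 ∧ X' * X = 1 ∧ GT k c⁻¹ X' := by
  obtain ⟨M', h1, h2, h3⟩ := inGroup_inv h
  refine ⟨rei k M', ?_, ?_, ?_⟩
  · have h4 := congrArg (rei k) h1
    rw [map_mul, AlgEquiv.apply_symm_apply, map_one] at h4
    exact h4
  · have h4 := congrArg (rei k) h2
    rw [map_mul, AlgEquiv.apply_symm_apply, map_one] at h4
    exact h4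
  · unfold GT
    rw [AlgEquiv.symm_apply_apply]
    exact h3

lemma GT.ne {c : ℂ} {X : Matrix (L2 (gt k)) (L2 (gt k)) ℂ} (h : GT k c X) : c ≠ 0 := h.1

/-- The entries in terms of the blocks. -/
lemma GT.exists_blocks {c : ℂ} {X : Matrix (L2 (gt k)) (L2 (gt k)) ℂ} (h : GT k c X) :
    ∃ Y : ∀ b, Matrix (k b).Ind (k b).Ind ℂ, (∀ b, (k b).InG c (Y b)) ∧
      (∀ b x y, X (sg k ⟨b, x⟩) (sg k ⟨b, y⟩) = Y b x y) ∧
      ∀ a b x y, a ≠ b → X (sg k ⟨a, x⟩) (sg k ⟨b, y⟩) = 0 := by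
  obtain ⟨hc, Y, hY, hX⟩ := h
  refine ⟨Y, hY, fun b x y => ?_, fun a b x y hab => ?_⟩
  · rw [← rei_symm_apply k X ⟨b, x⟩ ⟨b, y⟩, hX, Matrix.blockDiagonal'_apply_eq]
  · rw [← rei_symm_apply k X ⟨a, x⟩ ⟨b, y⟩, hX, Matrix.blockDiagonal'_apply_ne _ _ _ hab]

lemma GT.form {c : ℂ} {X : Matrix (L2 (gt k)) (L2 (gt k)) ℂ} (h : GT k c X) :
    X.transpose * Matrix.J (Fin (gt k)) ℂ * X = c • Matrix.J (Fin (gt k)) ℂ := by
  obtain ⟨Y, hY, h1, h2⟩ := h.exists_blocks
  -- the sum over the letters is a sum over the blocks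
  have hsum : ∀ f : L2 (gt k) → ℂ, ∑ r, f r = ∑ b, ∑ x : (k b).Ind, f (sg k ⟨b, x⟩) := by
    intro f
    rw [← Fintype.sum_sigma', ← (sg k).sum_comp]
  ext r s
  obtain ⟨a, x, rfl⟩ := sg_surj k r
  obtain ⟨b, y, rfl⟩ := sg_surj k s
  have key : (X.transpose * Matrix.J (Fin (gt k)) ℂ * X) (sg k ⟨a, x⟩) (sg k ⟨b, y⟩) =
      ∑ z : (k b).Ind, (∑ w : (k a).Ind, Y a w x *
        Matrix.J (Fin (gt k)) ℂ (sg k ⟨a, w⟩) (sg k ⟨b, z⟩)) * Y b z y := by
    rw [Matrix.mul_apply, hsum, Finset.sum_eq_single b]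
    · refine Finset.sum_congr rfl fun z _ => ?_
      rw [h1, Matrix.mul_apply, hsum, Finset.sum_eq_single a]
      · congr 1
        refine Finset.sum_congr rfl fun w _ => ?_
        rw [Matrix.transpose_apply, h1]
      · intro a' _ ha'
        refine Finset.sum_eq_zero fun w _ => ?_
        rw [Matrix.transpose_apply, h2 _ _ _ _ ha', zero_mul]
      · intro h'; exact absurd (Finset.mem_univ _) h'
    · intro b' _ hb'
      refine Finset.sum_eq_zero fun z _ => ?_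
      rw [h2 _ _ _ _ hb', mul_zero]
    · intro h'; exact absurd (Finset.mem_univ _) h'
  rw [key, Matrix.smul_apply, smul_eq_mul]
  by_cases hab : a = b
  · subst hab
    have h3 := congrFun (congrFun (inG_form (hY a)).2 x) y
    rw [Matrix.smul_apply, smul_eq_mul, Matrix.mul_apply] at h3
    rw [sg_J, ← h3]
    refine Finset.sum_congr rfl fun z _ => ?_
    rw [Matrix.mul_apply]
    congr 1
    refine Finset.sum_congr rfl fun w _ => ?_
    rw [Matrix.transpose_apply, sg_J]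
  · rw [sg_J_ne k hab, mul_zero]
    refine Finset.sum_eq_zero fun z _ => ?_
    rw [Finset.sum_eq_zero, zero_mul]
    intro w _
    rw [sg_J_ne k hab, mul_zero]

lemma GT.cls {c : ℂ} {X : Matrix (L2 (gt k)) (L2 (gt k)) ℂ} (h : GT k c X) (r s : L2 (gt k))
    (hrs : cl k r ≠ cl k s) : X r s = 0 := by
  obtain ⟨Y, hY, h1, h2⟩ := h.exists_blocks
  obtain ⟨a, x, rfl⟩ := sg_surj k r
  obtain ⟨b, y, rfl⟩ := sg_surj k s
  by_cases hab : a = b
  · subst hab
    rw [h1]
    rw [cl_sg, cl_sg] at hrs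
    refine inG_zero (hY a) ?_ ?_ ?_
    · rintro rfl
      exact hrs rfl
    · rintro ⟨h3, h4⟩
      apply hrs
      unfold tcl
      rw [if_pos h3, if_pos h4]
    · rintro ⟨h3, h4⟩
      by_cases h5 : Main (k a) x
      · by_cases h6 : Main (k a) y
        · apply hrs
          unfold tcl
          rw [if_pos h5, if_pos h6]
        · -- all letters of a symplectic block are main
          exact h6 (main_of_both h5 h3 y)
      · by_cases h6 : Main (k a) y
        · exact h5 (main_of_both h6 h4 x)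
        · apply hrs
          unfold tcl
          rw [if_neg h5, if_neg h6, if_pos h3, if_pos h4]
  · exact h2 _ _ _ _ hab

lemma GT.diag {c : ℂ} {e : L2 (gt k) → ℂ} (h : GT k c (Matrix.diagonal e)) :
    (∀ i, e (Sum.inl i) * e (Sum.inr i) = c) ∧
      ∀ b, ProdRel (k b) c (fun x => e (sg k ⟨b, x⟩)) := by
  obtain ⟨Y, hY, h1, -⟩ := h.exists_blocks
  have h2 : ∀ b, Y b = Matrix.diagonal (fun x => e (sg k ⟨b, x⟩)) := by
    intro b
    ext x y
    rw [← h1, Matrix.diagonal_apply, Matrix.diagonal_apply]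
    by_cases hxy : x = y
    · subst hxy
      simp
    · rw [if_neg hxy, if_neg]
      intro h3
      exact hxy (eq_of_heq (Sigma.mk.inj ((sg k).injective h3)).2)
  have h3 : ∀ b, (∀ i, e (sg k ⟨b, Sum.inl i⟩) * e (sg k ⟨b, Sum.inr i⟩) = c) ∧
      ProdRel (k b) c (fun x => e (sg k ⟨b, x⟩)) := by
    intro b
    have h4 := hY b
    rw [h2 b] at h4
    exact inG_diag h4
  refine ⟨fun j => ?_, fun b => (h3 b).2⟩
  obtain ⟨b, i, rfl⟩ := eg_surj k j
  exact (h3 b).1 i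

end Pool.Agent.Helper71.PO
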