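import Pool.Agent.Helper71.PO.Prod

/-!
# Transport of strong irreducibility (block PO-TIRR)

As `stab2_strIrr` in `Helper71/OP/Stab2.lean`.  Let `T : (Ind k → ℂ) ≃ₗ (L2 (gt k) → ℂ)` be
`T v r = v ((sg k).symm r)` (`LinearEquiv.funCongrLeft ℂ ℂ (sg k).symm`) and
`Φ = T⁻¹ ∘ toLin' S : (L2 (gt k) → ℂ) ≃ₗ (Ind k → ℂ)`.  It maps `blk (cl k) (inr (b, true))` onto
`mainSpace k b`: `T` identifies the two (`cl_sg`, `tcl`), and `S`, `S'` preserve
`blk (cl k) c` (`GT.cls`).  For a finite set `Q` of proper nonzero subspaces of the block which is permuted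
by the `S' * rei k Z * S`, `Z ∈ 𝓝`, the set of the `P.map Φ`, `P ∈ Q`, is permuted by the `Z`:
`Z (Φ v) = Φ (S' (rei k Z) S v)`, and consists of proper nonzero subspaces of `mainSpace k b`.
-/

set_option autoImplicit false
set_option linter.unusedSectionVars false

namespace Pool.Agent.Helper71.PO

open Function Pool.Agent.Helper48.GC8 Pool.Agent.Helper48.PW Pool.Agent.Helper71.OP

variable {B : Type} [Fintype B] [DecidableEq B] {k : B → Kind}

lemma tcl_true {x : Ind k} {b : B} :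
    tcl k x = Sum.inr (b, true) ↔ ∃ y, Main (k b) y ∧ x = ⟨b, y⟩ := by
  constructor
  · intro h
    unfold tcl at h
    by_cases h1 : Main (k x.1) x.2
    · rw [if_pos h1] at h
      have h2 : x.1 = b := congrArg Prod.fst (Sum.inr_injective h)
      subst h2
      exact ⟨x.2, h1, rfl⟩
    · rw [if_neg h1] at h
      by_cases h2 : Main (k x.1) x.2.swap
      · rw [if_pos h2] at h
        exact absurd (congrArg Prod.snd (Sum.inr_injective h)) (by simp)
      · rw [if_neg h2] at h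
        exact absurd h Sum.inl_ne_inr
  · rintro ⟨y, hy, rfl⟩
    unfold tcl
    rw [if_pos hy]

/-- The map `v ↦ (S v) ∘ sg`. -/
private noncomputable def phi (S : Matrix (L2 (gt k)) (L2 (gt k)) ℂ) :
    (L2 (gt k) → ℂ) →ₗ[ℂ] (Ind k → ℂ) :=
  (LinearMap.funLeft ℂ ℂ (sg k)).comp (Matrix.toLin' S)

private lemma phi_apply (S : Matrix (L2 (gt k)) (L2 (gt k)) ℂ) (v : L2 (gt k) → ℂ) (x : Ind k) :
    phi S v x = S.mulVec v (sg k x) := rfl

private lemma mulVec_rei (Z : Matrix (Ind k) (Ind k) ℂ) (w : L2 (gt k) → ℂ) (x : Ind k) :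
    (rei k Z).mulVec w (sg k x) = Z.mulVec (fun y => w (sg k y)) x := by
  rw [Matrix.mulVec, Matrix.mulVec, dotProduct, dotProduct, ← (sg k).sum_comp]
  refine Finset.sum_congr rfl fun y _ => ?_
  rw [rei_apply]

private lemma blk_mul {c : Ind k ⊕ (B × Bool)} {X : Matrix (L2 (gt k)) (L2 (gt k)) ℂ} {m : ℂ}
    (hX : GT k m X) {v : L2 (gt k) → ℂ} (hv : v ∈ blk (cl k) c) : X.mulVec v ∈ blk (cl k) c := by
  rw [mem_blk] at hv ⊢
  intro r hr
  rw [Matrix.mulVec, dotProduct]
  refine Finset.sum_eq_zero fun s _ => ?_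
  by_cases hs : cl k s = c
  · rw [hX.cls r s (by rw [hs]; exact hr), zero_mul]
  · rw [hv s hs, mul_zero]

theorem strIrr_transport (𝓝 : Set (Matrix (Ind k) (Ind k) ℂ)) (b : B)
    (hirr : ∀ Q : Set (Submodule ℂ (Ind k → ℂ)), Q.Finite →
      (∀ P ∈ Q, P ≠ ⊥ ∧ P < mainSpace k b) →
      (∀ Z ∈ 𝓝, ∀ P ∈ Q, P.map (Matrix.toLin' Z) ∈ Q) → Q = ∅)
    {S S' : Matrix (L2 (gt k)) (L2 (gt k)) ℂ} {c c' : ℂ} (hS : GT k c S) (hS' : GT k c' S')
    (h1 : S * S' = 1) (h2 : S' * S = 1) :
    StrIrr (cl k) {X | ∃ Z ∈ 𝓝, X = S' * rei k Z * S} (Sum.inr (b, true)) := by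
  intro Q hQfin hQ hQM
  have hinj : Injective (phi S : (L2 (gt k) → ℂ) →ₗ[ℂ] (Ind k → ℂ)) := by
    intro v w hvw
    have h3 : S.mulVec v = S.mulVec w := by
      funext r
      obtain ⟨b', x, rfl⟩ := sg_surj k r
      have := congrFun hvw ⟨b', x⟩
      rw [phi_apply, phi_apply] at this
      exact this
    have h4 := congrArg S'.mulVec h3
    rw [Matrix.mulVec_mulVec, Matrix.mulVec_mulVec, h2, Matrix.one_mulVec, Matrix.one_mulVec] at h4
    exact h4
  have hmap : (blk (cl k) (Sum.inr (b, true))).map (phi S) = mainSpace k b := by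
    apply le_antisymm
    · rintro _ ⟨v, hv, rfl⟩
      intro x hx
      rw [phi_apply]
      apply blk_mul hS hv
      rw [cl_sg]
      exact fun h => hx (tcl_true.1 h)
    · intro v hv
      have hw : (fun r => v ((sg k).symm r)) ∈ blk (cl k) (Sum.inr (b, true)) := by
        rw [mem_blk]
        intro r hr
        exact hv _ fun h => hr (tcl_true.2 h)
      refine ⟨S'.mulVec (fun r => v ((sg k).symm r)), blk_mul hS' hw, ?_⟩
      funext x
      rw [phi_apply, Matrix.mulVec_mulVec, h1, Matrix.one_mulVec, Equiv.symm_apply_apply]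
  have hkey := hirr ((fun P : Submodule ℂ (L2 (gt k) → ℂ) => P.map (phi S)) '' Q)
    (hQfin.image _) (by
      rintro _ ⟨P, hP, rfl⟩
      obtain ⟨hP1, hP2⟩ := hQ P hP
      refine ⟨?_, ?_⟩
      · intro h0
        apply hP1
        exact Submodule.map_injective_of_injective hinj (h0.trans (Submodule.map_bot _).symm)
      · have h3 := Submodule.map_strictMono_of_injective hinj hP2
        rw [hmap] at h3
        exact h3) (by
      rintro Z hZ _ ⟨P, hP, rfl⟩
      refine ⟨P.map (Matrix.toLin' (S' * rei k Z * S)), hQM _ ⟨Z, hZ, rfl⟩ P hP, ?_⟩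
      simp only
      rw [← Submodule.map_comp, ← Submodule.map_comp]
      congr 1
      refine LinearMap.ext fun v => funext fun x => ?_
      rw [LinearMap.comp_apply, LinearMap.comp_apply, phi_apply, Matrix.toLin'_apply,
        Matrix.toLin'_apply, Matrix.mulVec_mulVec, ← Matrix.mul_assoc, ← Matrix.mul_assoc, h1,
        Matrix.one_mul, ← Matrix.mulVec_mulVec, mulVec_rei]
      rfl)
  rw [Set.image_eq_empty] at hkey
  exact hkey

end Pool.Agent.Helper71.PO
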