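import Pool.Agent.Helper71.PO.Base

/-!
# The Lie algebra of the torus (block PO-TL)

Let `u = t - t₀`: `u (inl j) + u (inr j) = 0`, `u = 0` at the torus letters, and `∑ i, u (inl i) = 0`
in the blocks of Weil type.  `diagonal u = ∑ j, u (inl j) • rt (inl j) (inl j)` (`diag_sum`:
`rt r r = single r r 1 - single r.swap r.swap 1`, see `stab2_diag_sum`, `stab2_rt_self` in
`Helper71/OP/Stab2.lean`, which may be copied).  The sum over `j` is the sum over the blocks `b` and
`i : Fin (k b).dim` (`eg k`, `Fintype.sum_sigma'`).  For each block the sum is in `L`: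
* `sp`: every `rt r r` is in `L` by `hsp` (all letters are main);
* `cm`: all `u (inl i)` vanish (`(k b).tor = univ`);
* `weil p tor`: if `tor = univ` all vanish.  Otherwise fix `i₀ ∉ tor`; as `∑ i, u (inl i) = 0`,
  `∑ i, u (inl i) • rt i i = ∑ i, u (inl i) • (rt i i - rt i₀ i₀)`, where `u (inl i) = 0` for
  `i ∈ tor`, and `rt i i - rt i₀ i₀ ∈ L` for `i ∉ tor` by `hco`.
The classes: `cl_sg`, `tcl`, `Main` (`inl i` is main iff `i ∉ tor`).
-/

set_option autoImplicit false

namespace Pool.Agent.Helper71.PO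

open Pool.Agent.Helper48.GC8 Pool.Agent.Helper48.PW Pool.Agent.Helper71.OP

variable {B : Type} [Fintype B] [DecidableEq B] {k : B → Kind}

private lemma stab65_J_anti {g : ℕ} (r : L2 g) :
    Matrix.J (Fin g) ℂ r.swap r * Matrix.J (Fin g) ℂ r r.swap = -1 := by
  rcases r with i | i
  · rw [Sum.swap_inl, J_lr, J_rl]
    simp
  · rw [Sum.swap_inr, J_rl, J_lr]
    simp

private lemma stab65_rt_self {g : ℕ} (r : L2 g) :
    rt r r = Matrix.single r r (1 : ℂ) - Matrix.single r.swap r.swap (1 : ℂ) := by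
  unfold rt
  rw [stab65_J_anti, neg_one_smul, sub_eq_add_neg]

private lemma stab65_diag_sum {g : ℕ} {t : L2 g → ℂ} (ht : ∀ i, t (Sum.inl i) + t (Sum.inr i) = 0) :
    Matrix.diagonal t = ∑ i, t (Sum.inl i) • rt (Sum.inl i) (Sum.inl i) := by
  classical
  have h : ∀ i : Fin g, rt (Sum.inl i) (Sum.inl i) =
      Matrix.diagonal (fun r : L2 g => if r = Sum.inl i then (1 : ℂ) else
        if r = Sum.inr i then -1 else 0) := by
    intro i
    rw [stab65_rt_self]
    ext r s
    rw [Matrix.sub_apply, Matrix.single_apply, Matrix.single_apply, Matrix.diagonal_apply,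
      Sum.swap_inl]
    by_cases hrs : r = s
    · subst hrs
      rw [if_pos rfl]
      by_cases h1 : r = Sum.inl i
      · subst h1
        simp
      · by_cases h2 : r = Sum.inr i
        · subst h2
          simp
        · simp [h1, h2, Ne.symm h1, Ne.symm h2]
    · rw [if_neg hrs, if_neg, if_neg, sub_zero]
      · rintro ⟨h1, h2⟩
        exact hrs (h1.symm.trans h2)
      · rintro ⟨h1, h2⟩
        exact hrs (h1.symm.trans h2)
  ext r s
  rw [Matrix.sum_apply]
  simp only [h, Matrix.smul_apply, smul_eq_mul, Matrix.diagonal_apply]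
  by_cases hrs : r = s
  · subst hrs
    simp only [if_true]
    rcases r with j | j
    · rw [Finset.sum_eq_single j]
      · simp
      · intro i _ hi
        have h1 : (Sum.inl j : L2 g) ≠ Sum.inl i := fun e => hi (Sum.inl_injective e).symm
        simp [h1]
      · intro h1
        exact absurd (Finset.mem_univ _) h1
    · rw [Finset.sum_eq_single j]
      · simp
        linear_combination ht j
      · intro i _ hi
        have h1 : (Sum.inr j : L2 g) ≠ Sum.inr i := fun e => hi (Sum.inr_injective e).symm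
        simp [h1]
      · intro h1
        exact absurd (Finset.mem_univ _) h1
  · simp [hrs]

private lemma sumRel65 {K : Kind} {c : ℂ} {e e₀ : K.Ind → ℂ} (h : SumRel K c e) (h₀ : SumRel K c e₀)
    (hs : ¬ IsSp K) (ht : K.tor ≠ Finset.univ) :
    ∑ i : Fin K.dim, (e (Sum.inl i) - e₀ (Sum.inl i)) = 0 := by
  cases K with
  | sp g => exact absurd trivial hs
  | cm => exact absurd rfl ht
  | weil p tor =>
    rw [Finset.sum_sub_distrib]
    have h1 : ∑ i : Fin (2 * p), e (Sum.inl i) = p * c := h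
    have h2 : ∑ i : Fin (2 * p), e₀ (Sum.inl i) = p * c := h₀
    exact sub_eq_zero.2 (h1.trans h2.symm)

private lemma cl_main65 {b : B} {x : (k b).Ind} (h : Main (k b) x) :
    cl k (sg k ⟨b, x⟩) = Sum.inr (b, true) := by
  classical
  rw [cl_sg]
  unfold tcl
  exact if_pos h

theorem torus_mem {L : Submodule ℂ (Matrix (L2 (gt k)) (L2 (gt k)) ℂ)}
    (hsp : ∀ b r, cl k r = Sum.inr (b, true) → cl k r.swap = Sum.inr (b, true) → rt r r ∈ L)
    (hco : ∀ b r s, cl k r = Sum.inr (b, true) → cl k s = Sum.inr (b, true) →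
      rt r r - rt s s ∈ L)
    {c : ℂ} {t t₀ : L2 (gt k) → ℂ} (ht : TT k c t) (ht₀ : TT k c t₀)
    (h₀ : Matrix.diagonal t₀ ∈ L)
    (heq : ∀ b, ∀ i ∈ (k b).tor, t (sg k ⟨b, Sum.inl i⟩) = t₀ (sg k ⟨b, Sum.inl i⟩)) :
    Matrix.diagonal t ∈ L := by
  classical
  set u : L2 (gt k) → ℂ := fun r => t r - t₀ r with hu
  have hu0 : ∀ i, u (Sum.inl i) + u (Sum.inr i) = 0 := by
    intro i
    simp only [hu]
    linear_combination ht.1 i - ht₀.1 i
  have h1 : Matrix.diagonal t = Matrix.diagonal t₀ + Matrix.diagonal u := by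
    rw [Matrix.diagonal_add]
    congr 1
    ext r
    simp only [hu]
    ring
  rw [h1]
  refine L.add_mem h₀ ?_
  rw [stab65_diag_sum hu0, ← (eg k).sum_comp, Fintype.sum_sigma]
  refine L.sum_mem fun b _ => ?_
  show ∑ i : Fin (k b).dim, u (sg k ⟨b, Sum.inl i⟩) • rt (sg k ⟨b, Sum.inl i⟩) (sg k ⟨b, Sum.inl i⟩) ∈ L
  by_cases hs : IsSp (k b)
  · refine L.sum_mem fun i _ => L.smul_mem _ ?_
    refine hsp b _ (cl_main65 (main_of_isSp hs _)) ?_
    rw [← sg_swap]
    exact cl_main65 (main_of_isSp hs _)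
  by_cases htor : (k b).tor = Finset.univ
  · refine L.sum_mem fun i _ => ?_
    have h2 : u (sg k ⟨b, Sum.inl i⟩) = 0 := by
      simp only [hu]
      rw [heq b i (by rw [htor]; exact Finset.mem_univ _), sub_self]
    rw [h2, zero_smul]
    exact L.zero_mem
  · obtain ⟨i₀, hi₀⟩ : ∃ i₀, i₀ ∉ (k b).tor := by
      by_contra hcon
      push Not at hcon
      exact htor (Finset.eq_univ_iff_forall.2 hcon)
    have hsum : ∑ i : Fin (k b).dim, u (sg k ⟨b, Sum.inl i⟩) = 0 :=
      sumRel65 (ht.2 b) (ht₀.2 b) hs htor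
    have h3 : ∑ i : Fin (k b).dim,
        u (sg k ⟨b, Sum.inl i⟩) • rt (sg k ⟨b, Sum.inl i⟩) (sg k ⟨b, Sum.inl i⟩) =
        ∑ i : Fin (k b).dim, u (sg k ⟨b, Sum.inl i⟩) •
          (rt (sg k ⟨b, Sum.inl i⟩) (sg k ⟨b, Sum.inl i⟩) -
            rt (sg k ⟨b, Sum.inl i₀⟩) (sg k ⟨b, Sum.inl i₀⟩)) := by
      simp only [smul_sub]
      rw [Finset.sum_sub_distrib, ← Finset.sum_smul, hsum, zero_smul, sub_zero]
    rw [h3]
    refine L.sum_mem fun i _ => ?_
    by_cases hi : i ∈ (k b).tor
    · have h2 : u (sg k ⟨b, Sum.inl i⟩) = 0 := by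
        simp only [hu]
        rw [heq b i hi, sub_self]
      rw [h2, zero_smul]
      exact L.zero_mem
    · exact L.smul_mem _ (hco b _ _ (cl_main65 ((main_inl i).2 hi)) (cl_main65 ((main_inl i₀).2 hi₀)))

end Pool.Agent.Helper71.PO
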