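import Pool.Agent.Helper71.PO.GenTot
import Pool.Agent.Helper71.PO.Exp
import Pool.Agent.Helper71.PO.TorusLie
import Pool.Agent.Helper71.PO.TIrr
import Pool.Agent.Helper71.PO.Prod
import Pool.Agent.Helper71.OP.Lie
import Pool.Agent.Helper71.OP.Dia
import Pool.Agent.Helper71.OP.Irr
import Pool.Agent.Helper71.OP.Tan

/-!
# PO: stable spaces of tensors are stable under the group (assembly by helper71)

The general lemmas are those of `Helper71/OP/Stab2.lean` (helper24, helper30 and others).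
-/

set_option autoImplicit false
set_option linter.unusedSectionVars false

namespace Pool.Agent.Helper71.PO

open Function Pool.Agent.Helper48.GC8 Pool.Agent.Helper48.PW Pool.Agent.Helper71.OP

section General

variable {g : ℕ}

private lemma po_mul_cl {κ' : Type} {cl : L2 g → κ'} {X Z : Matrix (L2 g) (L2 g) ℂ}
    (hX : ∀ r s, cl r ≠ cl s → X r s = 0) (hZ : ∀ r s, cl r ≠ cl s → Z r s = 0) :
    ∀ r s, cl r ≠ cl s → (X * Z) r s = 0 := by
  intro r s hrs
  rw [Matrix.mul_apply]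
  apply Finset.sum_eq_zero
  intro k _
  by_cases h : cl r = cl k
  · rw [hZ k s (h ▸ hrs), mul_zero]
  · rw [hX r k h, zero_mul]

private lemma po_gsp_bracket {κ' : Type} {cl : L2 g → κ'} {Y Z : Matrix (L2 g) (L2 g) ℂ}
    (hY : Y ∈ gsp cl) (hZ : Z ∈ gsp cl) : Y * Z - Z * Y ∈ gsp cl := by
  rw [mem_gsp] at hY hZ ⊢
  obtain ⟨⟨c, hc⟩, hY⟩ := hY
  obtain ⟨⟨d, hd⟩, hZ⟩ := hZ
  refine ⟨⟨0, ?_⟩, ?_⟩
  · have hc' : Y.transpose * Matrix.J (Fin g) ℂ =
        c • Matrix.J (Fin g) ℂ - Matrix.J (Fin g) ℂ * Y := by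
      rw [← hc]; abel
    have hd' : Z.transpose * Matrix.J (Fin g) ℂ =
        d • Matrix.J (Fin g) ℂ - Matrix.J (Fin g) ℂ * Z := by
      rw [← hd]; abel
    have e1 : (Y * Z).transpose * Matrix.J (Fin g) ℂ =
        (c * d) • Matrix.J (Fin g) ℂ - c • (Matrix.J (Fin g) ℂ * Z) - d • (Matrix.J (Fin g) ℂ * Y)
          + Matrix.J (Fin g) ℂ * Z * Y := by
      rw [Matrix.transpose_mul, Matrix.mul_assoc, hc', Matrix.mul_sub, Matrix.mul_smul, hd',
        ← Matrix.mul_assoc, hd', smul_sub, smul_smul, Matrix.sub_mul, Matrix.smul_mul]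
      abel
    have e2 : (Z * Y).transpose * Matrix.J (Fin g) ℂ =
        (c * d) • Matrix.J (Fin g) ℂ - c • (Matrix.J (Fin g) ℂ * Z) - d • (Matrix.J (Fin g) ℂ * Y)
          + Matrix.J (Fin g) ℂ * Y * Z := by
      rw [Matrix.transpose_mul, Matrix.mul_assoc, hd', Matrix.mul_sub, Matrix.mul_smul, hc',
        ← Matrix.mul_assoc, hc', smul_sub, smul_smul, Matrix.sub_mul, Matrix.smul_mul,
        mul_comm d c]
      abel
    rw [Matrix.transpose_sub, Matrix.sub_mul, e1, e2, Matrix.mul_sub, ← Matrix.mul_assoc,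
      ← Matrix.mul_assoc, zero_smul]
    abel
  · intro r s hrs
    rw [Matrix.sub_apply, po_mul_cl hY hZ r s hrs, po_mul_cl hZ hY r s hrs, sub_zero]

private lemma po_gsp_conj {κ' : Type} {cl : L2 g → κ'} {m : ℂ}
    {X X' Y : Matrix (L2 g) (L2 g) ℂ} (h1 : X * X' = 1)
    (hX : X.transpose * Matrix.J (Fin g) ℂ * X = m • Matrix.J (Fin g) ℂ)
    (hXc : ∀ r s, cl r ≠ cl s → X r s = 0) (hXc' : ∀ r s, cl r ≠ cl s → X' r s = 0)
    (hY : Y ∈ gsp cl) : X * Y * X' ∈ gsp cl := by
  rw [mem_gsp] at hY ⊢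
  obtain ⟨⟨c, hc⟩, hY⟩ := hY
  have h1t : X'.transpose * X.transpose = 1 := by
    rw [← Matrix.transpose_mul, h1, Matrix.transpose_one]
  refine ⟨⟨c, ?_⟩, po_mul_cl (po_mul_cl hXc hY) hXc'⟩
  have e1 : (X * Y * X').transpose * Matrix.J (Fin g) ℂ =
      m • (X'.transpose * (Y.transpose * Matrix.J (Fin g) ℂ) * X') := by
    calc (X * Y * X').transpose * Matrix.J (Fin g) ℂ
        = X'.transpose * Y.transpose * (X.transpose * Matrix.J (Fin g) ℂ * (X * X')) := by
          rw [h1, Matrix.mul_one, Matrix.transpose_mul, Matrix.transpose_mul]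
          simp only [Matrix.mul_assoc]
      _ = X'.transpose * Y.transpose * ((X.transpose * Matrix.J (Fin g) ℂ * X) * X') := by
          simp only [Matrix.mul_assoc]
      _ = _ := by
          rw [hX, Matrix.smul_mul, Matrix.mul_smul]
          simp only [Matrix.mul_assoc]
  have e2 : Matrix.J (Fin g) ℂ * (X * Y * X') =
      m • (X'.transpose * (Matrix.J (Fin g) ℂ * Y) * X') := by
    calc Matrix.J (Fin g) ℂ * (X * Y * X')
        = (X'.transpose * X.transpose) * (Matrix.J (Fin g) ℂ * (X * Y * X')) := by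
          rw [h1t, Matrix.one_mul]
      _ = X'.transpose * ((X.transpose * Matrix.J (Fin g) ℂ * X) * Y * X') := by
          simp only [Matrix.mul_assoc]
      _ = _ := by
          rw [hX, Matrix.smul_mul, Matrix.smul_mul, Matrix.mul_smul]
          simp only [Matrix.mul_assoc]
  have e3 : m • (X'.transpose * Matrix.J (Fin g) ℂ * X') = Matrix.J (Fin g) ℂ := by
    calc m • (X'.transpose * Matrix.J (Fin g) ℂ * X')
        = X'.transpose * (m • Matrix.J (Fin g) ℂ) * X' := by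
          rw [Matrix.mul_smul, Matrix.smul_mul]
      _ = X'.transpose * (X.transpose * Matrix.J (Fin g) ℂ * X) * X' := by rw [hX]
      _ = (X * X').transpose * Matrix.J (Fin g) ℂ * (X * X') := by
          rw [Matrix.transpose_mul]
          simp only [Matrix.mul_assoc]
      _ = Matrix.J (Fin g) ℂ := by rw [h1, Matrix.transpose_one, Matrix.one_mul, Matrix.mul_one]
  rw [e1, e2, ← smul_add, ← Matrix.add_mul, ← Matrix.mul_add, hc, Matrix.mul_smul,
    Matrix.smul_mul, smul_comm, e3]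

/-- `pl0` as a linear map. -/
private noncomputable def po_pl0 : Matrix (L2 g) (L2 g) ℂ →ₗ[ℂ] Matrix (IP g) (IP g) ℂ where
  toFun := pl0
  map_add' := pl0_add
  map_smul' := fun c Y => by rw [pl0_smul, RingHom.id_apply]

private lemma po_diag_gsp {κ' : Type} {cl : L2 g → κ'} {t : L2 g → ℂ} {c : ℂ}
    (ht : ∀ i, t (Sum.inl i) + t (Sum.inr i) = c) : Matrix.diagonal t ∈ gsp cl := by
  rw [mem_gsp]
  refine ⟨⟨c, ?_⟩, fun r s hrs => ?_⟩
  · ext r s
    rw [Matrix.add_apply, Matrix.diagonal_transpose, Matrix.diagonal_mul, Matrix.mul_diagonal,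
      Matrix.smul_apply, smul_eq_mul]
    rcases r with i | i <;> rcases s with j | j
    · rw [J_ll]; ring
    · rw [J_lr]
      split_ifs with h
      · subst h
        have := ht i
        linear_combination (-1 : ℂ) * this
      · ring
    · rw [J_rl]
      split_ifs with h
      · subst h
        have := ht i
        linear_combination this
      · ring
    · rw [J_rr]; ring
  · apply Matrix.diagonal_apply_ne
    rintro rfl
    exact hrs rfl

private lemma po_J_sq (r : L2 g) :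
    Matrix.J (Fin g) ℂ r r.swap * Matrix.J (Fin g) ℂ r r.swap = 1 := by
  rcases r with i | i
  · rw [Sum.swap_inl, J_lr]
    simp
  · rw [Sum.swap_inr, J_rl]
    simp

private lemma po_J_anti (r : L2 g) :
    Matrix.J (Fin g) ℂ r.swap r * Matrix.J (Fin g) ℂ r r.swap = -1 := by
  rcases r with i | i
  · rw [Sum.swap_inl, J_lr, J_rl]
    simp
  · rw [Sum.swap_inr, J_rl, J_lr]
    simp

private lemma po_rt_self (r : L2 g) :
    rt r r = Matrix.single r r (1 : ℂ) - Matrix.single r.swap r.swap (1 : ℂ) := by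
  unfold rt
  rw [po_J_anti, neg_one_smul, sub_eq_add_neg]

private lemma po_rt_swap (r : L2 g) :
    rt r r.swap = (2 : ℂ) • Matrix.single r r.swap (1 : ℂ) := by
  unfold rt
  rw [Sum.swap_swap, po_J_sq, one_smul, two_smul]

private lemma po_rt_bracket (r : L2 g) :
    rt r r.swap * rt r.swap r - rt r.swap r * rt r r.swap = (4 : ℂ) • rt r r := by
  have h := po_rt_swap r.swap
  rw [Sum.swap_swap] at h
  rw [po_rt_swap, h, po_rt_self, Matrix.smul_mul, Matrix.mul_smul, Matrix.smul_mul,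
    Matrix.mul_smul, Matrix.single_mul_single_same, Matrix.single_mul_single_same, mul_one,
    smul_smul, smul_smul, ← smul_sub]
  norm_num

private lemma po_swap_ne (r : L2 g) : r.swap ≠ r := by
  rcases r with i | i <;> simp

private lemma po_swap_inj {r s : L2 g} (h : r.swap = s.swap) : r = s := by
  rw [← Sum.swap_swap r, h, Sum.swap_swap]

/-- The bracket of opposite root vectors. -/
private lemma po_rt_coroot {r s : L2 g} (h : s ≠ r.swap) :
    rt r s * rt s r - rt s r * rt r s = rt r r - rt s s := by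
  have h' : r ≠ s.swap := fun e => h (by rw [e, Sum.swap_swap])
  have e1 : Matrix.J (Fin g) ℂ s.swap s * Matrix.J (Fin g) ℂ r r.swap *
      (Matrix.J (Fin g) ℂ r.swap r * Matrix.J (Fin g) ℂ s s.swap) = 1 := by
    have h1 := po_J_anti (g := g) r
    have h2 := po_J_anti (g := g) s
    linear_combination (Matrix.J (Fin g) ℂ s.swap s * Matrix.J (Fin g) ℂ s s.swap) * h1 - h2
  have e2 : Matrix.J (Fin g) ℂ r.swap r * Matrix.J (Fin g) ℂ s s.swap *
      (Matrix.J (Fin g) ℂ s.swap s * Matrix.J (Fin g) ℂ r r.swap) = 1 := by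
    rw [← e1]; ring
  have z1 : Matrix.single r s (1 : ℂ) * Matrix.single r.swap s.swap (1 : ℂ) = 0 :=
    Matrix.single_mul_single_of_ne _ _ _ _ h _
  have z2 : Matrix.single s.swap r.swap (1 : ℂ) * Matrix.single s r (1 : ℂ) = 0 :=
    Matrix.single_mul_single_of_ne _ _ _ _ h.symm _
  have z3 : Matrix.single s r (1 : ℂ) * Matrix.single s.swap r.swap (1 : ℂ) = 0 :=
    Matrix.single_mul_single_of_ne _ _ _ _ h' _
  have z4 : Matrix.single r.swap s.swap (1 : ℂ) * Matrix.single r s (1 : ℂ) = 0 :=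
    Matrix.single_mul_single_of_ne _ _ _ _ h'.symm _
  rw [po_rt_self, po_rt_self]
  unfold rt
  simp only [Matrix.add_mul, Matrix.mul_add, Matrix.smul_mul, Matrix.mul_smul, smul_smul,
    Matrix.single_mul_single_same, z1, z2, z3, z4, mul_one, smul_zero, add_zero, zero_add, e1, e2,
    one_smul]
  abel

/-- The square of a root vector. -/
private lemma po_rt_sq {r s : L2 g} (hrs : r ≠ s) (a : ℂ) : (a • rt r s) * (a • rt r s) = 0 := by
  have h : r.swap ≠ s.swap := fun e => hrs (po_swap_inj e)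
  have z1 : Matrix.single r s (1 : ℂ) * Matrix.single r s (1 : ℂ) = 0 :=
    Matrix.single_mul_single_of_ne _ _ _ _ hrs.symm _
  have z2 : Matrix.single s.swap r.swap (1 : ℂ) * Matrix.single s.swap r.swap (1 : ℂ) = 0 :=
    Matrix.single_mul_single_of_ne _ _ _ _ h _
  have z3 : Matrix.single r s (1 : ℂ) * Matrix.single s.swap r.swap (1 : ℂ) = 0 :=
    Matrix.single_mul_single_of_ne _ _ _ _ (po_swap_ne s).symm _
  have z4 : Matrix.single s.swap r.swap (1 : ℂ) * Matrix.single r s (1 : ℂ) = 0 :=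
    Matrix.single_mul_single_of_ne _ _ _ _ (po_swap_ne r) _
  unfold rt
  simp only [Matrix.add_mul, Matrix.mul_add, Matrix.smul_mul, Matrix.mul_smul,
    z1, z2, z3, z4, smul_zero, add_zero]

/-- Infinitesimal transvections; the condition on the diagonal root vectors only in the class. -/
private lemma po_tv_mem {κ : Type} {cl : L2 g → κ} {L : Submodule ℂ (Matrix (L2 g) (L2 g) ℂ)}
    {c : κ} (hc : ∀ r, cl r = c → cl r.swap = c)
    (hrt : ∀ r s, r ≠ s → cl r = c → cl s = c → rt r s ∈ L) (hrr : ∀ r, cl r = c → rt r r ∈ L)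
    {v : L2 g → ℂ} (hv : v ∈ blk cl c) : tv v ∈ L := by
  have h := sum_rt (tv_form v)
  have h0 : ∀ r s, tv v r s ≠ 0 → cl r = c ∧ cl s = c := by
    intro r s hne
    unfold tv at hne
    rw [Matrix.vecMulVec_apply] at hne
    have h1 := left_ne_zero_of_mul hne
    have h2 := right_ne_zero_of_mul hne
    refine ⟨by_contra fun h' => h1 (hv r h'), by_contra fun h' => h2 ?_⟩
    rw [Matrix.mulVec, dotProduct]
    refine Finset.sum_eq_zero fun t _ => ?_
    by_cases ht : cl t = c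
    · have : Matrix.J (Fin g) ℂ s t = 0 := by
        by_contra hJ
        have hst : s = t.swap := by
          rcases s with i | i <;> rcases t with j | j
          · exact absurd (J_ll i j) hJ
          · rw [J_lr] at hJ
            by_cases hij : i = j
            · rw [hij]; rfl
            · rw [if_neg hij] at hJ; exact absurd rfl hJ
          · rw [J_rl] at hJ
            by_cases hij : i = j
            · rw [hij]; rfl
            · rw [if_neg hij] at hJ; exact absurd rfl hJ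
          · exact absurd (J_rr i j) hJ
        exact h' (by rw [hst]; exact hc t ht)
      rw [this, zero_mul]
    · rw [hv t ht, mul_zero]
  have h1 : (2 : ℂ) • tv v ∈ L := by
    rw [← h]
    refine L.sum_mem fun r _ => L.sum_mem fun s _ => ?_
    by_cases hne : tv v r s = 0
    · rw [hne, zero_smul]
      exact L.zero_mem
    · obtain ⟨h2, h3⟩ := h0 r s hne
      by_cases hrs : r = s
      · subst hrs
        exact L.smul_mem _ (hrr r h2)
      · exact L.smul_mem _ (hrt r s hrs h2 h3)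
  have h2 : tv v = (2 : ℂ)⁻¹ • ((2 : ℂ) • tv v) := by
    rw [smul_smul, inv_mul_cancel₀ two_ne_zero, one_smul]
  rw [h2]
  exact L.smul_mem _ h1

end General

variable {B : Type} [Fintype B] [DecidableEq B] {k : B → Kind}

private lemma po_tcl {x : Ind k} {b : B} (h : tcl k x = Sum.inr (b, true)) :
    x.1 = b ∧ Main (k x.1) x.2 := by
  unfold tcl at h
  by_cases h1 : Main (k x.1) x.2
  · rw [if_pos h1] at h
    exact ⟨congrArg Prod.fst (Sum.inr_injective h), h1⟩
  · rw [if_neg h1] at h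
    by_cases h2 : Main (k x.1) x.2.swap
    · rw [if_pos h2] at h
      exact absurd (congrArg Prod.snd (Sum.inr_injective h)) (by simp)
    · rw [if_neg h2] at h
      exact absurd h Sum.inl_ne_inr

theorem stable_of_generic (𝓝 : Set (Matrix (Ind k) (Ind k) ℂ))
    (hsim : ∀ Z ∈ 𝓝, ∃ c : ℂ, InGroup k c Z)
    (hirr : ∀ b, ∀ Q : Set (Submodule ℂ (Ind k → ℂ)), Q.Finite →
      (∀ P ∈ Q, P ≠ ⊥ ∧ P < mainSpace k b) →
      (∀ Z ∈ 𝓝, ∀ P ∈ Q, P.map (Matrix.toLin' Z) ∈ Q) → Q = ∅)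
    {q : ℂ} (hq : q ≠ 0) {M h : Matrix (Ind k) (Ind k) ℂ} {ev : Ind k → ℂ} (hM : M ∈ 𝓝)
    (hh : InGroup k 1 h) (heig : M * h = h * Matrix.diagonal ev)
    (hmul : ∀ b i, ev ⟨b, Sum.inl i⟩ * ev ⟨b, Sum.inr i⟩ = q)
    (hsid : Sidon (cl k) (fun r => ev ((sg k).symm r)))
    (hlog : ∀ (c : ℂ) (t : L2 (gt k) → ℂ), TT k c t → ∃ ψ, IsLog ψ ∧
      TT k c (fun r => ψ (ev ((sg k).symm r))) ∧
      ∀ b, ∀ i ∈ (k b).tor, ψ (ev ⟨b, Sum.inl i⟩) = t (sg k ⟨b, Sum.inl i⟩))
    (d : ℕ) (U : Submodule ℂ (Ten (Fin d) (IP (gt k))))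
    (hU : ∀ Z ∈ 𝓝, ∀ u ∈ U, rho Finset.univ (pl (rei k Z)) u ∈ U) :
    ∀ (c : ℂ) (X : Matrix (L2 (gt k)) (L2 (gt k)) ℂ), GT k c X →
      ∀ u ∈ U, rho Finset.univ (pl X) u ∈ U := by
  classical
  -- the base change
  set lam : L2 (gt k) → ℂ := fun r => ev ((sg k).symm r) with hlamdef
  set S := rei k h with hSdef
  have hS : GT k 1 S := by
    unfold GT
    rw [hSdef, AlgEquiv.symm_apply_apply]
    exact hh
  obtain ⟨S', hSS', hS'S, hS'⟩ := hS.inv
  rw [inv_one] at hS'
  have hA : ∀ (X Z : Matrix (L2 (gt k)) (L2 (gt k)) ℂ) (u : Ten (Fin d) (IP (gt k))),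
      rho Finset.univ (pl (X * Z)) u = rho Finset.univ (pl X) (rho Finset.univ (pl Z) u) := by
    intro X Z u
    rw [pl_mul, rho_mul]
    rfl
  have hA1 : ∀ u : Ten (Fin d) (IP (gt k)),
      rho Finset.univ (pl (1 : Matrix (L2 (gt k)) (L2 (gt k)) ℂ)) u = u := by
    intro u
    rw [pl_one, rho_one]
    rfl
  set U' : Submodule ℂ (Ten (Fin d) (IP (gt k))) := U.map (rho Finset.univ (pl S')) with hU'def
  have hU' : ∀ Z ∈ 𝓝, ∀ u ∈ U', rho Finset.univ (pl (S' * rei k Z * S)) u ∈ U' := by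
    rintro Z hZ _ ⟨u, hu, rfl⟩
    rw [← hA, Matrix.mul_assoc, hSS', Matrix.mul_one, hA]
    exact ⟨_, hU Z hZ u hu, rfl⟩
  have hlam : ∀ i, lam (Sum.inl i) * lam (Sum.inr i) = q := by
    intro j
    obtain ⟨b, i, rfl⟩ := eg_surj k j
    have h1 : (sg k).symm (Sum.inl (eg k ⟨b, i⟩)) = ⟨b, Sum.inl i⟩ := by
      rw [← sg_inl, Equiv.symm_apply_apply]
    have h2 : (sg k).symm (Sum.inr (eg k ⟨b, i⟩)) = ⟨b, Sum.inr i⟩ := by
      rw [← sg_inr, Equiv.symm_apply_apply]
    change ev ((sg k).symm _) * ev ((sg k).symm _) = q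
    rw [h1, h2]
    exact hmul b i
  have hreid : rei k (Matrix.diagonal ev) = Matrix.diagonal lam := by
    ext r s
    change (Matrix.diagonal ev).submatrix (sg k).symm (sg k).symm r s = _
    rw [Matrix.submatrix_apply, Matrix.diagonal_apply, Matrix.diagonal_apply]
    by_cases hrs : r = s
    · subst hrs
      rw [if_pos rfl, if_pos rfl]
    · rw [if_neg hrs, if_neg fun e => hrs ((sg k).symm.injective e)]
  have hdl : S' * rei k M * S = Matrix.diagonal lam := by
    rw [Matrix.mul_assoc, hSdef, ← map_mul, heig, map_mul, ← hSdef, hreid, ← Matrix.mul_assoc,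
      hS'S, Matrix.one_mul]
  have hUl : ∀ u ∈ U', rho Finset.univ (Matrix.diagonal (plv lam 1)) u ∈ U' := by
    have h1 := hU' M hM
    rw [hdl, pl_diagonal] at h1
    exact h1
  -- the Lie algebra
  set L : Submodule ℂ (Matrix (L2 (gt k)) (L2 (gt k)) ℂ) :=
    gsp (cl k) ⊓ (LieStab U').comap po_pl0 with hL
  have hLm : ∀ Y, Y ∈ L ↔ Y ∈ gsp (cl k) ∧ pl0 Y ∈ LieStab U' := fun Y => Iff.rfl
  have hne : ∀ r, lam r ≠ 0 := by
    intro r h0
    rcases r with i | i
    · have := hlam i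
      rw [h0, zero_mul] at this
      exact hq this.symm
    · have := hlam i
      rw [h0, mul_zero] at this
      exact hq this.symm
  have hTL : ∀ t ∈ TLog lam, Matrix.diagonal t ∈ L := by
    intro t ht
    rw [hLm]
    have ht' := ht
    obtain ⟨ψ, hψ, htψ⟩ := ht'
    refine ⟨po_diag_gsp (c := ψ q) (fun i => ?_), ?_⟩
    · rw [htψ, htψ, ← hψ _ _ (hne _) (hne _), hlam]
    · rw [pl0_diagonal]
      exact diag_lieStab hUl (fun x y hxy => word_log hne ht x y hxy)
  have hbr : ∀ Y ∈ L, ∀ Z ∈ L, Y * Z - Z * Y ∈ L := by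
    intro Y hY Z hZ
    rw [hLm] at hY hZ ⊢
    refine ⟨po_gsp_bracket hY.1 hZ.1, ?_⟩
    have e : pl0 (Y * Z - Z * Y) = pl0 Y * pl0 Z - pl0 Z * pl0 Y := by
      have := (po_pl0 (g := gt k)).map_sub (Y * Z) (Z * Y)
      change pl0 (Y * Z - Z * Y) = pl0 (Y * Z) - pl0 (Z * Y) at this
      rw [this, pl0_mul, pl0_mul]
    rw [e]
    exact lieStab_bracket hY.2 hZ.2
  have hconj : ∀ (m : ℂ) (X X' : Matrix (L2 (gt k)) (L2 (gt k)) ℂ), GT k m X →
      GT k m⁻¹ X' → X * X' = 1 → X' * X = 1 →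
      (∀ u ∈ U', rho Finset.univ (pl X) u ∈ U') → ∀ Y ∈ L, X * Y * X' ∈ L := by
    intro m X X' hX hX' h1 h2 hXU Y hY
    rw [hLm] at hY ⊢
    refine ⟨po_gsp_conj h1 hX.form hX.cls hX'.cls hY.1, ?_⟩
    rw [pl0_conj]
    exact lieStab_conj (by rw [← pl_mul, h2, pl_one]) hXU hY.2
  have hGTZ : ∀ Z ∈ 𝓝, ∃ m, GT k m (S' * rei k Z * S) := by
    intro Z hZ
    obtain ⟨m, hm⟩ := hsim Z hZ
    have hZ' : GT k m (rei k Z) := by
      unfold GT
      rw [AlgEquiv.symm_apply_apply]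
      exact hm
    exact ⟨_, (hS'.mul hZ').mul hS⟩
  have h𝓜 : ∀ X ∈ {X | ∃ Z ∈ 𝓝, X = S' * rei k Z * S}, (∀ r s, cl k r ≠ cl k s → X r s = 0) ∧
      ∃ X', X * X' = 1 ∧ X' * X = 1 ∧ (∀ Y ∈ L, X * Y * X' ∈ L) ∧ ∀ Y ∈ L, X' * Y * X ∈ L := by
    rintro _ ⟨Z, hZ, rfl⟩
    obtain ⟨m, hX⟩ := hGTZ Z hZ
    obtain ⟨X', h1, h2, hX'⟩ := hX.inv
    have hX'' : GT k (m⁻¹)⁻¹ (S' * rei k Z * S) := by rw [inv_inv]; exact hX
    refine ⟨hX.cls, X', h1, h2, ?_, ?_⟩
    · exact hconj m _ X' hX hX' h1 h2 (hU' Z hZ)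
    · exact hconj m⁻¹ X' _ hX' hX'' h2 h1
        (rho_inv_mem (by rw [← pl_mul, h2, pl_one]) (hU' Z hZ))
  have hLg : L ≤ gsp (cl k) := inf_le_left
  have hrt : ∀ b, ∀ r s, r ≠ s → cl k r = Sum.inr (b, true) → cl k s = Sum.inr (b, true) →
      rt r s ∈ L := by
    intro b r s hrs hr hs
    exact root_mem (sep_log hne hsid) hLg hbr hTL _ h𝓜 (Sum.inr (b, true))
      (strIrr_transport 𝓝 b (hirr b) hS hS' hSS' hS'S) hrs hr hs
  have hsp : ∀ b r, cl k r = Sum.inr (b, true) → cl k r.swap = Sum.inr (b, true) →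
      rt r r ∈ L := by
    intro b r hr hs
    have hrs : r ≠ r.swap := (po_swap_ne r).symm
    have h1 := hbr _ (hrt _ r r.swap hrs hr hs) _ (hrt _ r.swap r hrs.symm hs hr)
    rw [po_rt_bracket] at h1
    have h2 := L.smul_mem (4 : ℂ)⁻¹ h1
    rw [smul_smul, inv_mul_cancel₀ (by norm_num : (4 : ℂ) ≠ 0), one_smul] at h2
    exact h2
  have hco : ∀ b r s, cl k r = Sum.inr (b, true) → cl k s = Sum.inr (b, true) →
      rt r r - rt s s ∈ L := by
    intro b r s hr hs
    by_cases hrs : r = s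
    · rw [hrs, sub_self]
      exact L.zero_mem
    · by_cases hsw : s = r.swap
      · subst hsw
        exact L.sub_mem (hsp b r hr hs) (hsp b r.swap hs (by rw [Sum.swap_swap]; exact hr))
      · rw [← po_rt_coroot hsw]
        exact hbr _ (hrt b r s hrs hr hs) _ (hrt b s r (Ne.symm hrs) hs hr)
  have hdiag : ∀ (c : ℂ) (t : L2 (gt k) → ℂ), TT k c t → Matrix.diagonal t ∈ L := by
    intro c t ht
    obtain ⟨ψ, hψ, hψT, hψt⟩ := hlog c t ht
    refine torus_mem hsp hco ht hψT (hTL _ ⟨ψ, hψ, fun r => rfl⟩) ?_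
    intro b i hi
    rw [← hψt b i hi, Equiv.symm_apply_apply]
  -- the group
  have hP := gen_total (k := k) (fun X => ∀ u ∈ U', rho Finset.univ (pl X) u ∈ U')
    (fun X Z hX hZ u hu => by rw [hA]; exact hX _ (hZ u hu))
    (fun b hb v hv a => by
      have hall : ∀ r, cl k r = Sum.inr (b, true) → cl k r.swap = Sum.inr (b, true) := by
        intro r hr
        obtain ⟨b', x, rfl⟩ := sg_surj k r
        rw [cl_sg] at hr
        obtain rfl : b' = b := (po_tcl hr).1
        rw [← sg_swap, cl_sg]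
        unfold tcl
        rw [if_pos (main_of_isSp hb _)]
      have htv : a • tv v ∈ L := L.smul_mem a (po_tv_mem (cl := cl k) (c := Sum.inr (b, true)) hall
        (hrt b) (fun r hr => hsp b r hr (hall r hr)) hv)
      have h3 := ((hLm _).1 htv).2
      have h4 : pl0 (a • tv v) * pl0 (a • tv v) = 0 := by
        rw [← pl0_mul, tv_sq]
        exact (po_pl0 (g := gt k)).map_zero
      intro u hu
      have h5 := rho_exp_mem h4 h3 u hu
      rw [← pl_one_add] at h5
      exact h5)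
    (fun b r s hrs hr hs a => by
      have h3 := ((hLm _).1 (L.smul_mem a (hrt b r s hrs hr hs))).2
      have h4 : pl0 (a • rt r s) * pl0 (a • rt r s) = 0 := by
        rw [← pl0_mul, po_rt_sq hrs]
        exact (po_pl0 (g := gt k)).map_zero
      intro u hu
      have h5 := rho_exp_mem h4 h3 u hu
      rw [← pl_one_add] at h5
      exact h5)
    (fun c e he => by
      obtain ⟨h1, h2⟩ := he.diag
      obtain ⟨c', t, ht, hte⟩ := exists_exp he.ne h1 h2
      have h3 := ((hLm _).1 (hdiag c' t ht)).2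
      rw [pl0_diagonal] at h3
      rw [pl_diagonal]
      exact rho_exp_diag hte h3)
  intro c X hX u hu
  have h1 : GT k (1 * c * 1) (S' * X * S) := (hS'.mul hX).mul hS
  have h2 := hP _ _ h1 (rho Finset.univ (pl S') u) ⟨u, hu, rfl⟩
  rw [← hA, Matrix.mul_assoc, hSS', Matrix.mul_one, hA] at h2
  obtain ⟨w, hw, hw2⟩ := h2
  have h3 := congrArg (rho Finset.univ (pl S)) hw2
  rw [← hA, ← hA, hSS', hA1, hA1] at h3
  rw [← h3]
  exact hw

end Pool.Agent.Helper71.PO
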